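import Pool.Agent.MP_aee211_co.H55.Cx

/-! The polar grid on a disc whose boundary arcs are glued in pairs. -/

namespace Pool.Agent.MP_aee211_co.H55

open H75 Finset
open scoped Classical

/-- A pairing of the `M` boundary arcs. -/
structure Pat (M γ : ℕ) where
  (p q q' : ZMod M → ZMod M)
  T : Finset (ZMod M)
  pp : ∀ b, p (p b) = b
  pne : ∀ b, p b ≠ b
  hq : ∀ b, (q b = p b ∧ q' b = p b + 1) ∨ (q b = p b + 1 ∧ q' b = p b)
  card : T.card ≤ γ
  hT : ∀ d : ZMod M → F2, (∀ b, d b = d (q b) ↔ d (b + 1) = d (q' b)) →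
    (∀ t ∈ T, d t = d (q t)) → ∀ b, d b = d (q b)

namespace Pat

variable {M γ : ℕ} [NeZero M] (P : Pat M γ) (N : ℕ)

/-- Cells. -/
def cw (a : ℕ) (b : ZMod M) : (ℕ × ZMod M) ⊕ Sym2 (ZMod M) :=
  if a < N then .inl (a, b) else .inr s(b, P.p b)

/-- Extension of a function on `Fin N` by zero. -/
def ex {N : ℕ} (z : Fin N → F2) (a : ℕ) : F2 := if h : a < N then z ⟨a, h⟩ else 0

theorem sum_ex {N : ℕ} (z : Fin N → F2) (g : ℕ → F2) :
    ∑ a : Fin N, z a * g a = ∑ a ∈ range N, ex z a * g a := by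
  rw [← Fin.sum_univ_eq_sum_range (fun a => ex z a * g a)]
  simp [ex]

theorem tele (g : ℕ → F2) (n : ℕ) : ∑ a ∈ range n, (g a + g (a + 1)) = g 0 + g n := by
  induction n with
  | zero => simp [F2_add_self]
  | succ n ih =>
    rw [sum_range_succ, ih]
    linear_combination F2_add_self (g n)

/-- Identified corners. -/
def rel (x y : ZMod (N + 1) × ZMod M) : Prop :=
  (x.1 = (0 : ℕ) ∧ y.1 = (0 : ℕ)) ∨ (x.1 = (N : ℕ) ∧ y.1 = (N : ℕ) ∧
    ∃ b, (x.2 = b ∧ y.2 = P.q b) ∨ (x.2 = b + 1 ∧ y.2 = P.q' b))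

theorem cyc (c : ℕ → ZMod M → F2) (h0 : ∀ b, c 0 b = c 0 (b + 1))
    (h1 : ∀ b, c N b = c N (P.q b)) (h2 : ∀ b, c N (b + 1) = c N (P.q' b))
    (f : (ℕ × ZMod M) ⊕ Sym2 (ZMod M) → F2) :
    ∑ b, ∑ a ∈ range N, (c a b + c (a + 1) b) * (f (P.cw N a (b - 1)) + f (P.cw N a b)) +
      ∑ b, ∑ a ∈ range N, (c (a + 1) b + c (a + 1) (b + 1)) *
        (f (P.cw N a b) + f (P.cw N (a + 1) b)) = 0 := by
  have e1 : ∑ b, ∑ a ∈ range N, (c a b + c (a + 1) b) * f (P.cw N a (b - 1)) =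
      ∑ b, ∑ a ∈ range N, (c a (b + 1) + c (a + 1) (b + 1)) * f (P.cw N a b) :=
    (Fintype.sum_equiv (Equiv.addRight 1) _ _ fun b => by simp).symm
  have e2 : ∑ b, (c N b + c N (b + 1)) * f (P.cw N N b) = 0 := by
    refine sum_involution (fun b _ => P.p b) (fun b _ => ?_) (fun b _ _ => P.pne b)
      (fun _ _ => mem_univ _) fun b _ => P.pp b
    have : c N (P.p b) + c N (P.p b + 1) = c N b + c N (b + 1) := by
      rw [h1 b, h2 b]
      rcases P.hq b with ⟨a1, a2⟩ | ⟨a1, a2⟩ <;> rw [a1, a2]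
      exact add_comm _ _
    rw [this, show P.cw N N (P.p b) = P.cw N N b by simp [cw, P.pp, Sym2.eq_swap], F2_add_self]
  simp only [mul_add _ (f _), sum_add_distrib]
  rw [e1, ← e2]
  simp only [← sum_add_distrib]
  refine sum_congr rfl fun b _ => ?_
  have := tele (fun a => (c a b + c a (b + 1)) * f (P.cw N a b)) N
  rw [← h0, F2_add_self, zero_mul, zero_add] at this
  rw [← this]
  refine sum_congr rfl fun a _ => ?_
  linear_combination (f (P.cw N a b)) * F2_add_self (c (a + 1) b) +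
    (f (P.cw N a b)) * F2_add_self (c (a + 1) (b + 1))

theorem coh (hN : 0 < N) (zA zB : ℕ → ZMod M → F2)
    (H : ∀ f : (ℕ × ZMod M) ⊕ Sym2 (ZMod M) → F2,
      ∑ b, ∑ a ∈ range N, zA a b * (f (P.cw N a (b - 1)) + f (P.cw N a b)) +
        ∑ b, ∑ a ∈ range N, zB a b * (f (P.cw N a b) + f (P.cw N (a + 1) b)) = 0) :
    (∀ a < N, ∀ b, zB a b = ∑ k ∈ range (a + 1), zA k b + ∑ k ∈ range (a + 1), zA k (b + 1)) ∧
      ∀ b, zB (N - 1) b = zB (N - 1) (P.p b) := by
  constructor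
  · intro a0 ha b0
    set f : (ℕ × ZMod M) ⊕ Sym2 (ZMod M) → F2 :=
      Sum.elim (fun x => if x.2 = b0 then (if x.1 < a0 + 1 then 1 else 0) else 0) fun _ => 0 with hf
    have e : ∀ a b, f (P.cw N a b) = if b = b0 then (if a < a0 + 1 then 1 else 0) else 0 := by
      intro a b
      unfold cw
      split_ifs <;> simp [*] <;> omega
    have s1 : ∀ g : ℕ → F2, ∑ a ∈ range N, g a * (if a < a0 + 1 then 1 else 0) =
        ∑ a ∈ range (a0 + 1), g a := fun g => by
      simp only [mul_ite, mul_one, mul_zero]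
      rw [← sum_filter]
      exact sum_congr (by ext; simp; omega) fun _ _ => rfl
    have h := H f
    have s0 : ∀ (g : ℕ → ZMod M → F2) (u : ℕ → F2) (b1 : ZMod M),
        ∑ x, ∑ a ∈ range N, g a x * (if x = b1 then u a else 0) = ∑ a ∈ range N, g a b1 * u a := by
      intro g u b1
      simp only [mul_ite, mul_zero, sum_ite_irrel, sum_const_zero, sum_ite_eq', mem_univ, if_true]
    simp only [e, mul_add, sum_add_distrib, sub_eq_iff_eq_add] at h
    rw [s0, s0, s0, s0, s1, s1, s1] at h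
    have s2 : ∑ a ∈ range N, zB a b0 * (if a + 1 < a0 + 1 then 1 else 0) =
        ∑ a ∈ range a0, zB a b0 := by
      simp only [mul_ite, mul_one, mul_zero]
      rw [← sum_filter]
      exact sum_congr (by ext; simp; omega) fun _ _ => rfl
    rw [s2, sum_range_succ (fun a => zB a b0)] at h
    refine F2_eq_of_add ?_
    linear_combination h - F2_add_self (∑ a ∈ range a0, zB a b0)
  · intro b0
    set f : (ℕ × ZMod M) ⊕ Sym2 (ZMod M) → F2 :=
      Sum.elim (fun _ => 0) fun x => if x = s(b0, P.p b0) then 1 else 0 with hf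
    have e : ∀ a b, f (P.cw N a b) = if a < N then 0 else
        (if b = b0 then 1 else 0) + if b = P.p b0 then 1 else 0 := by
      intro a b
      unfold cw
      by_cases ha : a < N
      · simp [ha, hf]
      · simp only [ha, if_false, hf, Sum.elim_inr, Sym2.eq_iff]
        have := P.pne b0
        by_cases h1 : b = b0
        · subst h1
          simp [this.symm]
        · by_cases h2 : b = P.p b0
          · subst h2
            simp [this, P.pp]
          · simp [h1, h2]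
    have h := H f
    obtain ⟨n, rfl⟩ : ∃ n, N = n + 1 := ⟨N - 1, by omega⟩
    rw [sum_eq_zero fun b _ => sum_eq_zero fun a ha => by simp [e, mem_range.1 ha], zero_add,
      sum_congr rfl fun b _ => (sum_range_succ _ _).trans (congrArg (· + _)
        (sum_eq_zero fun a ha => by
          simp [e, (mem_range.1 ha).trans (Nat.lt_succ_self n), mem_range.1 ha]))] at h
    simp only [e, Nat.lt_succ_self, if_true, lt_irrefl, if_false, zero_add, mul_add, mul_ite,
      mul_one, mul_zero, sum_add_distrib, sum_ite_eq', mem_univ] at h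
    exact F2_eq_of_add h

/-- The grid complex. -/
noncomputable def cx (hN : 0 < N) : Cx γ where
  W := (ℕ × ZMod M) ⊕ Sym2 (ZMod M)
  E := (ZMod M × Fin N) ⊕ (ZMod M × Fin N)
  R := ZMod (N + 1) × ZMod M
  T := P.T
  s := Sum.elim (fun e => P.cw N e.2 (e.1 - 1)) fun e => P.cw N e.2 e.1
  t := Sum.elim (fun e => P.cw N e.2 e.1) fun e => P.cw N (e.2 + 1) e.1
  l := Sum.elim (fun e => ((e.2 : ℕ), e.1)) fun e => ((e.2 + 1 : ℕ), e.1)
  r := Sum.elim (fun e => ((e.2 + 1 : ℕ), e.1)) fun e => ((e.2 + 1 : ℕ), e.1 + 1)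
  rel := P.rel N
  lam :=
    { toFun := fun z t => ∑ a, z (.inl (t.1, a)) + ∑ a, z (.inl (P.q t.1, a))
      map_add' := fun z w => by funext t; simp [sum_add_distrib]; ring
      map_smul' := fun c z => by funext t; simp [mul_sum, mul_add] }
  card := by simpa using P.card
  cyc := fun c hc f => by
    refine Eq.trans ?_ (P.cyc N (fun a b => c (a, b)) (fun b => hc _ _ (.inl ⟨rfl, rfl⟩))
      (fun b => hc _ _ (.inr ⟨rfl, rfl, b, .inl ⟨rfl, rfl⟩⟩))
      (fun b => hc _ _ (.inr ⟨rfl, rfl, b, .inr ⟨rfl, rfl⟩⟩)) f)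
    simp only [Fintype.sum_sum_type, Fintype.sum_prod_type, Sum.elim_inl, Sum.elim_inr,
      ← Fin.sum_univ_eq_sum_range]
  coh := fun z hz hl => by
    set zA : ℕ → ZMod M → F2 := fun a b => ex (fun a => z (.inl (b, a))) a with hA
    set zB : ℕ → ZMod M → F2 := fun a b => ex (fun a => z (.inr (b, a))) a with hB
    obtain ⟨h1, h2⟩ := P.coh N hN zA zB fun f => by
      refine Eq.trans ?_ (hz f)
      simp only [Fintype.sum_sum_type, Fintype.sum_prod_type, Sum.elim_inl, Sum.elim_inr,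
        ← Fin.sum_univ_eq_sum_range, hA, hB, ex, Fin.is_lt, dif_pos]
    have v : ∀ a, a ≤ N → ((a : ℕ) : ZMod (N + 1)).val = a := fun a ha =>
      ZMod.val_cast_of_lt (by omega)
    set d : ZMod M → F2 := fun b => ∑ k ∈ range N, zA k b with hd
    have h3 : ∀ b, d b + d (b + 1) = d (P.q b) + d (P.q' b) := fun b => by
      have a1 := h1 (N - 1) (by omega) b
      have a2 := h1 (N - 1) (by omega) (P.p b)
      rw [Nat.sub_add_cancel hN] at a1 a2
      refine a1.symm.trans ((h2 b).trans (a2.trans ?_))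
      rcases P.hq b with ⟨a1, a2⟩ | ⟨a1, a2⟩ <;> rw [a1, a2]
      exact add_comm _ _
    have h4 : ∀ b, d b = d (P.q b) ↔ d (b + 1) = d (P.q' b) := fun b =>
      ⟨fun h => by linear_combination h3 b - h, fun h => by linear_combination h3 b - h⟩
    have h5 := P.hT d h4 fun t ht => by
      refine F2_eq_of_add (Eq.trans ?_ (congrFun hl ⟨t, ht⟩))
      simp only [hd, hA, ← Fin.sum_univ_eq_sum_range, ex, Fin.is_lt, dif_pos]
      rfl
    refine ⟨fun x => ∑ k ∈ range x.1.val, zA k x.2, ?_, ?_⟩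
    · rintro ⟨x, b⟩ ⟨y, b'⟩ (⟨rfl, rfl⟩ | ⟨rfl, rfl, c, ⟨rfl, rfl⟩ | ⟨rfl, rfl⟩⟩)
      · simp
      · simpa only [v N le_rfl] using h5 _
      · simpa only [v N le_rfl] using (h4 _).1 (h5 _)
    · rintro (⟨b, a⟩ | ⟨b, a⟩)
      · simp only [Sum.elim_inl, v a a.2.le, v (a + 1) a.2, sum_range_succ]
        rw [← add_assoc, F2_add_self, zero_add]
        simp [hA, ex]
      · simp only [Sum.elim_inr, v (a + 1) a.2]
        rw [← h1 a a.2]
        simp [hB, ex]

theorem adjA (hN : 0 < N) {a : ℕ} (ha : a < N) (b : ZMod M) :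
    (P.cx N hN).Adj (.inl (a, b)) (.inl (a, b + 1)) :=
  ⟨.inl (b + 1, ⟨a, ha⟩), .inl ⟨by simp [cx, cw, ha], by simp [cx, cw, ha]⟩⟩

theorem adjB (hN : 0 < N) {a : ℕ} (ha : a + 1 < N) (b : ZMod M) :
    (P.cx N hN).Adj (.inl (a, b)) (.inl (a + 1, b)) :=
  ⟨.inr (b, ⟨a, by omega⟩), .inl ⟨by simp [cx, cw, show a < N by omega], by simp [cx, cw, ha]⟩⟩

theorem adjC (hN : 0 < N) (b : ZMod M) :
    (P.cx N hN).Adj (.inl (N - 1, b)) (.inr s(b, P.p b)) :=
  ⟨.inr (b, ⟨N - 1, by omega⟩), .inl ⟨by simp [cx, cw, hN],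
    by simp [cx, cw, Nat.sub_add_cancel hN]⟩⟩

end Pat

end Pool.Agent.MP_aee211_co.H55
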