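import Pool.Agent.MP_aee211_co.H75.Euler

/-! Euler bound for bipartite minors of the dual graph of a two-dimensional complex. -/

namespace Pool.Agent.MP_aee211_co.H55

open Module H75
open scoped Classical

/-- Cells `W`, edges `E` between cells, and corners `R` (up to `rel`); the first cohomology has
dimension at most `γ`. -/
structure Cx (γ : ℕ) where
  (W E R T : Type)
  [fE : Fintype E]
  [fR : Finite R]
  [fT : Fintype T]
  (s t : E → W)
  (l r : E → R)
  rel : R → R → Prop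
  lam : (E → F2) →ₗ[F2] (T → F2)
  card : Fintype.card T ≤ γ
  cyc : ∀ c : R → F2, (∀ x y, rel x y → c x = c y) → ∀ f : W → F2,
    ∑ e, (c (l e) + c (r e)) * (f (s e) + f (t e)) = 0
  coh : ∀ z : E → F2, (∀ f : W → F2, ∑ e, z e * (f (s e) + f (t e)) = 0) → lam z = 0 →
    ∃ c : R → F2, (∀ x y, rel x y → c x = c y) ∧ ∀ e, z e = c (l e) + c (r e)

attribute [instance] Cx.fE Cx.fR Cx.fT

namespace Cx

variable {γ : ℕ} (C : Cx γ)

def Adj (u v : C.W) : Prop := ∃ e, (C.s e = u ∧ C.t e = v) ∨ (C.s e = v ∧ C.t e = u)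

def Conn (S : Set C.W) : C.W → C.W → Prop :=
  Relation.ReflTransGen fun a b => C.Adj a b ∧ a ∈ S ∧ b ∈ S

variable {C}

theorem Adj.symm {u v : C.W} (h : C.Adj u v) : C.Adj v u := h.imp fun _ h => h.symm

theorem Conn.refl (S : Set C.W) (a : C.W) : C.Conn S a a := Relation.ReflTransGen.refl

theorem Conn.adj {S : Set C.W} {a b : C.W} (h : C.Adj a b) (ha : a ∈ S) (hb : b ∈ S) :
    C.Conn S a b := Relation.ReflTransGen.single ⟨h, ha, hb⟩

theorem Conn.trans {S : Set C.W} {a b c : C.W} (h : C.Conn S a b) (h' : C.Conn S b c) :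
    C.Conn S a c := Relation.ReflTransGen.trans h h'

theorem Conn.symm {S : Set C.W} {a b : C.W} (h : C.Conn S a b) : C.Conn S b a := by
  induction h with
  | refl => exact Conn.refl _ _
  | tail _ h ih => exact (Conn.adj h.1.symm h.2.2 h.2.1).trans ih

theorem Conn.mono {S S' : Set C.W} {a b : C.W} (h : C.Conn S a b) (hS : S ⊆ S') :
    C.Conn S' a b := rtg_mono (fun _ _ h => ⟨h.1, hS h.2.1, hS h.2.2⟩) h

theorem Conn.mem {S : Set C.W} {a b : C.W} (h : C.Conn S a b) (ha : a ∈ S) : b ∈ S := by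
  induction h with
  | refl => exact ha
  | tail _ h _ => exact h.2.2

theorem Conn.comp {S : Set C.W} {a b : C.W} (h : C.Conn S a b) :
    C.Conn {x | C.Conn S a x} a b := by
  induction h with
  | refl => exact Conn.refl _ _
  | tail h1 h ih => exact ih.trans (Conn.adj h.1 h1 (Relation.ReflTransGen.tail h1 h))

variable (C)

/-- The boundary of a chain, as a functional. -/
noncomputable def bd : (C.E → F2) →ₗ[F2] ((C.W → F2) → F2) where
  toFun z := fun f => ∑ e, z e * (f (C.s e) + f (C.t e))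
  map_add' z w := by funext f; simp [add_mul, Finset.sum_add_distrib]
  map_smul' c z := by funext f; simp [Finset.mul_sum, mul_assoc]

theorem bd_apply (z : C.E → F2) (f : C.W → F2) :
    C.bd z f = ∑ e, z e * (f (C.s e) + f (C.t e)) := rfl

theorem bd_single (e : C.E) (f : C.W → F2) :
    C.bd (Pi.single e 1) f = f (C.s e) + f (C.t e) := by
  rw [bd_apply, Finset.sum_eq_single e] <;> simp +contextual [Pi.single_apply]

/-- Chains supported on a set of edges. -/
def sp (I : Set C.E) : Submodule F2 (C.E → F2) where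
  carrier := {z | ∀ e, e ∉ I → z e = 0}
  add_mem' := fun ha hb e he => by simp [ha e he, hb e he]
  zero_mem' := fun _ _ => rfl
  smul_mem' := fun c a ha e he => by simp [ha e he]

theorem path (S : Set C.W) (I : Set C.E) (hI : ∀ e, C.s e ∈ S → C.t e ∈ S → e ∈ I) {u v : C.W}
    (h : C.Conn S u v) : (fun f : C.W → F2 => f u + f v) ∈ (C.sp I).map C.bd := by
  induction h with
  | refl => exact ⟨0, Submodule.zero_mem _, by funext f; simp [F2_add_self]⟩
  | @tail b c _ hbc ih =>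
    obtain ⟨⟨e, he⟩, hb, hc⟩ := hbc
    have h2 : (fun f : C.W → F2 => f b + f c) ∈ (C.sp I).map C.bd := by
      refine ⟨Pi.single e 1, fun e' he' => Pi.single_eq_of_ne ?_ _, funext fun f => ?_⟩
      · rintro rfl
        rcases he with ⟨rfl, rfl⟩ | ⟨rfl, rfl⟩
        exacts [he' (hI _ hb hc), he' (hI _ hc hb)]
      · rw [bd_single]
        rcases he with ⟨rfl, rfl⟩ | ⟨rfl, rfl⟩
        exacts [rfl, add_comm _ _]
    have h3 := Submodule.add_mem _ ih h2
    refine (congrArg (· ∈ _) (funext fun f => ?_)).mp h3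
    have := F2_add_self (f b)
    simp only [Pi.add_apply]
    linear_combination this

theorem bound {Z : Type} (X Y : Finset Z) (hXY : Disjoint X Y) (h3 : 3 ≤ X.card + Y.card)
    (B : Z → Set C.W) (hd : ∀ z ∈ X ∪ Y, ∀ z' ∈ X ∪ Y, ∀ w, w ∈ B z → w ∈ B z' → z = z')
    (hc : ∀ z ∈ X ∪ Y, ∀ u ∈ B z, ∀ v ∈ B z, C.Conn (B z) u v) (P : Finset (Z × Z))
    (hP : ∀ q ∈ P, q.1 ∈ X ∧ q.2 ∈ Y ∧ ∃ u ∈ B q.1, ∃ v ∈ B q.2, C.Adj u v) :
    (P.card : ℤ) ≤ 2 * (X.card + Y.card) + 2 * γ - 4 := by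
  have hP1 : ∀ q ∈ P, q.1 ∈ X ∧ q.2 ∈ Y := fun q hq => ⟨(hP q hq).1, (hP q hq).2.1⟩
  have hP2 : ∀ q ∈ P, q.1 ∈ X ∪ Y ∧ q.2 ∈ X ∪ Y := fun q hq =>
    ⟨Finset.mem_union_left _ (hP q hq).1, Finset.mem_union_right _ (hP q hq).2.1⟩
  have hne : ∀ q q' : P, q.1.1 ≠ q'.1.2 := fun q q' h =>
    Finset.disjoint_left.1 hXY (hP q.1 q.2).1 (h ▸ (hP q'.1 q'.2).2.1)
  have hk : ∀ q : P, ∃ (e : C.E) (u v : C.W), u ∈ B q.1.1 ∧ v ∈ B q.1.2 ∧
      ((C.s e = u ∧ C.t e = v) ∨ (C.s e = v ∧ C.t e = u)) := fun q => by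
    obtain ⟨u, hu, v, hv, e, he⟩ := (hP q.1 q.2).2.2
    exact ⟨e, u, v, hu, hv, he⟩
  choose ke ku kv hu hv hke using hk
  have m1 := fun q : P => (hP2 q.1 q.2).1
  have m2 := fun q : P => (hP2 q.1 q.2).2
  have hf : ∀ q (f : C.W → F2), f (C.s (ke q)) + f (C.t (ke q)) = f (ku q) + f (kv q) := by
    intro q f
    rcases hke q with ⟨h1, h2⟩ | ⟨h1, h2⟩ <;> rw [h1, h2]
    exact add_comm _ _
  have hinj : Function.Injective ke := by
    intro q q' h
    have a := hke q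
    rw [h] at a
    rcases a with ⟨a1, a2⟩ | ⟨a1, a2⟩ <;> rcases hke q' with ⟨b1, b2⟩ | ⟨b1, b2⟩
    · exact Subtype.ext (Prod.ext (hd _ (m1 q) _ (m1 q') _ (hu q) (a1 ▸ b1 ▸ hu q'))
        (hd _ (m2 q) _ (m2 q') _ (hv q) (a2 ▸ b2 ▸ hv q')))
    · exact absurd (hd _ (m1 q) _ (m2 q') _ (hu q) (a1 ▸ b1 ▸ hv q')) (hne q q')
    · exact absurd (hd _ (m1 q) _ (m2 q') _ (hu q) (a2 ▸ b2 ▸ hv q')) (hne q q')
    · exact Subtype.ext (Prod.ext (hd _ (m1 q) _ (m1 q') _ (hu q) (a2 ▸ b2 ▸ hu q'))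
        (hd _ (m2 q) _ (m2 q') _ (hv q) (a1 ▸ b1 ▸ hv q')))
  set I : Set C.E := {e | ∃ z ∈ X ∪ Y, C.s e ∈ B z ∧ C.t e ∈ B z} with hI
  have hkI : ∀ q, ke q ∉ I := by
    rintro q ⟨z, hz, h1, h2⟩
    apply hne q q
    rcases hke q with ⟨a1, a2⟩ | ⟨a1, a2⟩
    · exact (hd _ (m1 q) _ hz _ (hu q) (a1 ▸ h1)).trans (hd _ hz _ (m2 q) _ (a2 ▸ h2) (hv q))
    · exact (hd _ (m1 q) _ hz _ (hu q) (a2 ▸ h2)).trans (hd _ hz _ (m2 q) _ (a1 ▸ h1) (hv q))
  set U : Set C.E := I ∪ Set.range ke with hU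
  set p : (C.E → F2) →ₗ[F2] (P → F2) := LinearMap.funLeft F2 F2 ke with hp
  have hpa : ∀ z q, p z q = z (ke q) := fun z q => rfl
  have ind : ∀ z ∈ X ∪ Y, ∀ z' ∈ X ∪ Y, ∀ w ∈ B z,
      (if w ∈ B z' then (1 : F2) else 0) = if z = z' then 1 else 0 := fun z hz z' hz' w hw =>
    if_congr ⟨hd z hz z' hz' w hw, fun h => h ▸ hw⟩ rfl rfl
  have key2 : ∀ z, C.bd z = 0 → z ∈ C.sp U → bdK (X ∪ Y) P (p z) = 0 := by
    intro z hz hzU
    funext w
    have h1 := congrFun hz fun v => if v ∈ B w.1 then 1 else 0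
    rw [bdK_apply, Pi.zero_apply]
    refine Eq.trans ?_ h1
    refine Fintype.sum_of_injective ke hinj _ _ ?_ ?_
    · intro e he
      beta_reduce
      by_cases heI : e ∈ I
      · obtain ⟨z', hz', a1, a2⟩ := heI
        rw [ind z' hz' w.1 w.2 _ a1, ind z' hz' w.1 w.2 _ a2, F2_add_self, mul_zero]
      · rw [hzU e (by rintro (h | h); exacts [heI h, he h]), zero_mul]
    · intro q
      beta_reduce
      rw [hpa, hf q fun v => if v ∈ B w.1 then 1 else 0, ind _ (m1 q) _ w.2 _ (hu q),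
        ind _ (m2 q) _ w.2 _ (hv q)]
  have key1 : LinearMap.ker (bdK (X ∪ Y) P) ≤ (LinearMap.ker C.bd ⊓ C.sp U).map p := by
    intro a ha
    rw [LinearMap.mem_ker] at ha
    have hβ : ∀ z : Z, ∃ b : Option C.W, ∀ u ∈ B z, ∃ v ∈ B z, b = some v := fun z => by
      by_cases h : ∃ u, u ∈ B z
      · obtain ⟨u, hu⟩ := h
        exact ⟨some u, fun _ _ => ⟨u, hu, rfl⟩⟩
      · exact ⟨none, fun u hu => absurd ⟨u, hu⟩ h⟩
    choose β hβ using hβ
    have hpath : ∀ z ∈ X ∪ Y, ∀ u ∈ B z,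
        (fun f : C.W → F2 => f u + (β z).elim 0 f) ∈ (C.sp I).map C.bd := by
      intro z hz u hu
      obtain ⟨v, hv, e⟩ := hβ z u hu
      rw [e]
      exact C.path (B z) I (fun e h1 h2 => ⟨z, hz, h1, h2⟩) (hc z hz u hu v hv)
    set z0 : C.E → F2 := ∑ q : P, a q • Pi.single (ke q) 1 with hz0
    have hmem : C.bd z0 ∈ (C.sp I).map C.bd := by
      have h1 : C.bd z0 = ∑ q : P, a q • ((fun f : C.W → F2 => f (ku q) + (β q.1.1).elim 0 f) +
          fun f : C.W → F2 => f (kv q) + (β q.1.2).elim 0 f) := by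
        funext f
        have h1 := pair_bdK (X ∪ Y) P hP2 a fun w => (β w).elim 0 f
        simp only [ha, Pi.zero_apply, zero_mul, Finset.sum_const_zero] at h1
        rw [hz0, map_sum, Finset.sum_apply, Finset.sum_apply]
        refine (add_zero _).symm.trans ((congrArg (_ + ·) h1).trans ?_)
        rw [← Finset.sum_add_distrib]
        refine Finset.sum_congr rfl fun q _ => ?_
        simp only [map_smul, Pi.smul_apply, Pi.add_apply, smul_eq_mul, bd_single, hf]
        ring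
      rw [h1]
      exact Submodule.sum_mem _ fun q _ => Submodule.smul_mem _ _
        (Submodule.add_mem _ (hpath _ (m1 q) _ (hu q)) (hpath _ (m2 q) _ (hv q)))
    obtain ⟨zI, hzI, hzI'⟩ := hmem
    refine ⟨z0 + zI, ⟨?_, ?_⟩, ?_⟩
    · show C.bd (z0 + zI) = 0
      rw [map_add, hzI', fun_add_self]
    · refine Submodule.add_mem _ (Submodule.sum_mem _ fun q _ => Submodule.smul_mem _ _ ?_) ?_
      · exact fun e he => Pi.single_eq_of_ne (by rintro rfl; exact he (Or.inr ⟨q, rfl⟩)) _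
      · exact fun e he => hzI e fun h => he (Or.inl h)
    · funext q
      rw [hpa, Pi.add_apply, hzI _ (hkI q), add_zero, hz0, Finset.sum_apply,
        Finset.sum_eq_single q]
      · simp
      · intro q' _ hq'
        rw [Pi.smul_apply, Pi.single_eq_of_ne (fun h => hq' (hinj h).symm), smul_zero]
      · simp
  set RR : C.R → C.R → Prop := fun x y => C.rel x y ∨ ∃ e, e ∉ U ∧ x = C.l e ∧ y = C.r e with hRR
  have : Fintype (Quot RR) := Fintype.ofFinite _
  set sL := sidesL (fun q : P => Quot.mk RR (C.l (ke q))) (fun q : P => Quot.mk RR (C.r (ke q)))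
    with hsL
  have key3 : (LinearMap.ker C.lam ⊓ (LinearMap.ker C.bd ⊓ C.sp U)).map p ≤ LinearMap.range sL := by
    rintro _ ⟨z, ⟨h1, h2, hzU⟩, rfl⟩
    obtain ⟨c, c1, c2⟩ := C.coh z (congrFun h2) h1
    refine ⟨Quot.lift c ?_, funext fun q => (c2 _).symm⟩
    rintro x y (h | ⟨e, he, rfl, rfl⟩)
    · exact c1 x y h
    · exact F2_eq_of_add ((c2 e).symm.trans (hzU e he))
  have key4 : ∀ c, bdK (X ∪ Y) P (sL c) = 0 := fun c =>
    key2 (fun e => c (Quot.mk RR (C.l e)) + c (Quot.mk RR (C.r e)))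
      (funext (C.cyc (fun x => c (Quot.mk RR x)) fun x y h => congrArg c (Quot.sound (Or.inl h))))
      fun e he => by
        beta_reduce
        rw [show Quot.mk RR (C.l e) = Quot.mk RR (C.r e) from Quot.sound (Or.inr ⟨e, he, rfl, rfl⟩),
          F2_add_self]
  have hr := rank_sides (fun q : P => Quot.mk RR (C.l (ke q))) (fun q : P => Quot.mk RR (C.r (ke q)))
    (fun ρ => by
      have := four_le_supp X Y hXY P hP1 _ (key4 (Pi.single ρ 1))
      convert this)
  rw [← hsL, Fintype.card_coe] at hr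
  have hZ : (X ∪ Y).card = X.card + Y.card := by
    convert Finset.card_union_of_disjoint hXY
  have h1 := ker_bdK (X ∪ Y) (Finset.card_pos.1 (by omega)) P hP2
  have h2 := Submodule.finrank_mono key1
  have h4 := Submodule.finrank_mono key3
  have h5 := finrank_map_inf p (LinearMap.ker C.lam) ⊤ (LinearMap.ker C.bd ⊓ C.sp U) le_top le_top
  have h6 := LinearMap.finrank_range_add_finrank_ker C.lam
  have h7 := Submodule.finrank_le (LinearMap.range C.lam)
  rw [finrank_top] at h5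
  rw [finrank_fintype_fun_eq_card] at h7
  have h8 := C.card
  omega

end Cx

end Pool.Agent.MP_aee211_co.H55
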