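import Mathlib

/-! The closed surfaces as polygons with identified sides, and graphs drawn in a space. -/

namespace Pool.Agent.MP_aee211_co.H55

open Set

/-- The point with parameter `t ∈ [0,1]` on the side number `i` of the unit disc, whose boundary
circle is divided into `m` equal arcs. -/
noncomputable def side (m i : ℕ) (t : ℝ) : ℂ :=
  Complex.exp (2 * Real.pi * Complex.I * ((i + t) / m))

/-- The identifications prescribed by the word `w` (a letter is a pair: name, exponent `+1` for
`true` and `-1` for `false`): two sides with the same name are glued, in the same direction if the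
exponents agree and in opposite directions otherwise. -/
def Glue (w : List (ℕ × Bool)) (z z' : Metric.closedBall (0 : ℂ) 1) : Prop :=
  ∃ (i j : Fin w.length) (t : ℝ), i ≠ j ∧ w[i].1 = w[j].1 ∧ t ∈ Icc (0 : ℝ) 1 ∧
    (z : ℂ) = side w.length i t ∧
    (z' : ℂ) = side w.length j (if w[i].2 = w[j].2 then t else 1 - t)

/-- The closed disc with its sides glued according to `w`, with the quotient topology. -/
abbrev Surf (w : List (ℕ × Bool)) : Type := Quot (Glue w)

/-- The word `a a⁻¹` for `h = 0` and `a₁ b₁ a₁⁻¹ b₁⁻¹ ⋯ a_h b_h a_h⁻¹ b_h⁻¹` for `h ≥ 1`. -/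
def wordS (h : ℕ) : List (ℕ × Bool) :=
  if h = 0 then [(0, true), (0, false)] else
    (List.range h).flatMap fun i =>
      [(2 * i, true), (2 * i + 1, true), (2 * i, false), (2 * i + 1, false)]

/-- The word `a₁ a₁ ⋯ a_g a_g`. -/
def wordN (g : ℕ) : List (ℕ × Bool) := (List.range g).flatMap fun i => [(i, true), (i, true)]

/-- `G` embeds in the space `Y`: the vertices are distinct points, every edge is a simple arc
joining its ends, no arc passes through a third vertex, and two different arcs meet only at a
common end. -/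
def Embeds {V : Type} (G : SimpleGraph V) (Y : Type) [TopologicalSpace Y] : Prop :=
  ∃ (pos : V → Y) (γ : V → V → ℝ → Y), Function.Injective pos ∧
    (∀ u v, G.Adj u v → ContinuousOn (γ u v) (Icc 0 1) ∧ InjOn (γ u v) (Icc 0 1) ∧
      γ u v 0 = pos u ∧ γ u v 1 = pos v ∧ γ u v '' Icc 0 1 = γ v u '' Icc 0 1) ∧
    (∀ u v w, G.Adj u v → pos w ∈ γ u v '' Icc 0 1 → w = u ∨ w = v) ∧
    (∀ u v u' v', G.Adj u v → G.Adj u' v' → s(u, v) ≠ s(u', v') →
      ∀ p ∈ γ u v '' Icc 0 1, p ∈ γ u' v' '' Icc 0 1 →
        ∃ w, (w = u ∨ w = v) ∧ (w = u' ∨ w = v') ∧ p = pos w)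

end Pool.Agent.MP_aee211_co.H55
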