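import Pool.Agent.MP_aee211_co.H55.Defs
import Pool.Agent.MP_aee211_co.H55.Cx
import Pool.Agent.MP_aee211_co.H55.Up

/-! From a drawing in a space with fine cell decompositions to Euler's bound. -/

namespace Pool.Agent.MP_aee211_co.H55

open Set

/-- Finitely many continua can be replaced by connected sets of cells meeting in the same way. -/
def Fine (Y : Type) [TopologicalSpace Y] (γ : ℕ) : Prop :=
  ∀ (J : Type) [Finite J] (K : J → Set Y), (∀ i, IsCompact (K i)) → (∀ i, IsPreconnected (K i)) →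
    ∃ (C : Cx γ) (S : J → Set C.W), (∀ i, ∀ a ∈ S i, ∀ b ∈ S i, C.Conn (S i) a b) ∧
      ∀ i j, Disjoint (S i) (S j) ↔ Disjoint (K i) (K j)

def Minor {V : Type} (G : SimpleGraph V) {γ : ℕ} (H : Cx γ) : Prop :=
  ∃ B : V → Set H.W, (∀ u w, u ≠ w → Disjoint (B u) (B w)) ∧
    (∀ u, ∀ x ∈ B u, ∀ y ∈ B u, H.Conn (B u) x y) ∧
    ∀ u v, G.Adj u v → ∃ x ∈ B u, ∃ y ∈ B v, H.Adj x y

theorem entry {γ : ℕ} {H : Cx γ} {S U : Set H.W} {a b : H.W} (h : H.Conn S a b)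
    (ha : a ∉ U) (hb : b ∈ U) : ∃ x y, H.Conn (S \ U) a x ∧ y ∈ U ∧ H.Adj x y := by
  have : (H.Conn (S \ U) a b ∧ b ∉ U) ∨ ∃ x y, H.Conn (S \ U) a x ∧ y ∈ U ∧ H.Adj x y := by
    clear hb
    induction h with
    | refl => exact .inl ⟨Cx.Conn.refl _ _, ha⟩
    | @tail c d _ h ih =>
      refine ih.elim (fun ih => ?_) .inr
      by_cases hd : d ∈ U
      · exact .inr ⟨c, d, ih.1, hd, h.1⟩
      · exact .inl ⟨ih.1.trans (Cx.Conn.adj h.1 ⟨h.2.1, ih.2⟩ ⟨h.2.2, hd⟩), hd⟩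
  exact this.resolve_left fun h => h.2 hb

/-- Connected sets for the vertices and for the oriented edges give a minor. -/
theorem minor {V : Type} {G : SimpleGraph V} {γ : ℕ} {H : Cx γ} (E : V → V → Prop)
    (hE : ∀ u v, G.Adj u v → E u v ∨ E v u) (hn : ∀ u v, E u v → u ≠ v) (U : V → Set H.W)
    (S : V → V → Set H.W)
    (cU : ∀ u, ∀ a ∈ U u, ∀ b ∈ U u, H.Conn (U u) a b)
    (cS : ∀ u v, ∀ a ∈ S u v, ∀ b ∈ S u v, H.Conn (S u v) a b)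
    (dU : ∀ u v, u ≠ v → Disjoint (U u) (U v))
    (dS : ∀ u v u' v', u ≠ u' → Disjoint (S u v) (S u' v'))
    (dUS : ∀ u v w, w ≠ u → w ≠ v → Disjoint (U w) (S u v))
    (m : ∀ u v, E u v → ¬Disjoint (U u) (S u v) ∧ ¬Disjoint (U v) (S u v)) : Minor G H := by
  let B : V → Set H.W := fun u => U u ∪ {x | ∃ v, ∃ a ∈ U u, a ∈ S u v \ U v ∧ H.Conn (S u v \ U v) a x}
  have key : ∀ u v, E u v → ∃ x ∈ B u, ∃ y ∈ B v, H.Adj x y := fun u v h => by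
    obtain ⟨a, h1, h2⟩ := not_disjoint_iff.1 (m u v h).1
    obtain ⟨b, h3, h4⟩ := not_disjoint_iff.1 (m u v h).2
    have h5 := disjoint_left.1 (dU u v (hn u v h)) h1
    obtain ⟨x, y, h6, h7, h8⟩ := entry (cS u v a h2 b h4) h5 h3
    exact ⟨x, .inr ⟨v, a, h1, ⟨h2, h5⟩, h6⟩, y, .inl h7, h8⟩
  have d : ∀ w u v x, w ≠ u → x ∈ U w → x ∉ S u v \ U v := fun w u v x h hx h' => by
    by_cases e : w = v
    · exact h'.2 (e ▸ hx)
    · exact disjoint_left.1 (dUS u v w h e) hx h'.1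
  have c : ∀ u, ∀ x ∈ B u, ∃ a ∈ U u, H.Conn (B u) a x := by
    rintro u x (h | ⟨v, a, h1, h2, h3⟩)
    · exact ⟨x, h, Cx.Conn.refl _ _⟩
    · exact ⟨a, h1, h3.comp.mono fun y hy => .inr ⟨v, a, h1, h2, hy⟩⟩
  refine ⟨B, fun u w h => disjoint_left.2 ?_, fun u x hx y hy => ?_, fun u v h => ?_⟩
  · rintro x (h1 | ⟨v, a, -, h1, h2⟩) (h3 | ⟨v', a', -, h3, h4⟩)
    · exact disjoint_left.1 (dU u w h) h1 h3
    · exact d _ _ _ _ h h1 (h4.mem h3)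
    · exact d _ _ _ _ h.symm h3 (h2.mem h1)
    · exact disjoint_left.1 (dS _ _ _ _ h) (h2.mem h1).1 (h4.mem h3).1
  · obtain ⟨a, ha, h1⟩ := c u x hx
    obtain ⟨b, hb, h2⟩ := c u y hy
    exact (h1.symm.trans ((cU u a ha b hb).mono subset_union_left)).trans h2
  · rcases hE u v h with h | h
    · exact key u v h
    · obtain ⟨x, hx, y, hy, h⟩ := key v u h
      exact ⟨y, hy, x, hx, h.symm⟩

theorem top {V Y : Type} [Finite V] [TopologicalSpace Y] {g : ℕ} (hY : Fine Y g)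
    {G : SimpleGraph V} (hG : Embeds G Y) : ∃ H : Cx g, Minor G H := by
  obtain ⟨pos, γ, hinj, he, hv, hx⟩ := hG
  have := Fintype.ofFinite V
  let o := Fintype.equivFin V
  let E : V → V → Prop := fun u v => G.Adj u v ∧ o u < o v
  let P : V → V → ℝ → ℝ → Set Y := fun u v s t => ⋃ _ : E u v, γ u v '' Icc s t
  have mP : ∀ {u v s t p}, p ∈ P u v s t ↔ E u v ∧ ∃ τ, s ≤ τ ∧ τ ≤ t ∧ γ u v τ = p := by
    simp [P, and_assoc]
  have c1 : ∀ u v s t, 0 ≤ s → t ≤ 1 → IsCompact (P u v s t) ∧ IsPreconnected (P u v s t) := by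
    intro u v s t hs ht
    by_cases h : E u v
    · have := (he u v h.1).1.mono (Icc_subset_Icc hs ht)
      simpa [P, h] using ⟨isCompact_Icc.image_of_continuousOn this, isPreconnected_Icc.image _ this⟩
    · simpa [P, h] using isPreconnected_empty
  let X : V → Set Y := fun u => {pos u} ∪ ⋃ v, (P u v 0 (1 / 3) ∪ P v u (2 / 3) 1)
  have u1 : ∀ {w a b τ}, E a b → 0 ≤ τ → τ ≤ 1 → γ a b τ = pos w → w = a ∧ τ = 0 ∨ w = b ∧ τ = 1 := by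
    intro w a b τ h h0 h1 e
    obtain ⟨-, i, e0, e1, -⟩ := he a b h.1
    exact (hv a b w h.1 ⟨τ, ⟨h0, h1⟩, e⟩).imp
      (fun h' => ⟨h', i ⟨h0, h1⟩ (by simp) (by rw [e, e0, h'])⟩)
      fun h' => ⟨h', i ⟨h0, h1⟩ (by simp) (by rw [e, e1, h'])⟩
  have u2 : ∀ {a b τ a' b' τ'}, E a b → E a' b' → 0 ≤ τ → τ ≤ 1 → 0 ≤ τ' → τ' ≤ 1 →
      γ a b τ = γ a' b' τ' → a = a' ∧ b = b' ∧ τ = τ' ∨
        (a = a' ∧ τ = 0 ∧ τ' = 0 ∨ a = b' ∧ τ = 0 ∧ τ' = 1) ∨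
          b = a' ∧ τ = 1 ∧ τ' = 0 ∨ b = b' ∧ τ = 1 ∧ τ' = 1 := by
    intro a b τ a' b' τ' h h' h0 h1 h0' h1' e
    by_cases s : s(a, b) = s(a', b')
    · rcases Sym2.eq_iff.1 s with ⟨rfl, rfl⟩ | ⟨rfl, rfl⟩
      · exact .inl ⟨rfl, rfl, (he _ _ h.1).2.1 ⟨h0, h1⟩ ⟨h0', h1'⟩ e⟩
      · exact absurd h.2 h'.2.not_gt
    · obtain ⟨w, -, -, e'⟩ := hx a b a' b' h.1 h'.1 s _ ⟨τ, ⟨h0, h1⟩, rfl⟩ ⟨τ', ⟨h0', h1'⟩, e.symm⟩
      have := u1 h h0 h1 e'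
      have := u1 h' h0' h1' (e.symm.trans e')
      grind
  have mX : ∀ {u p}, p ∈ X u → p = pos u ∨ ∃ a b τ, E a b ∧ 0 ≤ τ ∧ τ ≤ 1 ∧ γ a b τ = p ∧
      (a = u ∧ τ ≤ 1 / 3 ∨ b = u ∧ 2 / 3 ≤ τ) := by
    rintro u p (h | h)
    · exact .inl h
    obtain ⟨v, h | h⟩ := mem_iUnion.1 h <;> obtain ⟨h1, τ, h2, h3, h4⟩ := mP.1 h
    · exact .inr ⟨u, v, τ, h1, h2, by linarith, h4, .inl ⟨rfl, h3⟩⟩
    · exact .inr ⟨v, u, τ, h1, by linarith, h3, h4, .inr ⟨rfl, h2⟩⟩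
  have ne : ∀ {a b}, E a b → a ≠ b := fun h => h.1.ne
  obtain ⟨n, S, hS, hd⟩ := hY _ (Sum.elim X fun e : V × V => P e.1 e.2 (1 / 3) (2 / 3))
    (by
      rintro (u | e)
      · exact isCompact_singleton.union (isCompact_iUnion fun v =>
          (c1 _ _ _ _ le_rfl (by norm_num)).1.union (c1 _ _ _ _ (by norm_num) le_rfl).1)
      · exact (c1 _ _ _ _ (by norm_num) (by norm_num)).1)
    (by
      rintro (u | e)
      · refine isPreconnected_of_forall (pos u) ?_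
        rintro p (h | h)
        · exact ⟨{pos u}, subset_union_left, rfl, h, isPreconnected_singleton⟩
        obtain ⟨v, h | h⟩ := mem_iUnion.1 h
        · exact ⟨_, fun q hq => .inr (mem_iUnion.2 ⟨v, .inl hq⟩), mP.2 ⟨(mP.1 h).1, 0, le_rfl,
            by norm_num, (he _ _ (mP.1 h).1.1).2.2.1⟩, h, (c1 _ _ _ _ le_rfl (by norm_num)).2⟩
        · exact ⟨_, fun q hq => .inr (mem_iUnion.2 ⟨v, .inr hq⟩), mP.2 ⟨(mP.1 h).1, 1, by norm_num,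
            le_rfl, (he _ _ (mP.1 h).1.1).2.2.2.1⟩, h, (c1 _ _ _ _ (by norm_num) le_rfl).2⟩
      · exact (c1 _ _ _ _ (by norm_num) (by norm_num)).2)
  refine ⟨n, minor E (fun u v h => ?_) (fun _ _ => ne) (fun u => S (.inl u))
    (fun u v => S (.inr (u, v))) (fun _ => hS _) (fun _ _ => hS _)
    (fun u v h => (hd _ _).2 (disjoint_left.2 fun p h1 h2 => ?_))
    (fun u v u' v' h => (hd _ _).2 (disjoint_left.2 fun p h1 h2 => ?_))
    (fun u v w h h' => (hd _ _).2 (disjoint_left.2 fun p h1 h2 => ?_)) fun u v h => ?_⟩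
  · exact (o.injective.ne h.ne).lt_or_gt.imp (⟨h, ·⟩) (⟨h.symm, ·⟩)
  · rcases mX h1 with rfl | ⟨a, b, τ, e1, e2, e3, rfl, e4⟩ <;>
      rcases mX h2 with e | ⟨a', b', τ', f1, f2, f3, e, f4⟩
    · exact h (hinj e)
    · have := u1 f1 f2 f3 e; have := ne f1; grind
    · have := u1 e1 e2 e3 e; have := ne e1; grind
    · have := u2 f1 e1 f2 f3 e2 e3 e; have := ne e1; have := ne f1; grind
  · obtain ⟨e1, τ, e2, e3, rfl⟩ := mP.1 h1
    obtain ⟨f1, τ', f2, f3, e⟩ := mP.1 h2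
    have := u2 f1 e1 (by linarith) (by linarith) (by linarith) (by linarith) e
    grind
  · obtain ⟨f1, τ', f2, f3, e⟩ := mP.1 h2
    rcases mX h1 with rfl | ⟨a, b, τ, e1, e2, e3, rfl, e4⟩
    · have := u1 f1 (by linarith) (by linarith) e; grind
    · have := u2 f1 e1 (by linarith) (by linarith) e2 e3 e; grind
  · simp only [hd, not_disjoint_iff]
    exact ⟨⟨γ u v (1 / 3), .inr (mem_iUnion.2 ⟨v, .inl (mP.2 ⟨h, _, by norm_num, le_rfl, rfl⟩)⟩),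
        mP.2 ⟨h, _, le_rfl, by norm_num, rfl⟩⟩,
      γ u v (2 / 3), .inr (mem_iUnion.2 ⟨u, .inr (mP.2 ⟨h, _, le_rfl, by norm_num, rfl⟩)⟩),
        mP.2 ⟨h, _, by norm_num, le_rfl, rfl⟩⟩

theorem bipEuler {V Y : Type} [Finite V] [TopologicalSpace Y] {g : ℕ} (hY : Fine Y g)
    {G : SimpleGraph V} (hG : Embeds G Y) : BipEuler G g := by
  obtain ⟨H, B, h1, h2, h3⟩ := top hY hG
  intro W π X Z hXZ hc hfib P hP
  refine H.bound X Z hXZ hc (fun z => {w | ∃ u, π u = z ∧ w ∈ B u}) ?_ ?_ P ?_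
  · rintro z - z' - w ⟨u, rfl, hu⟩ ⟨u', rfl, hu'⟩
    by_contra h
    exact disjoint_left.1 (h1 u u' fun e => h (e ▸ rfl)) hu hu'
  · rintro z hz x ⟨u, rfl, hu⟩ y ⟨v, hv, hy⟩
    have key : ∀ v, Relation.ReflTransGen (fun a b => G.Adj a b ∧ π a = π b) u v →
        π v = π u ∧ ∀ y ∈ B v, H.Conn {w | ∃ u', π u' = π u ∧ w ∈ B u'} x y := by
      intro v h
      induction h with
      | refl => exact ⟨rfl, fun y hy => (h2 u x hu y hy).mono fun w hw => ⟨u, rfl, hw⟩⟩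
      | @tail b c _ h ih =>
        have e := h.2.symm.trans ih.1
        obtain ⟨x', hx', y', hy', ha⟩ := h3 b c h.1
        exact ⟨e, fun y hy => ((ih.2 x' hx').trans (Cx.Conn.adj ha ⟨b, ih.1, hx'⟩ ⟨c, e, hy'⟩)).trans
          ((h2 c y' hy' y hy).mono fun w hw => ⟨c, e, hw⟩)⟩
    exact (key v (hfib u v hv.symm (by convert hz))).2 y hy
  · intro q hq
    obtain ⟨a1, a2, u, v, ha, e1, e2⟩ := hP q hq
    obtain ⟨x, hx, y, hy, h⟩ := h3 u v ha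
    exact ⟨a1, a2, x, ⟨u, e1, hx⟩, y, ⟨v, e2, hy⟩, h⟩

end Pool.Agent.MP_aee211_co.H55
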