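import Mathlib

/-! Open discs in a space with a cyclic sequence of arcs on the boundary. -/

namespace Pool.Agent.MP_aee211_co.H55

open Set Filter Topology

variable {Y : Type} [TopologicalSpace Y]

/-- The open upper half plane. -/
def Ho : Set (ℝ × ℝ) := {p | 0 < p.2}

/-- The chart `φ` tends to `a t` at the boundary point `b t`. -/
structure Arc (φ : ℝ × ℝ → Y) (a : ℝ → Y) (b : ℝ → ℝ) : Prop where
  ca : ContinuousOn a (Icc 0 1)
  cb : ContinuousOn b (Icc 0 1)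
  mb : StrictMonoOn b (Icc 0 1)
  lim : ∀ t ∈ Icc (0 : ℝ) 1, Tendsto φ (𝓝[Ho] (b t, 0)) (𝓝 (a t))

/-- All arcs of a list, in increasing order. -/
def Arcs (φ : ℝ × ℝ → Y) (L : List ((ℝ → Y) × (ℝ → ℝ))) : Prop :=
  (∀ p ∈ L, Arc φ p.1 p.2) ∧ L.Pairwise fun p q => p.2 1 < q.2 0

def Face (l : List (ℝ → Y)) (U : Set Y) : Prop :=
  ∃ φ L, L.map Prod.fst = l ∧ Arcs φ L ∧ ContinuousOn φ Ho ∧ InjOn φ Ho ∧ MapsTo φ Ho U

/-- The reversed arc. -/
def rev {α : Type} (a : ℝ → α) : ℝ → α := fun t => a (1 - t)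

@[simp] theorem rev_rev {α : Type} (a : ℝ → α) : rev (rev a) = a := by funext t; simp [rev]

theorem one_sub_mem {t : ℝ} (h : t ∈ Icc (0 : ℝ) 1) : 1 - t ∈ Icc (0 : ℝ) 1 :=
  ⟨by linarith [h.2], by linarith [h.1]⟩

theorem rev_image {α : Type} (a : ℝ → α) : rev a '' Icc 0 1 = a '' Icc 0 1 :=
  Subset.antisymm (by rintro _ ⟨t, h, rfl⟩; exact ⟨1 - t, one_sub_mem h, rfl⟩)
    (by rintro _ ⟨t, h, rfl⟩; exact ⟨1 - t, one_sub_mem h, by simp [rev]⟩)

theorem rev_inj {α : Type} {a : ℝ → α} (h : InjOn a (Icc 0 1)) : InjOn (rev a) (Icc 0 1) :=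
  fun s hs t ht e => by linarith [h (one_sub_mem hs) (one_sub_mem ht) e]

theorem Arc.le1 {φ : ℝ × ℝ → Y} {a b} (h : Arc φ a b) {t : ℝ} (ht : t ∈ Icc (0 : ℝ) 1) :
    b t ≤ b 1 := h.mb.monotoneOn ht (by simp) ht.2

theorem Arc.le0 {φ : ℝ × ℝ → Y} {a b} (h : Arc φ a b) {t : ℝ} (ht : t ∈ Icc (0 : ℝ) 1) :
    b 0 ≤ b t := h.mb.monotoneOn (by simp) ht ht.1

theorem Arcs.push {φ ψ : ℝ × ℝ → Y} {L} (hL : Arcs φ L) (h : ℝ × ℝ → ℝ × ℝ) (f : ℝ → ℝ)
    (S : Set ℝ) (hS : ∀ p ∈ L, MapsTo p.2 (Icc 0 1) S) (f1 : ContinuousOn f S)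
    (f2 : StrictMonoOn f S) (h1 : ∀ x ∈ S, ContinuousAt h (f x, 0) ∧ h (f x, 0) = (x, 0) ∧
      ∀ᶠ p in 𝓝[Ho] (f x, 0), h p ∈ Ho ∧ φ (h p) = ψ p) :
    Arcs ψ (L.map fun p => (p.1, f ∘ p.2)) := by
  constructor
  · intro q hq
    obtain ⟨p, hp, rfl⟩ := List.mem_map.1 hq
    have A := hL.1 p hp
    refine ⟨A.ca, f1.comp A.cb (hS p hp), f2.comp A.mb (hS p hp), fun t ht => ?_⟩
    obtain ⟨a1, a2, a3⟩ := h1 _ (hS p hp ht)
    refine ((A.lim t ht).comp (tendsto_nhdsWithin_iff.2 ⟨?_, a3.mono fun _ h => h.1⟩)).congr'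
      (a3.mono fun _ h => h.2)
    rw [← a2]
    exact a1.tendsto.mono_left nhdsWithin_le_nhds
  · rw [List.pairwise_map]
    exact hL.2.imp_of_mem fun hp hq h => f2 (hS _ hp (by simp)) (hS _ hq (by simp)) h

theorem Arcs.append {φ : ℝ × ℝ → Y} {L L'} (h : Arcs φ L) (h' : Arcs φ L') (c : ℝ)
    (h1 : ∀ p ∈ L, p.2 1 < c) (h2 : ∀ p ∈ L', c < p.2 0) : Arcs φ (L ++ L') :=
  ⟨fun p hp => (List.mem_append.1 hp).elim (h.1 p) (h'.1 p),
    List.pairwise_append.2 ⟨h.2, h'.2, fun p hp q hq => (h1 p hp).trans (h2 q hq)⟩⟩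

theorem Arcs.sub {φ : ℝ × ℝ → Y} {L L'} (h : Arcs φ L) (s : L'.Sublist L) : Arcs φ L' :=
  ⟨fun p hp => h.1 p (s.subset hp), h.2.sublist s⟩

theorem exists_gap (l l' : List ℝ) (h : ∀ x ∈ l, ∀ y ∈ l', x < y) :
    ∃ c, (∀ x ∈ l, x < c) ∧ ∀ y ∈ l', c < y := by
  induction l with
  | nil =>
    obtain ⟨c, hc⟩ := l'.finite_toSet.bddBelow
    exact ⟨c - 1, by simp, fun y hy => by linarith [hc hy]⟩
  | cons a l ih =>
    obtain ⟨c, h1, h2⟩ := ih fun x hx => h x (List.mem_cons_of_mem _ hx)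
    have : ∀ᶠ d in 𝓝[>] (max a c), ∀ y ∈ {y | y ∈ l'}, d < y :=
      (eventually_all_finite l'.finite_toSet).2 fun y hy =>
        (eventually_lt_nhds (max_lt (h a (by simp) y hy) (h2 y hy))).filter_mono nhdsWithin_le_nhds
    obtain ⟨d, h3, h4⟩ := (this.and self_mem_nhdsWithin).exists
    have h4 := max_lt_iff.1 (show max a c < d from h4)
    refine ⟨d, fun x hx => ?_, h3⟩
    rcases List.mem_cons.1 hx with rfl | hx
    exacts [h4.1, (h1 x hx).trans h4.2]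

theorem Arcs.gap {φ : ℝ × ℝ → Y} {L L'} (h : Arcs φ (L ++ L')) :
    ∃ c, (∀ p ∈ L, p.2 1 < c) ∧ ∀ p ∈ L', c < p.2 0 := by
  obtain ⟨c, h1, h2⟩ := exists_gap (L.map fun p => p.2 1) (L'.map fun p => p.2 0) (by
    simp only [List.forall_mem_map]
    exact (List.pairwise_append.1 h.2).2.2)
  exact ⟨c, fun p hp => h1 _ (List.mem_map_of_mem hp), fun p hp => h2 _ (List.mem_map_of_mem hp)⟩

/-- The reflection. -/
def Nx (p : ℝ × ℝ) : ℝ × ℝ := (-p.1, p.2)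

theorem continuous_Nx : Continuous Nx := by unfold Nx; fun_prop

theorem Nx_inj : Function.Injective Nx := fun p q h => by
  simpa [Nx, Prod.ext_iff] using h

theorem Arcs.flip {φ : ℝ × ℝ → Y} {L} (h : Arcs φ L) :
    Arcs (φ ∘ Nx) (L.reverse.map fun p => (rev p.1, fun t => -p.2 (1 - t))) := by
  constructor
  · intro q hq
    obtain ⟨p, hp, rfl⟩ := List.mem_map.1 hq
    have A := h.1 p (List.mem_reverse.1 hp)
    have c : ContinuousOn (fun t : ℝ => 1 - t) (Icc 0 1) := by fun_prop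
    refine ⟨A.ca.comp c fun _ => one_sub_mem, (A.cb.comp c fun _ => one_sub_mem).neg,
      fun s hs t ht hst => neg_lt_neg (A.mb (one_sub_mem ht) (one_sub_mem hs) (by linarith)),
      fun t ht => (A.lim _ (one_sub_mem ht)).comp (tendsto_nhdsWithin_iff.2
        ⟨?_, eventually_mem_nhdsWithin⟩)⟩
    exact (continuous_Nx.tendsto' _ _ (by simp [Nx])).mono_left nhdsWithin_le_nhds
  · rw [List.pairwise_map, List.pairwise_reverse]
    exact h.2.imp fun h => by simpa using h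

theorem Face.mono {l : List (ℝ → Y)} {U U'} (h : Face l U) (s : U ⊆ U') : Face l U' := by
  obtain ⟨φ, L, h1, h2, h3, h4, h5⟩ := h
  exact ⟨φ, L, h1, h2, h3, h4, h5.mono_right s⟩

theorem Face.sub {l l' : List (ℝ → Y)} {U} (h : Face l U) (s : l'.Sublist l) : Face l' U := by
  obtain ⟨φ, L, rfl, h2, h3⟩ := h
  obtain ⟨L', h4, rfl⟩ := List.sublist_map_iff.1 s
  exact ⟨φ, L', rfl, h2.sub h4, h3⟩

theorem Face.flip {l : List (ℝ → Y)} {U} (h : Face l U) : Face (l.reverse.map rev) U := by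
  obtain ⟨φ, L, rfl, h2, h3, h4, h5⟩ := h
  exact ⟨φ ∘ Nx, _, by simp [Function.comp_def], h2.flip,
    h3.comp continuous_Nx.continuousOn fun _ h => h, h4.comp Nx_inj.injOn fun _ h => h,
    h5.comp fun _ h => h⟩

theorem Face.cont {l : List (ℝ → Y)} {U} (h : Face l U) {a} (ha : a ∈ l) :
    ContinuousOn a (Icc 0 1) := by
  obtain ⟨φ, L, rfl, h2, -⟩ := h
  obtain ⟨p, hp, rfl⟩ := List.mem_map.1 ha
  exact (h2.1 p hp).ca

theorem Face.rot {l l' : List (ℝ → Y)} {U} (h : Face (l ++ l') U) : Face (l' ++ l) U := by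
  obtain ⟨φ, L0, e, h2, h3, h4, h5⟩ := h
  obtain ⟨L, L', rfl, rfl, rfl⟩ := List.map_eq_append_iff.1 e
  obtain ⟨c, c1, c2⟩ := h2.gap
  let μ : ℝ × ℝ → ℝ × ℝ := fun p => (c - p.1 / (p.1 ^ 2 + p.2 ^ 2), p.2 / (p.1 ^ 2 + p.2 ^ 2))
  have pos : ∀ p ∈ Ho, 0 < p.1 ^ 2 + p.2 ^ 2 := fun p (hp : 0 < p.2) => by positivity
  have m : MapsTo μ Ho Ho := fun p hp => div_pos hp (pos p hp)
  have cμ : ∀ p : ℝ × ℝ, p.1 ^ 2 + p.2 ^ 2 ≠ 0 → ContinuousAt μ p := fun p hp => by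
    fun_prop (disch := exact hp)
  have iμ : InjOn μ Ho := fun p hp q hq e => by
    have a := pos p hp
    have b := pos q hq
    simp only [μ, Prod.ext_iff, sub_right_inj] at e
    have e3 : 1 / (p.1 ^ 2 + p.2 ^ 2) = 1 / (q.1 ^ 2 + q.2 ^ 2) := by
      have : ∀ p : ℝ × ℝ, 0 < p.1 ^ 2 + p.2 ^ 2 → 1 / (p.1 ^ 2 + p.2 ^ 2) =
          (p.1 / (p.1 ^ 2 + p.2 ^ 2)) ^ 2 + (p.2 / (p.1 ^ 2 + p.2 ^ 2)) ^ 2 := fun p hp => by
        field_simp
      rw [this p a, this q b, e.1, e.2]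
    have e4 := eq_of_one_div_eq_one_div e3
    rw [e4, div_left_inj' b.ne', div_left_inj' b.ne'] at e
    exact Prod.ext e.1 e.2
  have key : ∀ (M : List ((ℝ → Y) × (ℝ → ℝ))) (S : Set ℝ), Arcs φ M →
      (∀ p ∈ M, MapsTo p.2 (Icc 0 1) S) → (∀ x ∈ S, ∀ y ∈ S, 0 < (c - x) * (c - y)) →
      Arcs (φ ∘ μ) (M.map fun p => (p.1, (fun x => 1 / (c - x)) ∘ p.2)) := by
    intro M S a1 a2 a3
    have ne : ∀ x ∈ S, c - x ≠ 0 := fun x hx e => by simpa [e] using a3 x hx x hx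
    refine a1.push μ _ S a2 (continuousOn_const.div (by fun_prop) ne) (fun x hx y hy hxy => ?_)
      fun x hx => ⟨cμ _ (by simpa using ne x hx), ?_,
        eventually_mem_nhdsWithin.mono fun p hp => ⟨m hp, rfl⟩⟩
    · rw [← sub_pos, div_sub_div _ _ (ne y hy) (ne x hx)]
      exact div_pos (by linarith) (a3 y hy x hx)
    · have := ne x hx
      simp only [μ, Prod.ext_iff]
      constructor <;> field_simp <;> ring
  have s1 := h2.sub (List.sublist_append_left _ _)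
  have s2 := h2.sub (List.sublist_append_right _ _)
  refine ⟨φ ∘ μ, _, ?_, (key L' (Ioi c) s2 (fun p hp t ht => (c2 p hp).trans_le ((s2.1 p hp).le0 ht))
    fun x hx y hy => mul_pos_of_neg_of_neg (sub_neg.2 hx) (sub_neg.2 hy)).append
      (key L (Iio c) s1 (fun p hp t ht => ((s1.1 p hp).le1 ht).trans_lt (c1 p hp))
        fun x hx y hy => mul_pos (sub_pos.2 hx) (sub_pos.2 hy)) 0 ?_ ?_,
    h3.comp (fun p hp => (cμ p (pos p hp).ne').continuousWithinAt) m, h4.comp iμ m, h5.comp m⟩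
  · simp [Function.comp_def]
  · intro q hq
    obtain ⟨p, hp, rfl⟩ := List.mem_map.1 hq
    exact div_neg_of_pos_of_neg one_pos
      (sub_neg.2 ((c2 p hp).trans_le ((s2.1 p hp).le0 (by simp))))
  · intro q hq
    obtain ⟨p, hp, rfl⟩ := List.mem_map.1 hq
    exact div_pos one_pos (sub_pos.2 (((s1.1 p hp).le1 (by simp)).trans_lt (c1 p hp)))

/-- The open second quadrant. -/
def Qd : Set (ℝ × ℝ) := {p | p.1 < 0 ∧ 0 < p.2}

theorem frac_mem {y : ℝ} (h : 0 ≤ y) : y / (1 + y) ∈ Icc (0 : ℝ) 1 :=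
  ⟨by positivity, (div_le_one (by positivity)).2 (by linarith)⟩

theorem frac_lt {x y : ℝ} (h : 0 ≤ x) (h' : x < y) : x / (1 + x) < y / (1 + y) := by
  rw [div_lt_div_iff₀ (by positivity) (by linarith)]
  linarith

theorem Face.half {X : List (ℝ → Y)} {a U} (h : Face (X ++ [a]) U) :
    ∃ (ψ : ℝ × ℝ → Y) (L : List ((ℝ → Y) × (ℝ → ℝ))), L.map Prod.fst = X ∧ (∀ p ∈ L, p.2 1 < 0) ∧
      (∀ φ', EqOn ψ φ' Qd → Arcs φ' L) ∧ ContinuousOn ψ Qd ∧ InjOn ψ Qd ∧ MapsTo ψ Qd U ∧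
      ∀ y > 0, Tendsto ψ (𝓝[Qd] (0, y)) (𝓝 (a (y / (1 + y)))) := by
  obtain ⟨φ, L0, e, h2, h3, h4, h5⟩ := h
  obtain ⟨L, L', rfl, rfl, e'⟩ := List.map_eq_append_iff.1 e
  obtain ⟨⟨a, b⟩, rfl, rfl⟩ := List.map_eq_singleton_iff.1 e'
  have A : Arc φ a b := h2.1 (a, b) (by simp)
  have o : ∀ p ∈ L, p.2 1 < b 0 := fun p hp => (List.pairwise_append.1 h2.2).2.2 p hp (a, b) (by simp)
  have s1 := h2.sub (List.sublist_append_left _ _)
  let g : ℝ → ℝ := fun u => min u 0 + b (max u 0 / (1 + max u 0))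
  have cg : Continuous g := by
    refine Continuous.add (by fun_prop) (A.cb.comp_continuous ?_ fun u => frac_mem (le_max_right _ _))
    exact Continuous.div (by fun_prop) (by fun_prop) fun u => by positivity
  have mg : StrictMono g := fun u v huv => by
    rcases lt_or_ge u 0 with hu | hu
    · refine add_lt_add_of_lt_of_le (by rw [min_eq_left hu.le]; exact lt_min huv hu) ?_
      rw [max_eq_right hu.le, zero_div]
      exact A.le0 (frac_mem (le_max_right _ _))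
    · simp only [g, min_eq_right hu, min_eq_right (hu.trans huv.le), max_eq_left hu,
        max_eq_left (hu.trans huv.le), zero_add]
      exact A.mb (frac_mem hu) (frac_mem (hu.trans huv.le)) (frac_lt hu huv)
  let H : ℝ × ℝ → ℝ × ℝ := fun p => (g (p.1 + p.2), min (-p.1) p.2)
  have cH : Continuous H := by fun_prop
  have m : MapsTo H Qd Ho := fun p hp => lt_min (neg_pos.2 hp.1) hp.2
  have iH : InjOn H Qd := fun p _ q _ e => by
    simp only [H, Prod.ext_iff, mg.injective.eq_iff] at e ⊢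
    obtain ⟨e1, e2⟩ := e
    simp only [min_def] at e2
    split_ifs at e2 <;> constructor <;> linarith
  refine ⟨φ ∘ H, L.map fun p => (p.1, (fun x => x - b 0) ∘ p.2), by simp [Function.comp_def], ?_,
    fun φ' e => s1.push H _ (Iio (b 0)) (fun p hp t ht => ((s1.1 p hp).le1 ht).trans_lt (o p hp))
      (by fun_prop) (fun x _ y _ h => sub_lt_sub_right h _) fun x hx => ⟨cH.continuousAt, ?_, ?_⟩,
    h3.comp cH.continuousOn m, h4.comp iH m, h5.comp m, fun y hy => ?_⟩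
  · intro q hq
    obtain ⟨p, hp, rfl⟩ := List.mem_map.1 hq
    exact sub_neg.2 (o p hp)
  · have : x - b 0 ≤ 0 := sub_nonpos.2 hx.le
    simp [H, g, this, hx.out.le]
  · have : ∀ᶠ p : ℝ × ℝ in 𝓝 (x - b 0, 0), p.1 < 0 :=
      (isOpen_lt continuous_fst continuous_const).mem_nhds (sub_neg.2 hx.out)
    filter_upwards [this.filter_mono nhdsWithin_le_nhds, eventually_mem_nhdsWithin] with p a1 a2
    exact ⟨m ⟨a1, a2⟩, e ⟨a1, a2⟩⟩
  · refine (A.lim _ (frac_mem hy.le)).comp (tendsto_nhdsWithin_iff.2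
      ⟨?_, eventually_mem_nhdsWithin.mono fun p hp => m hp⟩)
    exact (cH.tendsto' _ _ (by simp [H, g, hy.le])).mono_left nhdsWithin_le_nhds

theorem Face.paste {X X' : List (ℝ → Y)} {a U U'} (h : Face (X ++ [a]) U)
    (h' : Face (X' ++ [a]) U') (d : Disjoint U U') (ia : InjOn a (Icc 0 1))
    (d1 : Disjoint (a '' Icc 0 1) U) (d2 : Disjoint (a '' Icc 0 1) U') :
    Face (X ++ X'.reverse.map rev) (U ∪ U' ∪ a '' Icc 0 1) := by
  have ca := h.cont (a := a) (by simp)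
  obtain ⟨ψ, L, rfl, a1, a2, a3, a4, a5, a6⟩ := h.half
  obtain ⟨ψ', L', rfl, b1, b2, b3, b4, b5, b6⟩ := h'.half
  let φ : ℝ × ℝ → Y := fun p =>
    if p.1 < 0 then ψ p else if 0 < p.1 then ψ' (Nx p) else a (p.2 / (1 + p.2))
  have e1 : EqOn ψ φ Qd := fun p hp => (if_pos hp.1).symm
  have e2 : EqOn ψ' (φ ∘ Nx) Qd := fun p hp => by
    simp [φ, Nx, hp.1, hp.1.le]
  have e3 : ∀ y, φ (0, y) = a (y / (1 + y)) := fun y => by simp [φ]
  have NN : (φ ∘ Nx) ∘ Nx = φ := by funext p; simp [Nx]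
  have tri : ∀ p ∈ Ho, p ∈ Qd ∨ Nx p ∈ Qd ∨ p.1 = 0 := fun p hp => by
    rcases lt_trichotomy p.1 0 with h | h | h
    exacts [.inl ⟨h, hp⟩, .inr (.inr h), .inr (.inl ⟨neg_neg_of_pos h, hp⟩)]
  have oQ : IsOpen Qd := (isOpen_lt continuous_fst continuous_const).inter
    (isOpen_lt continuous_const continuous_snd)
  have v1 : ∀ p ∈ Qd, φ p ∈ U := fun p hp => e1 hp ▸ a5 hp
  have v2 : ∀ p, Nx p ∈ Qd → φ p = ψ' (Nx p) := fun p hp => by rw [e2 hp, ← NN]; simp [Nx]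
  have v3 : ∀ p, Nx p ∈ Qd → φ p ∈ U' := fun p hp => v2 p hp ▸ b5 hp
  have v4 : ∀ p ∈ Ho, p.1 = 0 → φ p ∈ a '' Icc 0 1 := by
    rintro ⟨x, y⟩ hp rfl
    exact ⟨_, frac_mem (le_of_lt hp), (e3 y).symm⟩
  refine ⟨φ, _, ?_, (a2 φ e1).append (NN ▸ (b2 _ e2).flip) 0 a1 ?_, fun p hp => ?_,
    fun p hp q hq e => ?_, fun p hp => ?_⟩
  · simp [Function.comp_def]
  · intro q hq
    obtain ⟨p, hp, rfl⟩ := List.mem_map.1 hq
    simpa using b1 p (List.mem_reverse.1 hp)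
  · rcases tri p hp with h | h | h
    · exact ((a3.congr e1.symm).continuousAt (oQ.mem_nhds h)).continuousWithinAt
    · rw [← NN]
      exact (((b3.congr e2.symm).continuousAt (oQ.mem_nhds h)).comp
        continuous_Nx.continuousAt).continuousWithinAt
    · obtain ⟨x, y⟩ := p
      obtain rfl : x = 0 := h
      refine ContinuousWithinAt.mono (t := Qd ∪ (Nx ⁻¹' Qd ∪ (Ho ∩ {p | p.1 = 0})))
        (.union ?_ (.union ?_ ?_)) fun p hp => (tri p hp).imp_right (Or.imp_right fun h => ⟨hp, h⟩)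
      · rw [ContinuousWithinAt, e3]
        exact tendsto_nhdsWithin_congr e1 (a6 y hp)
      · rw [ContinuousWithinAt, e3]
        refine tendsto_nhdsWithin_congr (fun p hp => (v2 p hp).symm) ((b6 y hp).comp
          (tendsto_nhdsWithin_iff.2 ⟨?_, eventually_mem_nhdsWithin⟩))
        exact (continuous_Nx.tendsto' _ _ (by simp [Nx])).mono_left nhdsWithin_le_nhds
      · have : ContinuousOn (fun p : ℝ × ℝ => a (p.2 / (1 + p.2))) Ho :=
          ca.comp (ContinuousOn.div (by fun_prop) (by fun_prop) fun p (hp : 0 < p.2) => by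
            positivity) fun p hp => frac_mem (le_of_lt hp)
        refine ((this _ hp).mono inter_subset_left).congr ?_ (e3 y)
        rintro ⟨x, y⟩ ⟨-, rfl : x = 0⟩
        exact e3 y
  · rcases tri p hp with h | h | h <;> rcases tri q hq with h' | h' | h'
    · exact a4 h h' ((e1 h).trans (e.trans (e1 h').symm))
    · exact absurd (e ▸ v1 p h) (disjoint_right.1 d (v3 q h'))
    · exact absurd (e ▸ v1 p h) (disjoint_left.1 d1 (v4 q hq h'))
    · exact absurd (e ▸ v3 p h) (disjoint_left.1 d (v1 q h'))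
    · exact Nx_inj (b4 h h' ((v2 p h).symm.trans (e.trans (v2 q h'))))
    · exact absurd (e ▸ v3 p h) (disjoint_left.1 d2 (v4 q hq h'))
    · exact absurd (e ▸ v4 p hp h) (disjoint_right.1 d1 (v1 q h'))
    · exact absurd (e ▸ v4 p hp h) (disjoint_right.1 d2 (v3 q h'))
    · obtain ⟨x, y⟩ := p
      obtain ⟨x', y'⟩ := q
      obtain rfl : x = 0 := h
      obtain rfl : x' = 0 := h'
      have hy : 0 < y := hp
      have hy' : 0 < y' := hq
      have := ia (frac_mem hy.le) (frac_mem hy'.le) ((e3 y).symm.trans (e.trans (e3 y')))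
      rcases lt_trichotomy y y' with h | h | h
      exacts [absurd this (frac_lt hy.le h).ne, h ▸ rfl, absurd this (frac_lt hy'.le h).ne']
  · rcases tri p hp with h | h | h
    exacts [.inl (.inl (v1 p h)), .inl (.inr (v3 p h)), .inr (v4 p hp h)]

theorem cutL {φ : ℝ × ℝ → Y} {L} (c : ℝ) (h2 : Arcs φ L) (h3 : ContinuousOn φ Ho) (h4 : InjOn φ Ho)
    (o : ∀ p ∈ L, p.2 1 < c) :
    Face (L.map Prod.fst ++ [fun t => φ (c, 1 + t), fun t => φ (c, 3 + t)])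
      (φ '' (Ho ∩ {p | p.1 < c})) := by
  let K : ℝ × ℝ → ℝ × ℝ := fun p => (c - p.2 - max (-p.1) 0, p.2 + max p.1 0)
  have cK : Continuous K := by fun_prop
  have m : MapsTo K Ho (Ho ∩ {p | p.1 < c}) := fun p (hp : 0 < p.2) =>
    ⟨add_pos_of_pos_of_nonneg hp (le_max_right _ _),
      show c - p.2 - max (-p.1) 0 < c by linarith [le_max_right (-p.1) 0]⟩
  have m' : MapsTo K Ho Ho := fun p hp => (m hp).1
  have iK : InjOn K Ho := fun p _ q _ e => by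
    simp only [K, Prod.ext_iff, max_def] at e ⊢
    obtain ⟨e1, e2⟩ := e
    split_ifs at e1 e2 <;> constructor <;> linarith
  have oH : IsOpen Ho := isOpen_lt continuous_const continuous_snd
  have A : ∀ s : ℝ, 0 < s → Arc (φ ∘ K) (fun t => φ (c, s + t)) fun t => s + t := fun s hs => by
    have hm : ∀ t ∈ Icc (0 : ℝ) 1, (c, s + t) ∈ Ho := fun t ht => add_pos_of_pos_of_nonneg hs ht.1
    refine ⟨h3.comp (by fun_prop) hm, by fun_prop, fun x _ y _ h => by simpa using h,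
      fun t ht => (h3.continuousAt (oH.mem_nhds (hm t ht))).tendsto.comp
        ((cK.tendsto' _ _ ?_).mono_left nhdsWithin_le_nhds)⟩
    have := (hm t ht).out.le
    simp [K, show 0 ≤ s + t from this, show -t ≤ s by linarith [ht.1]]
  refine ⟨φ ∘ K, L.map (fun p => (p.1, (fun x => x - c) ∘ p.2)) ++
      [(fun t => φ (c, 1 + t), fun t => 1 + t), (fun t => φ (c, 3 + t), fun t => 3 + t)],
    by simp [Function.comp_def], Arcs.append (h2.push K _ (Iio c)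
      (fun p hp t ht => ((h2.1 p hp).le1 ht).trans_lt (o p hp)) (by fun_prop)
      (fun x _ y _ h => sub_lt_sub_right h _) fun x hx => ⟨cK.continuousAt, ?_,
        eventually_mem_nhdsWithin.mono fun p hp => ⟨m' hp, rfl⟩⟩) ⟨?_, ?_⟩ 0 ?_ ?_,
    h3.comp cK.continuousOn m', h4.comp iK m', fun p hp => mem_image_of_mem _ (m hp)⟩
  · simp [K, hx.out.le]
  · simp [A]
  · norm_num
  · intro q hq
    obtain ⟨p, hp, rfl⟩ := List.mem_map.1 hq
    exact sub_neg.2 (o p hp)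
  · simp

theorem Face.cut {X X' : List (ℝ → Y)} {U} (h : Face (X ++ X') U) :
    ∃ (d d' : ℝ → Y) (U₁ U₂ : Set Y), Face (X ++ [d, d']) U₁ ∧
      Face (X'.reverse.map rev ++ [d, d']) U₂ ∧ U₁ ⊆ U ∧ U₂ ⊆ U ∧ Disjoint U₁ U₂ ∧
      InjOn d (Icc 0 1) ∧ InjOn d' (Icc 0 1) ∧ d '' Icc 0 1 ⊆ U ∧ d' '' Icc 0 1 ⊆ U ∧
      Disjoint (d '' Icc 0 1) (d' '' Icc 0 1) ∧ Disjoint (d '' Icc 0 1) (U₁ ∪ U₂) ∧
      Disjoint (d' '' Icc 0 1) (U₁ ∪ U₂) := by
  obtain ⟨φ, L0, e, h2, h3, h4, h5⟩ := h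
  obtain ⟨L, L', rfl, rfl, rfl⟩ := List.map_eq_append_iff.1 e
  obtain ⟨c, c1, c2⟩ := h2.gap
  have f1 := cutL c (h2.sub (List.sublist_append_left _ _)) h3 h4 c1
  have f2 := cutL (-c) (h2.sub (List.sublist_append_right _ _)).flip
    (h3.comp continuous_Nx.continuousOn fun _ h => h) (h4.comp Nx_inj.injOn fun _ h => h) (by
      intro q hq
      obtain ⟨p, hp, rfl⟩ := List.mem_map.1 hq
      simpa using c2 p (List.mem_reverse.1 hp))
  have hm : ∀ s : ℝ, 0 < s → ∀ t ∈ Icc (0 : ℝ) 1, (c, s + t) ∈ Ho := fun s hs t ht =>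
    add_pos_of_pos_of_nonneg hs ht.1
  have i : ∀ s : ℝ, 0 < s → InjOn (fun t => φ (c, s + t)) (Icc 0 1) := fun s hs x hx y hy e => by
    simpa using h4 (hm s hs x hx) (hm s hs y hy) e
  have u : ∀ s : ℝ, 0 < s → (fun t => φ (c, s + t)) '' Icc 0 1 ⊆ U := by
    rintro s hs _ ⟨t, ht, rfl⟩
    exact h5 (hm s hs t ht)
  have j : ∀ s : ℝ, 0 < s → Disjoint ((fun t => φ (c, s + t)) '' Icc 0 1)
      (φ '' (Ho ∩ {p | p.1 < c}) ∪ φ '' (Ho ∩ {p | c < p.1})) := fun s hs => by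
    rw [disjoint_left]
    rintro _ ⟨t, ht, rfl⟩ (⟨p, hp, e⟩ | ⟨p, hp, e⟩) <;>
      obtain rfl := h4 hp.1 (hm s hs t ht) e <;> exact lt_irrefl c hp.2
  refine ⟨_, _, _, φ '' (Ho ∩ {p | c < p.1}), f1, ?_, ?_, ?_, ?_, i 1 one_pos, i 3 three_pos,
    u 1 one_pos, u 3 three_pos, ?_, j 1 one_pos, j 3 three_pos⟩
  · refine Face.mono (U := (φ ∘ Nx) '' (Ho ∩ {p | p.1 < -c})) (by
      simpa [Function.comp_def, Nx] using f2) ?_
    rintro _ ⟨p, hp, rfl⟩
    exact ⟨Nx p, ⟨hp.1, show c < -p.1 from lt_neg.1 hp.2.out⟩, rfl⟩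
  · rintro _ ⟨p, hp, rfl⟩
    exact h5 hp.1
  · rintro _ ⟨p, hp, rfl⟩
    exact h5 hp.1
  · rw [disjoint_left]
    rintro _ ⟨p, hp, rfl⟩ ⟨q, hq, e⟩
    obtain rfl := h4 hq.1 hp.1 e
    exact lt_asymm hp.2.out hq.2.out
  · rw [disjoint_left]
    rintro _ ⟨s, hs, rfl⟩ ⟨t, ht, e⟩
    have := h4 (hm 3 three_pos t ht) (hm 1 one_pos s hs) e
    simp only [Prod.mk.injEq, true_and] at this
    linarith [hs.2, ht.1]

theorem exists_snd {ι α β : Type} [Inhabited β] (A : ι → α) (D : List ι) (hD : D.Nodup)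
    (L : List (α × β)) (h : L.map Prod.fst = D.map A) :
    ∃ b : ι → β, L = D.map fun i => (A i, b i) := by
  classical
  induction D generalizing L with
  | nil => exact ⟨default, by simpa using h⟩
  | cons i D ih =>
    obtain ⟨p, L, rfl, h1, h2⟩ := List.map_eq_cons_iff.1 h
    obtain ⟨b, rfl⟩ := ih (List.nodup_cons.1 hD).2 L h2
    refine ⟨Function.update b i p.2, ?_⟩
    rw [List.map_cons, Function.update_self, ← h1]
    congr 1
    refine List.map_congr_left fun j hj => ?_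
    rw [Function.update_of_ne fun e : j = i => (List.nodup_cons.1 hD).1 (e ▸ hj)]

theorem Face.star {ι : Type} {D : List ι} (hD : D.Nodup) {A : ι → ℝ → Y} {U}
    (h : Face (D.map A) U) (hA : ∀ i ∈ D, A i (1 / 2) ∉ U) :
    ∃ o ∈ U, ∃ σ : ι → ℝ → Y, ∀ i ∈ D, ContinuousOn (σ i) (Icc 0 1) ∧ InjOn (σ i) (Icc 0 1) ∧
      σ i 0 = o ∧ σ i 1 = A i (1 / 2) ∧ (∀ t ∈ Ico (0 : ℝ) 1, σ i t ∈ U) ∧
      ∀ j ∈ D, i ≠ j → ∀ s ∈ Ico (0 : ℝ) 1, ∀ t ∈ Ico (0 : ℝ) 1, σ i s = σ j t → s = 0 := by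
  obtain ⟨φ, L, e, h2, h3, h4, h5⟩ := h
  obtain ⟨b, rfl⟩ := exists_snd A D hD L e
  have a : ∀ i ∈ D, Arc φ (A i) (b i) := fun i hi => h2.1 (A i, b i) (List.mem_map_of_mem hi)
  have hf : (1 / 2 : ℝ) ∈ Icc (0 : ℝ) 1 := ⟨by norm_num, by norm_num⟩
  have ne : ∀ i ∈ D, ∀ j ∈ D, i ≠ j → b i (1 / 2) ≠ b j (1 / 2) := fun i hi j hj =>
    have : Std.Symm fun i j => b i (1 / 2) ≠ b j (1 / 2) := ⟨fun _ _ => Ne.symm⟩
    List.Pairwise.forall (R := fun i j => b i (1 / 2) ≠ b j (1 / 2))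
      ((List.pairwise_map.1 h2.2).imp_of_mem fun {i j} hi hj h =>
        (((a i hi).le1 hf).trans_lt (h.trans_le ((a j hj).le0 hf))).ne) hi hj
  let ℓ : ι → ℝ → ℝ × ℝ := fun i t => (t * b i (1 / 2), 1 - t)
  have m : ∀ i t, t < 1 → ℓ i t ∈ Ho := fun i t ht => sub_pos.2 ht
  have cl : ∀ i, Continuous (ℓ i) := fun i => by fun_prop
  refine ⟨φ (0, 1), h5 (show (0 : ℝ) < 1 from one_pos), fun i t => if t < 1 then φ (ℓ i t) else A i (1 / 2),
    fun i hi => ⟨fun t ht => ?_, fun s hs t ht e => ?_, by simp [ℓ], by simp,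
      fun t ht => ?_, fun j hj hij s hs t ht e => ?_⟩⟩
  · rcases ht.2.lt_or_eq with h | rfl
    · refine ContinuousAt.continuousWithinAt (ContinuousAt.congr (f := φ ∘ ℓ i)
        ((h3.continuousAt ((isOpen_lt continuous_const continuous_snd).mem_nhds (m i t h))).comp
          (cl i).continuousAt) ?_)
      filter_upwards [Iio_mem_nhds h] with s hs
      exact (if_pos hs).symm
    · refine ContinuousWithinAt.mono (t := insert 1 (Iio 1)) (ContinuousWithinAt.insert ?_)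
        fun s hs => hs.2.lt_or_eq.symm
      simp only [ContinuousWithinAt, lt_irrefl, if_false]
      refine tendsto_nhdsWithin_congr (fun s hs => (if_pos hs).symm) (((a i hi).lim _ hf).comp
        (tendsto_nhdsWithin_iff.2 ⟨?_, eventually_mem_nhdsWithin.mono fun s hs => m i s hs⟩))
      exact ((cl i).tendsto' _ _ (by simp [ℓ])).mono_left nhdsWithin_le_nhds
  · beta_reduce at e
    split_ifs at e with h h' h'
    · linarith [(Prod.ext_iff.1 (h4 (m i s h) (m i t h') e)).2]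
    · exact absurd (e ▸ h5 (m i s h)) (hA i hi)
    · exact absurd (e ▸ h5 (m i t h')) (hA i hi)
    · linarith [hs.2, ht.2]
  · simp only [if_pos ht.2]
    exact h5 (m i t ht.2)
  · simp only [if_pos hs.2, if_pos ht.2] at e
    obtain ⟨e1, e2⟩ := Prod.ext_iff.1 (h4 (m i s hs.2) (m j t ht.2) e)
    obtain rfl : s = t := by linarith
    by_contra h0
    exact ne i hi j hj hij (mul_left_cancel₀ h0 e1)

end Pool.Agent.MP_aee211_co.H55
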