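import Pool.Agent.MP_aee211_co.H55.Grid

/-! The standard words, and the upper bound for the standard surfaces. -/

namespace Pool.Agent.MP_aee211_co.H55

open List

theorem wordN_eq (g : ℕ) : wordN g = (range (2 * g)).map fun i => (i / 2, true) := by
  unfold wordN
  induction g with
  | zero => rfl
  | succ g ih =>
    rw [range_succ, flatMap_append, ih, show 2 * (g + 1) = 2 * g + 1 + 1 by ring, range_succ,
      range_succ]
    simp
    omega

theorem wordS_eq (h : ℕ) (h0 : h ≠ 0) :
    wordS h = (range (4 * h)).map fun i => (2 * (i / 4) + i % 2, decide (i % 4 < 2)) := by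
  rw [wordS, if_neg h0]
  clear h0
  induction h with
  | zero => rfl
  | succ g ih =>
    rw [range_succ, flatMap_append, ih, show 4 * (g + 1) = 4 * g + 1 + 1 + 1 + 1 by ring,
      range_succ, range_succ, range_succ, range_succ]
    simp
    omega

theorem wordS_zero : wordS 0 = (range 2).map fun i => (0, decide (i = 0)) := rfl

/-- Pairing of a word given by a formula. -/
def pairedMap (n : ℕ) (f : ℕ → ℕ × Bool) (π : ℕ → ℕ) (h1 : ∀ i < n, π i < n) (h2 : ∀ i < n, π i ≠ i)
    (h3 : ∀ i < n, ∀ j < n, i ≠ j → ((f i).1 = (f j).1 ↔ j = π i)) :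
    Paired ((range n).map f) where
  π i := ⟨π i, by simpa using h1 i (by simpa using i.2)⟩
  ne i h := h2 i (by simpa using i.2) (congrArg Fin.val h)
  iff i j h := by
    have := h3 i (by simpa using i.2) j (by simpa using j.2) (Fin.val_ne_of_ne h)
    simpa [Fin.ext_iff] using this

theorem fine_map (n γ : ℕ) (hn : 0 < n) (f : ℕ → ℕ × Bool) (π : ℕ → ℕ) (h1 : ∀ i < n, π i < n)
    (h2 : ∀ i < n, π i ≠ i) (h3 : ∀ i < n, ∀ j < n, i ≠ j → ((f i).1 = (f j).1 ↔ j = π i))
    (c : ℕ → ℕ) (h4 : ∀ i < n, (∃ k < γ, c k = i) ∨ (∃ k < γ, c k = π i) ∨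
      ((f i).2 ≠ (f (π i)).2 ∧ i ≡ π i + 1 [MOD n])) : Fine (Surf ((range n).map f)) γ := by
  classical
  refine (pairedMap n f π h1 h2 h3).fine (by simpa using hn)
    ⟨Finset.univ.filter fun i => ∃ k < γ, c k = i, ?_, fun i => ?_⟩
  · refine le_trans (Finset.card_le_card_of_injOn Fin.val (t := (Finset.range γ).image c) ?_
      Fin.val_injective.injOn) (Finset.card_image_le.trans (by simp))
    intro i hi
    simpa using hi
  · simpa [pairedMap] using h4 i (by simpa using i.2)

theorem fine_N (g : ℕ) (hg : 1 ≤ g) : Fine (Surf (wordN g)) g := by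
  rw [wordN_eq]
  refine fine_map _ _ (by omega) _ (fun i => if i % 2 = 0 then i + 1 else i - 1)
    (fun i hi => by split_ifs <;> omega) (fun i hi => by split_ifs <;> omega)
    (fun i hi j hj h => by split_ifs <;> omega) (fun k => 2 * k) fun i hi => ?_
  split_ifs
  exacts [.inl ⟨i / 2, by omega, by omega⟩, .inr (.inl ⟨i / 2, by omega, by omega⟩)]

theorem fine_S (h : ℕ) : Fine (Surf (wordS h)) (2 * h) := by
  by_cases h0 : h = 0
  · subst h0
    rw [wordS_zero]
    refine fine_map _ _ (by omega) _ (fun i => 1 - i) (fun i hi => by omega) (fun i hi => by omega)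
      (fun i hi j hj h => by simp; omega) id fun i hi => .inr (.inr ?_)
    interval_cases i <;> decide
  · rw [wordS_eq h h0]
    refine fine_map _ _ (by omega) _ (fun i => if i % 4 < 2 then i + 2 else i - 2)
      (fun i hi => by split_ifs <;> omega) (fun i hi => by split_ifs <;> omega)
      (fun i hi j hj h => by split_ifs <;> omega) (fun k => 4 * (k / 2) + k % 2) fun i hi => ?_
    split_ifs
    exacts [.inl ⟨2 * (i / 4) + i % 2, by omega, by omega⟩,
      .inr (.inl ⟨2 * (i / 4) + i % 2, by omega, by omega⟩)]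

end Pool.Agent.MP_aee211_co.H55
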