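import Pool.Agent.MP_aee211_co.H55.Word
import Pool.Agent.MP_aee211_co.H55.Std

/-! The standard surfaces contain their defining polygons. -/

namespace Pool.Agent.MP_aee211_co.H55

open Set Real

theorem side_mem_ball (m i : ℕ) (t : ℝ) : side m i t ∈ Metric.closedBall (0 : ℂ) 1 := by
  rw [side_eq, mem_closedBall_zero_iff, norm_ex]

namespace Paired

variable {w : List (ℕ × Bool)} (P : Paired w)
include P

theorem eq_of_lt {z z' : Dc} (h : Quot.mk (Glue w) z = Quot.mk _ z') (hz : ‖(z : ℂ)‖ < 1) :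
    z = z' := by
  rcases P.tri (Quot.eq.1 h) with h | h | ⟨⟨i, t, -, h⟩, -⟩
  · exact h
  · obtain ⟨i, t, -, h, -⟩ := P.glue_iff.1 h
    simp [h, side_eq, norm_ex] at hz
  · simp [h, side_eq, norm_ex] at hz

theorem side_side {i j : Fin w.length} {s t : ℝ} (hs : s ∈ Ioo (0 : ℝ) 1) (ht : t ∈ Ioo (0 : ℝ) 1)
    (h : Quot.mk (Glue w) ⟨_, side_mem_ball w.length i s⟩ =
      Quot.mk _ ⟨_, side_mem_ball w.length j t⟩) : (i = j ∧ s = t) ∨ j = P.π i := by
  rcases P.tri (Quot.eq.1 h) with h | h | ⟨⟨k, u, h1, h⟩, -⟩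
  · exact .inl ((side_inj i.2 j.2 hs (Ioo_subset_Icc_self ht) (congrArg Subtype.val h)).imp_left
      Fin.ext)
  · obtain ⟨k, u, h1, h2, h3⟩ := P.glue_iff.1 h
    obtain rfl : i = k := Fin.ext (side_inj i.2 k.2 hs h1 h2).1
    exact .inr (Fin.ext (side_inj j.2 (P.π i).2 ht (P.τ_Icc i h1) h3).1)
  · have := (side_inj i.2 k.2 hs (by rcases h1 with rfl | rfl <;> simp) h).2
    rcases h1 with rfl | rfl
    exacts [absurd this hs.1.ne', absurd this hs.2.ne]

theorem has (hm : 0 < w.length) : Has (Surf w) w := by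
  have m0 : (0 : ℝ) < w.length := by exact_mod_cast hm
  let θ : ℝ → ℝ := fun x => w.length * (1 / 2 + arctan x / π)
  have nr : ∀ p : ℝ × ℝ, ‖((1 / (1 + max p.2 0) : ℝ) : ℂ) * ex w.length (θ p.1)‖ =
      1 / (1 + max p.2 0) := fun p => by
    rw [norm_mul, norm_ex, mul_one, Complex.norm_real, Real.norm_eq_abs, abs_of_pos (by positivity)]
  let ψ : ℝ × ℝ → Dc := fun p => ⟨((1 / (1 + max p.2 0) : ℝ) : ℂ) * ex w.length (θ p.1), by
    rw [mem_closedBall_zero_iff, nr, div_le_one (by positivity)]
    exact le_add_of_nonneg_right (le_max_right _ _)⟩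
  have cψ : Continuous ψ := by
    refine Continuous.subtype_mk (Continuous.mul (Complex.continuous_ofReal.comp
      (Continuous.div (by fun_prop) (by fun_prop) fun p => by positivity))
      ((continuous_ex _).comp ?_)) _
    have := continuous_arctan
    fun_prop
  have lt1 : ∀ p ∈ Ho, ‖(ψ p : ℂ)‖ < 1 := fun p (hp : 0 < p.2) => by
    rw [nr, div_lt_one (by positivity)]
    exact lt_add_of_pos_right _ (lt_max_of_lt_left hp)
  have iψ : InjOn ψ Ho := fun p (hp : 0 < p.2) q (hq : 0 < q.2) e => by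
    have e := congrArg Subtype.val e
    have e1 := (nr p).symm.trans ((congrArg norm e).trans (nr q))
    simp only [ψ, max_eq_left hp.le, max_eq_left hq.le] at e e1
    have e2 : p.2 = q.2 := by linarith [eq_of_one_div_eq_one_div e1]
    rw [e2] at e
    obtain ⟨n, e3⟩ := (ex_iff m0.ne').1 (mul_left_cancel₀ (by
      exact_mod_cast (by positivity : 1 / (1 + q.2) ≠ 0)) e)
    have e4 : arctan p.1 = arctan q.1 + n * π := by
      simp only [θ] at e3
      field_simp at e3
      linarith
    have b1 : (n : ℝ) < 1 := by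
      nlinarith [arctan_lt_pi_div_two p.1, neg_pi_div_two_lt_arctan q.1, pi_pos]
    have b2 : (-1 : ℝ) < n := by
      nlinarith [arctan_lt_pi_div_two q.1, neg_pi_div_two_lt_arctan p.1, pi_pos]
    obtain rfl : n = 0 := by
      have : n < 1 := by exact_mod_cast b1
      have : -1 < n := by exact_mod_cast b2
      omega
    exact Prod.ext (arctan_injective (by simpa using e4)) e2
  let κ : ℝ → ℝ := fun s => π * (s / w.length - 1 / 2)
  have mκ : StrictMono κ := fun s t h =>
    mul_lt_mul_of_pos_left (sub_lt_sub_right (div_lt_div_of_pos_right h m0) _) pi_pos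
  have rκ : ∀ i : Fin w.length, ∀ t ∈ Icc (0 : ℝ) 1,
      κ (i + (1 / 4 + t / 2)) ∈ Ioo (-(π / 2)) (π / 2) := fun i t ht => by
    have a1 : (i : ℝ) + 1 ≤ w.length := by exact_mod_cast i.2
    have a2 : (0 : ℝ) ≤ i := Nat.cast_nonneg _
    constructor
    · convert mκ (show 0 < i + (1 / 4 + t / 2) by linarith [ht.1]) using 1
      simp only [κ]
      ring
    · convert mκ (show i + (1 / 4 + t / 2) < w.length by linarith [ht.2]) using 1
      simp only [κ, div_self m0.ne']
      ring
  let b : Fin w.length → ℝ → ℝ := fun i t => tan (κ (i + (1 / 4 + t / 2)))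
  let a : Fin w.length → ℝ → Surf w := fun i t =>
    Quot.mk _ ⟨_, side_mem_ball w.length i (1 / 4 + t / 2)⟩
  have ab : ∀ i, ∀ t ∈ Icc (0 : ℝ) 1, Quot.mk _ (ψ (b i t, 0)) = a i t := fun i t ht => by
    refine congrArg _ (Subtype.ext ?_)
    simp only [ψ, θ, b, arctan_tan (rκ i t ht).1 (rκ i t ht).2, side_eq, max_self, add_zero,
      div_one, Complex.ofReal_one, one_mul, κ]
    congr 1
    field_simp
    ring
  have τm : ∀ t ∈ Icc (0 : ℝ) 1, 1 / 4 + t / 2 ∈ Ioo (0 : ℝ) 1 := fun t ht =>
    ⟨by linarith [ht.1], by linarith [ht.2]⟩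
  have : ∀ x : ℕ, ∃ d : ℝ → Surf w, ∀ i : Fin w.length, w[i].1 = x → ∀ t ∈ Icc (0 : ℝ) 1,
      (if w[i].2 then d else rev d) t = a i t := fun x => by
    by_cases h : ∃ i : Fin w.length, w[i].1 = x
    · obtain ⟨i, rfl⟩ := h
      refine ⟨if w[i].2 then a i else rev (a i), fun j hj t ht => ?_⟩
      by_cases e : j = i
      · subst e
        cases w[j].2 <;> simp
      · have k : a j t = a i (P.τ j t) := Quot.sound (P.glue_iff.2 ⟨j, _,
          Ioo_subset_Icc_self (τm t ht), rfl, by
            rw [← (P.iff j i e).1 hj]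
            unfold τ
            split_ifs
            · rfl
            · exact congrArg (side _ _) (by ring)⟩)
        rw [k, τ]
        obtain rfl := (P.iff j i e).1 hj
        cases w[j].2 <;> cases w[P.π j].2 <;> simp [rev]
    · exact ⟨fun _ => Quot.mk _ (ψ 0), fun i hi => absurd ⟨i, hi⟩ h⟩
  choose e he using this
  have he : ∀ i : Fin w.length, EqOn (ev e w[i]) (a i) (Icc 0 1) := fun i => he _ i rfl
  have nm : ∀ x ∈ {x | x ∈ w.map Prod.fst}, ∃ i : Fin w.length, w[i].1 = x := fun x hx => by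
    obtain ⟨c, hc, rfl⟩ := List.mem_map.1 hx
    obtain ⟨i, hi, rfl⟩ := List.getElem_of_mem hc
    exact ⟨⟨i, hi⟩, rfl⟩
  have im : ∀ i : Fin w.length, e w[i].1 '' Icc 0 1 = a i '' Icc 0 1 := fun i => by
    rw [← ev_image, (he i).image_eq]
  have cb : ∀ i, ContinuousOn (b i) (Icc 0 1) := fun i =>
    continuousOn_tan_Ioo.comp (by fun_prop) (rκ i)
  refine ⟨e, Quot.mk _ '' {z | ‖(z : ℂ)‖ < 1}, ⟨Quot.mk _ ∘ ψ, List.ofFn fun i => (ev e w[i], b i),
    ?_, ⟨?_, List.pairwise_ofFn.2 fun i j hij => ?_⟩, (continuous_quot_mk.comp cψ).continuousOn,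
    fun p hp q hq h => iψ hp hq (P.eq_of_lt h (lt1 p hp)), fun p hp => ⟨_, lt1 p hp, rfl⟩⟩,
    fun x hx => ?_, fun x hx => ?_, fun x hx y hy hne => ?_⟩
  · rw [List.map_ofFn]
    exact List.ext_getElem (by simp) fun i _ _ => by simp
  · intro p hp
    obtain ⟨i, rfl⟩ := List.mem_ofFn.1 hp
    refine ⟨ContinuousOn.congr (f := fun t => Quot.mk _ (ψ (b i t, 0)))
      ((continuous_quot_mk.comp cψ).comp_continuousOn ((cb i).prodMk continuousOn_const))
      fun t ht => (he i ht).trans (ab i t ht).symm, cb i, fun s hs t ht h =>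
        strictMonoOn_tan (rκ i s hs) (rκ i t ht) (mκ (by linarith)), fun t ht => ?_⟩
    exact ((continuous_quot_mk.comp cψ).tendsto' _ _
      ((ab i t ht).trans (he i ht).symm)).mono_left nhdsWithin_le_nhds
  · have : (i : ℝ) + 1 ≤ j := by exact_mod_cast hij
    exact strictMonoOn_tan (rκ i 1 (by simp)) (rκ j 0 (by simp)) (mκ (by linarith))
  · obtain ⟨i, rfl⟩ := nm x hx
    have : InjOn (ev e w[i]) (Icc 0 1) := fun s hs t ht h => by
      rcases P.side_side (τm s hs) (τm t ht) ((he i hs).symm.trans (h.trans (he i ht))) with h | h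
      · linarith [h.2]
      · exact absurd h.symm (P.ne i)
    unfold ev at this
    split_ifs at this
    exacts [this, by simpa using rev_inj this]
  · obtain ⟨i, rfl⟩ := nm x hx
    rw [im, disjoint_left]
    rintro _ ⟨t, -, rfl⟩ ⟨z, hz, h⟩
    obtain rfl := P.eq_of_lt h hz
    simp [side_eq, norm_ex] at hz
  · obtain ⟨i, rfl⟩ := nm x hx
    obtain ⟨j, rfl⟩ := nm y hy
    rw [im, im, disjoint_left]
    rintro _ ⟨s, hs, rfl⟩ ⟨t, ht, h⟩
    rcases P.side_side (τm s hs) (τm t ht) h.symm with h | rfl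
    exacts [hne (h.1 ▸ rfl), hne (P.eq i)]

end Paired

theorem has_N (g : ℕ) (hg : 1 ≤ g) : Has (Surf (wordN g)) (wordN g) := by
  rw [wordN_eq]
  exact (pairedMap _ _ (fun i => if i % 2 = 0 then i + 1 else i - 1)
    (fun i hi => by split_ifs <;> omega) (fun i hi => by split_ifs <;> omega)
    (fun i hi j hj h => by split_ifs <;> omega)).has (by simp; omega)

theorem has_S (h : ℕ) : Has (Surf (wordS h)) (wordS h) := by
  by_cases h0 : h = 0
  · subst h0
    rw [wordS_zero]
    exact (pairedMap _ _ (fun i => 1 - i) (fun i hi => by omega) (fun i hi => by omega)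
      (fun i hi j hj h => by simp; omega)).has (by simp)
  · rw [wordS_eq h h0]
    exact (pairedMap _ _ (fun i => if i % 4 < 2 then i + 2 else i - 2)
      (fun i hi => by split_ifs <;> omega) (fun i hi => by split_ifs <;> omega)
      (fun i hi j hj h => by split_ifs <;> omega)).has (by simp; omega)

open List
open scoped Classical

theorem inj_of_two {L L' : Type} (l : List L) (f : L → L') (h : ∀ x ∈ l, 2 ≤ count x l)
    (t : ∀ y, count y (l.map f) = 0 ∨ count y (l.map f) = 2) :
    ∀ x ∈ l, ∀ y ∈ l, f x = f y → x = y := fun x hx y hy e => by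
  by_contra hne
  have : count x l + count y l ≤ count (f x) (l.map f) := by
    clear h t hx hy
    induction l with
    | nil => simp
    | cons a l ih =>
      simp only [map_cons, count_cons, beq_iff_eq]
      split_ifs <;> grind
  have := h x hx
  have := h y hy
  have := t (f x)
  omega

theorem Has.rename' {Y L L' : Type} [TopologicalSpace Y] {w : List (L × Bool)}
    {w' : List (L' × Bool)} (h : Has Y w) (f : L → L' × Bool)
    (e : w' = w.map fun a => if a.2 then f a.1 else iv (f a.1)) (t : Two w')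
    (ev : ∀ x, Even (count x (w.map Prod.fst))) : Has Y w' := by
  subst e
  refine h.rename f (inj_of_two _ (fun x => (f x).1) (fun x hx => ?_) fun y => ?_)
  · obtain ⟨k, hk⟩ := ev x
    have := count_pos_iff.2 hx
    omega
  · convert t y using 3 <;> simp only [map_map] <;>
      exact map_congr_left fun a _ => by simp only [Function.comp]; split_ifs <;> rfl

theorem map_getD_range {α : Type} (l : List α) (c : α) :
    (range l.length).map (fun i => l.getD i c) = l :=
  ext_getElem (by simp) fun i h1 h2 => by simp [h2]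

theorem has_cross {L : Type} {g : ℕ} (hg : 1 ≤ g) (xs : List (L × Bool)) (c : L × Bool)
    (h : xs.length ≤ g) (t : Two (xs.flatMap fun a => [a, a])) :
    Has (Surf (wordN g)) (xs.flatMap fun a => [a, a]) := by
  refine ((has_N g hg).sub (w' := wordN xs.length)
    ((range_sublist.2 h).flatMap _)).rename' (fun i => xs.getD i c) ?_ t fun x => ?_
  · conv_lhs => rw [← map_getD_range xs c]
    simp [wordN, map_flatMap, flatMap_map]
  · simpa [wordN, flatMap_map, blk] using even_blk ((range xs.length).map fun i => .inl (i, true)) x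

theorem has_hand {L : Type} {h : ℕ} (ys : List ((L × Bool) × (L × Bool))) (c : L × Bool)
    (k : ys.length ≤ h) (t : Two (ys.flatMap fun y => [y.1, y.2, iv y.1, iv y.2])) :
    Has (Surf (wordS h)) (ys.flatMap fun y => [y.1, y.2, iv y.1, iv y.2]) := by
  refine ((has_S h).sub (w' := (range ys.length).flatMap fun i =>
      [(2 * i, true), (2 * i + 1, true), (2 * i, false), (2 * i + 1, false)]) ?_).rename'
    (fun i => if i % 2 = 0 then (ys.getD (i / 2) (c, c)).1 else (ys.getD (i / 2) (c, c)).2) ?_ t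
    fun x => ?_
  · unfold wordS
    split_ifs with h0
    · simp [show ys.length = 0 by omega]
    · exact (range_sublist.2 k).flatMap _
  · conv_lhs => rw [← map_getD_range ys (c, c)]
    have : ∀ i, (2 * i + 1) / 2 = i := fun i => by omega
    simp [map_flatMap, flatMap_map, this]
  · simpa [flatMap_map, blk, iv] using
      even_blk ((range ys.length).map fun i => .inr ((2 * i, true), (2 * i + 1, true))) x

theorem hasS_of_lab {L Λ : Type} {h : ℕ} {w : List (L × Bool)} (c : L) (k : Lab Λ (2 * h) w)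
    (n : w.Nodup) : Has (Surf (wordS h)) w := by
  obtain ⟨ys, h1, h2, h3⟩ := classS (Y := Surf (wordS h)) k n
  exact h3 (has_hand ys (c, true) (by omega) h2)

theorem hasN_of_lab {L Λ : Type} {g : ℕ} (hg : 1 ≤ g) {w : List (L × Bool)} (c : L)
    (k : Lab Λ g w) (n : ¬ w.Nodup) : Has (Surf (wordN g)) w := by
  obtain ⟨xs, h1, h2, h3⟩ := classN (Y := Surf (wordN g)) k n
  exact h3 (has_cross hg xs (c, true) h1 h2)

end Pool.Agent.MP_aee211_co.H55
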