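import Pool.Agent.MP_aee211_co.H55.Tree
import Pool.Agent.MP_aee211_co.H55.HasSurf
import Pool.Agent.MP_aee211_co.H75.Final

/-! Assembly of the two bounds for the topological surfaces. -/

namespace Pool.Agent.MP_aee211_co.H55

open H75

variable {V : Type} [Finite V] {G : SimpleGraph V}

theorem exists_dart (hk : KConn G 1) : Nonempty G.Dart := by
  classical
  have := Fintype.ofFinite V
  obtain ⟨v⟩ := (hk.connected le_rfl).nonempty
  obtain ⟨w, hw⟩ := Finset.card_pos.1 (hk.degree v)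
  exact ⟨⟨(v, w), by simpa using hw⟩⟩

theorem embeds_S (hk : KConn G 1) {h : ℕ} (e : EmbedsS G h) : Embeds G (Surf (wordS h)) := by
  have := Fintype.ofFinite V
  obtain ⟨M, h1, h2⟩ := e
  obtain ⟨d⟩ := exists_dart hk
  obtain ⟨w, a1, a2, -, a4⟩ := exists_word (Surf (wordS h)) M (hk.connected le_rfl) d
  exact a4 (hasS_of_lab d.edge (a1 _ (by push_cast; exact h2)) (a2.2 h1))

theorem embeds_N (hk : KConn G 1) {g : ℕ} (hg : 1 ≤ g) (e : EmbedsN G g) :
    Embeds G (Surf (wordN g)) := by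
  have := Fintype.ofFinite V
  obtain ⟨M, e⟩ := e
  obtain ⟨d⟩ := exists_dart hk
  obtain ⟨w, a1, a2, a3, a4⟩ := exists_word (Surf (wordN g)) M (hk.connected le_rfl) d
  rcases e with ⟨h1, h2⟩ | ⟨-, h2⟩
  · exact a4 (hasN_of_lab hg d.edge (a1 _ h2) (mt a2.1 h1))
  · have := (a1 (g - 1) (by omega)).cross (a := (s(d.fst, d.fst), true))
      fun h => G.irrefl (a3 _ h)
    rw [Nat.sub_add_cancel hg] at this
    exact a4 ((hasN_of_lab hg d.edge this (by simp)).sub (by simp))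

theorem isLeast_of' (γ : ℕ) (Y : Type) [TopologicalSpace Y] (hY : Fine Y γ)
    (hH : Embeds herschel Y)
    (hK : ∀ k : ℕ, 4 ≤ k → ((k : ℤ) - 1) * (k - 2) ≤ 2 * γ →
      ∃ (V : Type) (_ : Finite V) (G : SimpleGraph V), KConn G k ∧ Embeds G Y ∧ ¬ HasTwoFactor G) :
    IsLeast {k : ℕ | ∀ (V : Type) [Finite V] (G : SimpleGraph V),
      KConn G k → Embeds G Y → HasTwoFactor G} (max 4 ((5 + Nat.sqrt (1 + 8 * γ)) / 2)) := by
  constructor
  · intro V _ G hk hG
    by_contra hno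
    have h1 := upper' (le_max_left _ _) hk γ (bipEuler hY hG) hno
    rw [← sqrt_iff γ _ (le_trans (by norm_num) (le_max_left _ _))] at h1
    exact absurd (le_max_right _ _) (not_le.2 h1)
  · intro k hk
    by_contra hlt
    rw [not_le] at hlt
    by_cases h4 : k < 4
    · exact herschel_no (hk _ herschel (herschel_kconn.mono (by omega)) hH)
    · have h5 : k < (5 + Nat.sqrt (1 + 8 * γ)) / 2 := by omega
      obtain ⟨V, _, G, h1, h2, h3⟩ := hK k (by omega) ((sqrt_iff γ k (by omega)).1 h5)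
      exact h3 (hk V G h1 h2)

theorem final_S (h : ℕ) : IsLeast {k : ℕ | ∀ (V : Type) [Finite V] (G : SimpleGraph V),
      KConn G k → Embeds G (Surf (wordS h)) → HasTwoFactor G}
      (max 4 ((5 + Nat.sqrt (1 + 16 * h)) / 2)) := by
  rw [show 16 * h = 8 * (2 * h) by ring]
  obtain ⟨M, h1, h2⟩ := herschel_scheme
  refine isLeast_of' (2 * h) _ (fine_S h)
    (embeds_S (herschel_kconn.mono (by omega)) ⟨M, h1, by omega⟩) fun k hk hh => ?_
  obtain ⟨V, _, G, a1, a2, a3⟩ := exists_S h k hk hh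
  exact ⟨V, inferInstance, G, a1, embeds_S (a1.mono (by omega)) a2, a3⟩

theorem final_N (g : ℕ) (hg : 1 ≤ g) :
    IsLeast {k : ℕ | ∀ (V : Type) [Finite V] (G : SimpleGraph V),
      KConn G k → Embeds G (Surf (wordN g)) → HasTwoFactor G}
      (max 4 ((5 + Nat.sqrt (1 + 8 * g)) / 2)) := by
  obtain ⟨M, h1, h2⟩ := herschel_scheme
  refine isLeast_of' g _ (fine_N g hg)
    (embeds_N (herschel_kconn.mono (by omega)) hg ⟨M, .inr ⟨h1, by omega⟩⟩) fun k hk hh => ?_
  obtain ⟨V, _, G, a1, a2, a3⟩ := exists_N g k hk hh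
  exact ⟨V, inferInstance, G, a1, embeds_N (a1.mono (by omega)) hg a2, a3⟩

end Pool.Agent.MP_aee211_co.H55
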