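import Pool.Agent.MP_aee211_co.H55.Quo
import Pool.Agent.MP_aee211_co.H55.Comb
import Pool.Agent.MP_aee211_co.H55.Draw

/-! Fine cell decompositions of a polygon with identified sides. -/

namespace Pool.Agent.MP_aee211_co.H55

open Set H75

section
variable {m N : ℕ} [NeZero (m * N)]

/-- The side containing an arc. -/
def sd (b : ZMod (m * N)) : Fin m := ⟨b.val / N, Nat.div_lt_of_lt_mul (mul_comm m N ▸ b.val_lt)⟩

theorem val_arc (i : Fin m) {k : ℕ} (hk : k < N) :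
    ((i * N + k : ℕ) : ZMod (m * N)).val = i * N + k :=
  ZMod.val_cast_of_lt (by have := Nat.mul_le_mul_right N i.2; nlinarith)

theorem sd_arc (i : Fin m) {k : ℕ} (hk : k < N) : sd ((i * N + k : ℕ) : ZMod (m * N)) = i := by
  ext
  simp only [sd, val_arc i hk]
  rw [mul_comm, Nat.mul_add_div (by omega), Nat.div_eq_of_lt hk, add_zero]

theorem ps_arc (i : Fin m) {k : ℕ} (hk : k < N) :
    ((i * N + k : ℕ) : ZMod (m * N)).val % N = k := by
  rw [val_arc i hk, mul_comm, Nat.mul_add_mod, Nat.mod_eq_of_lt hk]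

theorem arc_cases (b : ZMod (m * N)) : ∃ (i : Fin m) (k : ℕ), k < N ∧ b = (i * N + k : ℕ) :=
  ⟨sd b, b.val % N, Nat.mod_lt _ (Nat.pos_of_ne_zero fun h => NeZero.ne (m * N) (by simp [h])), by
    simp only [sd]
    rw [mul_comm (b.val / N), Nat.div_add_mod, ZMod.natCast_zmod_val]⟩

end

namespace Paired

variable {w : List (ℕ × Bool)} (P : Paired w) {γ : ℕ} (N : ℕ) [NeZero (w.length * N)]

/-- A point on the partner side. -/
def pt (f g : ℕ → ℕ) (b : ZMod (w.length * N)) : ZMod (w.length * N) :=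
  (P.π (sd b) * N + (if w[sd b].2 = w[P.π (sd b)].2 then f (b.val % N) else g (b.val % N)) : ℕ)

theorem pt_arc (f g : ℕ → ℕ) (i : Fin w.length) {k : ℕ} (hk : k < N) :
    P.pt N f g (i * N + k : ℕ) =
      (P.π i * N + (if w[i].2 = w[P.π i].2 then f k else g k) : ℕ) := by
  simp only [pt, sd_arc i hk, ps_arc i hk]

/-- A set of sides whose initial corners control all identifications. -/
def Ctl (γ : ℕ) : Prop := ∃ T : Finset (Fin w.length), T.card ≤ γ ∧
  ∀ i, i ∈ T ∨ P.π i ∈ T ∨ (w[i].2 ≠ w[P.π i].2 ∧ (i : ℕ) ≡ P.π i + 1 [MOD w.length])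

/-- The pairing of the arcs. -/
noncomputable def pat (h : P.Ctl γ) : Pat (w.length * N) γ where
  p := P.pt N id fun k => N - 1 - k
  q := P.pt N id fun k => N - k
  q' := P.pt N (· + 1) fun k => N - 1 - k
  T := h.choose.image fun i : Fin w.length => ((i : ℕ) * N + 0 : ℕ)
  pp := fun b => by
    obtain ⟨i, k, hk, rfl⟩ := arc_cases b
    rw [pt_arc _ _ _ _ _ hk, pt_arc _ _ _ _ _ (by split_ifs; exacts [hk, by omega])]
    simp only [P.ππ]
    by_cases e : w[i].2 = w[P.π i].2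
    · rw [if_pos e, if_pos e.symm]
      rfl
    · rw [if_neg e, if_neg (Ne.symm e), show N - 1 - (N - 1 - k) = k by omega]
  pne := fun b => by
    obtain ⟨i, k, hk, rfl⟩ := arc_cases b
    rw [pt_arc _ _ _ _ _ hk]
    intro e
    have := congrArg sd e
    rw [sd_arc _ (by split_ifs; exacts [hk, by omega]), sd_arc _ hk] at this
    exact P.ne i this
  hq := fun b => by
    obtain ⟨i, k, hk, rfl⟩ := arc_cases b
    simp only [pt_arc _ _ _ _ _ hk]
    split_ifs
    · exact .inl ⟨rfl, by simp [add_assoc]⟩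
    · exact .inr ⟨by rw [show N - k = N - 1 - k + 1 by omega]; simp [add_assoc], rfl⟩
  card := Finset.card_image_le.trans h.choose_spec.1
  hT := fun d h1 h2 => by
    have hN : 0 < N := Nat.pos_of_ne_zero fun h => NeZero.ne (w.length * N) (by simp [h])
    let G : Fin w.length → ℕ → Prop := fun i k => d (i * N + k : ℕ) =
      d (P.π i * N + (if w[i].2 = w[P.π i].2 then k else N - k) : ℕ)
    have a1 : ∀ i k, k ≤ N → (G i 0 ↔ G i k) := fun i k hk => by
      induction k with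
      | zero => rfl
      | succ k ih =>
        refine (ih (by omega)).trans ?_
        have := h1 (i * N + k : ℕ)
        simp only [pt_arc _ _ _ _ _ (show k < N from hk)] at this
        rw [← Nat.cast_succ, show N - 1 - k = N - (k + 1) by omega] at this
        exact this
    have a2 : ∀ i ∈ h.choose, G i 0 := fun i hi => by
      have := h2 _ (Finset.mem_image_of_mem _ hi)
      rwa [pt_arc _ _ _ _ _ hN] at this
    have a3 : ∀ i, G i 0 := fun i => by
      rcases h.choose_spec.2 i with hi | hi | hi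
      · exact a2 i hi
      · by_cases e : w[i].2 = w[P.π i].2
        · have := a2 _ hi
          simp only [G, P.ππ, if_pos e, if_pos e.symm] at this ⊢
          exact this.symm
        · have := (a1 _ N le_rfl).1 (a2 _ hi)
          simp only [G, P.ππ, if_neg e, if_neg (Ne.symm e), Nat.sub_self, Nat.sub_zero] at this ⊢
          exact this.symm
      · simp only [G, if_neg hi.1, Nat.sub_zero, add_zero]
        rw [(ZMod.natCast_eq_natCast_iff _ _ _).2 (hi.2.mul_right' N), add_mul, one_mul]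
    intro b
    obtain ⟨i, k, hk, rfl⟩ := arc_cases b
    rw [pt_arc _ _ _ _ _ hk]
    exact (a1 i k hk.le).1 (a3 i)

end Paired

section
variable (M N : ℕ) [NeZero M]

/-- A cell of the polar grid. -/
def cellD (a : ℕ) (b : ZMod M) : Set ℂ :=
  (fun x : ℝ × ℝ => ((x.1 / N : ℝ) : ℂ) * ex M x.2) '' Icc (a : ℝ) (a + 1) ×ˢ Icc (b.val : ℝ) (b.val + 1)

theorem compact_cellD (a : ℕ) (b : ZMod M) : IsCompact (cellD M N a b) := by
  have := continuous_ex M
  exact (isCompact_Icc.prod isCompact_Icc).image (by fun_prop)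

variable {M N}

theorem mem_cellD {a : ℕ} {k : ℤ} {r θ : ℝ} (hr : r ∈ Icc (a : ℝ) (a + 1))
    (hθ : θ ∈ Icc (k : ℝ) (k + 1)) : ((r / N : ℝ) : ℂ) * ex M θ ∈ cellD M N a k := by
  have hM : (M : ℝ) ≠ 0 := by exact_mod_cast NeZero.ne M
  have e : (((k : ZMod M).val : ℕ) : ℝ) = k - (k / M : ℤ) * M := by
    have h1 := ZMod.val_intCast (n := M) k
    have h2 := Int.emod_add_ediv_mul k M
    exact_mod_cast (by omega : (((k : ZMod M).val : ℕ) : ℤ) = k - (k / M) * M)
  refine ⟨(r, θ - (k / M : ℤ) * M), ⟨hr, ?_⟩, ?_⟩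
  · rw [e]
    exact ⟨by linarith [hθ.1], by linarith [hθ.2]⟩
  · exact congrArg (_ * ·) ((ex_iff hM).2 ⟨-(k / M), by push_cast; ring⟩)

theorem cover (hN : 0 < N) (z : Dc) : ∃ a < N, ∃ b : ZMod M, (z : ℂ) ∈ cellD M N a b := by
  have hM : (M : ℝ) ≠ 0 := by exact_mod_cast NeZero.ne M
  have hN' : (0 : ℝ) < N := by exact_mod_cast hN
  have h1 : ‖(z : ℂ)‖ ≤ 1 := mem_closedBall_zero_iff.1 z.2
  have h2 : ∃ a < N, ‖(z : ℂ)‖ * N ∈ Icc (a : ℝ) (a + 1) := by
    rcases h1.lt_or_eq with h | h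
    · exact ⟨⌊‖(z : ℂ)‖ * N⌋₊, (Nat.floor_lt (by positivity)).2 (by nlinarith),
        Nat.floor_le (by positivity), (Nat.lt_floor_add_one _).le⟩
    · refine ⟨N - 1, by omega, ?_⟩
      rw [h, Nat.cast_pred hN]
      exact ⟨by linarith, by linarith⟩
  obtain ⟨a, ha, h2⟩ := h2
  refine ⟨a, ha, (⌊(z : ℂ).arg / (2 * Real.pi) * M⌋ : ℤ), ?_⟩
  convert mem_cellD (M := M) (N := N) h2 ⟨Int.floor_le _, (Int.lt_floor_add_one _).le⟩ using 1
  rw [mul_div_cancel_right₀ _ hN'.ne', ex_eq', mul_div_cancel_right₀ _ hM,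
    mul_div_cancel₀ _ Real.two_pi_pos.ne', mul_comm Complex.I, Complex.norm_mul_exp_arg_mul_I]

theorem dist_cellD (hN : 0 < N) (hM : N ≤ M) {a : ℕ} (ha : a < N) {b : ZMod M} {z z' : ℂ}
    (h : z ∈ cellD M N a b) (h' : z' ∈ cellD M N a b) : dist z z' ≤ 9 / N := by
  obtain ⟨⟨r, θ⟩, ⟨h1, h2⟩, rfl⟩ := h
  obtain ⟨⟨r', θ'⟩, ⟨h3, h4⟩, rfl⟩ := h'
  have hN' : (0 : ℝ) < N := by exact_mod_cast hN
  have hM' : (N : ℝ) ≤ M := by exact_mod_cast hM
  have ha' : (a : ℝ) + 1 ≤ N := by exact_mod_cast ha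
  have ha0 : (0 : ℝ) ≤ a := a.cast_nonneg
  simp only [mem_Icc] at h1 h2 h3 h4 ⊢
  have e : ex M θ = ex M θ' * ex M (θ - θ') := by
    unfold ex
    rw [← Complex.exp_add]
    congr 1
    push_cast
    ring
  have b1 : ‖ex M (θ - θ') - 1‖ ≤ 8 / N := by
    rw [ex_eq']
    refine Real.norm_exp_I_mul_ofReal_sub_one_le.trans ?_
    rw [Real.norm_eq_abs, abs_mul, abs_div, abs_of_pos Real.two_pi_pos, Nat.abs_cast]
    have : |θ - θ'| / M ≤ 1 / N :=
      div_le_div₀ zero_le_one (abs_le.2 ⟨by linarith, by linarith⟩) hN' hM'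
    have h0 : 0 ≤ |θ - θ'| / M := by positivity
    have := Real.pi_le_four
    rw [show (8 : ℝ) / N = 8 * (1 / N) by ring]
    nlinarith
  have b2 : |r / N| ≤ 1 := by
    rw [abs_of_nonneg (div_nonneg (by linarith) hN'.le), div_le_one hN']
    linarith
  have b3 : |r / N - r' / N| ≤ 1 / N := by
    rw [← sub_div, abs_div, abs_of_pos hN']
    exact div_le_div_of_nonneg_right (abs_le.2 ⟨by linarith, by linarith⟩) hN'.le
  rw [dist_eq_norm, e, show ((r / N : ℝ) : ℂ) * (ex M θ' * ex M (θ - θ')) -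
    ((r' / N : ℝ) : ℂ) * ex M θ' = ex M θ' * (((r / N : ℝ) : ℂ) * (ex M (θ - θ') - 1) +
      ((r / N - r' / N : ℝ) : ℂ)) by push_cast; ring, norm_mul, norm_ex, one_mul]
  refine (norm_add_le _ _).trans ?_
  rw [norm_mul, Complex.norm_real, Complex.norm_real, Real.norm_eq_abs, Real.norm_eq_abs,
    show (9 : ℝ) / N = 1 * (8 / N) + 1 / N by ring]
  gcongr

theorem near {i j : ℤ} {s : ℝ} (hi : s ∈ Icc (i : ℝ) (i + 1)) (hj : s ∈ Icc (j : ℝ) (j + 1)) :
    i = j ∨ i + 1 = j ∨ j + 1 = i := by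
  have h1 : i ≤ j + 1 := by exact_mod_cast hi.1.trans hj.2
  have h2 : j ≤ i + 1 := by exact_mod_cast hj.1.trans hi.2
  omega

theorem local_conn {γ : ℕ} (P : Pat M γ) (hN : 0 < N) {z : ℂ} (S : Set (P.cx N hN).W)
    (hS : ∀ a < N, ∀ b, z ∈ cellD M N a b → Sum.inl (a, b) ∈ S) {a a' : ℕ} (ha : a < N)
    (ha' : a' < N) {b b' : ZMod M} (h : z ∈ cellD M N a b) (h' : z ∈ cellD M N a' b') :
    (P.cx N hN).Conn S (.inl (a, b)) (.inl (a', b')) := by
  have hM : (M : ℝ) ≠ 0 := by exact_mod_cast NeZero.ne M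
  have hN' : (0 : ℝ) < N := by exact_mod_cast hN
  have k := hS _ ha _ h
  have k' := hS _ ha' _ h'
  obtain ⟨⟨r, θ⟩, ⟨h1, h2⟩, rfl⟩ := h
  obtain ⟨⟨r', θ'⟩, ⟨h3, h4⟩, e⟩ := h'
  have r0 : 0 ≤ r := a.cast_nonneg.trans h1.1
  have r0' : 0 ≤ r' := a'.cast_nonneg.trans h3.1
  obtain rfl : r' = r := by
    have := congrArg norm e
    simp only [norm_mul, norm_ex, mul_one, Complex.norm_real, Real.norm_eq_abs] at this
    rwa [abs_of_nonneg (by positivity), abs_of_nonneg (by positivity),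
      div_left_inj' hN'.ne'] at this
  have k2 : Sum.inl (a', b) ∈ S := hS _ ha' _ ⟨(r', θ), ⟨h3, h2⟩, rfl⟩
  refine Cx.Conn.trans (b := Sum.inl (a', b)) ?_ ?_
  · rcases near (i := a) (j := a') (by exact_mod_cast h1) (by exact_mod_cast h3) with e | e | e
    · obtain rfl : a = a' := by omega
      exact Cx.Conn.refl _ _
    · obtain rfl : a + 1 = a' := by omega
      exact Cx.Conn.adj (P.adjB N hN ha' b) k k2
    · obtain rfl : a' + 1 = a := by omega
      exact Cx.Conn.adj (P.adjB N hN ha b).symm k k2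
  by_cases hr : r' = 0
  · have all : ∀ c : ZMod M, Sum.inl (a', c) ∈ S := fun c =>
      hS _ ha' _ ⟨(r', c.val), ⟨h3, le_rfl, by linarith⟩, by simp [hr]⟩
    have : ∀ n : ℕ, (P.cx N hN).Conn S (.inl (a', b)) (.inl (a', b + n)) := fun n => by
      induction n with
      | zero => simpa using Cx.Conn.refl _ _
      | succ n ih =>
        rw [Nat.cast_succ, ← add_assoc]
        exact ih.trans (Cx.Conn.adj (P.adjA N hN ha' _) (all _) (all _))
    simpa using this (b' - b).val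
  · obtain ⟨n, e⟩ := (ex_iff hM).1 (mul_left_cancel₀ (by
      exact_mod_cast div_ne_zero hr hN'.ne') e)
    have c : ∀ {x y : ℤ}, x = y → (x : ZMod M) = y := fun h => congrArg _ h
    rcases near (s := θ') (i := b.val + n * M) (j := b'.val)
      (by push_cast; exact ⟨by linarith [h2.1], by linarith [h2.2]⟩) (by exact_mod_cast h4) with
      e | e | e
    · obtain rfl : b = b' := by simpa using c e
      exact Cx.Conn.refl _ _
    · obtain rfl : b + 1 = b' := by simpa using c e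
      exact Cx.Conn.adj (P.adjA N hN ha' b) k2 k'
    · obtain rfl : b' + 1 = b := by simpa using c e
      exact Cx.Conn.adj (P.adjA N hN ha' b').symm k2 k'

end

namespace Paired

variable {w : List (ℕ × Bool)} (P : Paired w) {γ : ℕ} (N : ℕ) [NeZero (w.length * N)]

/-- Ordinary cells in the surface. -/
def c0 (w : List (ℕ × Bool)) (N : ℕ) (x : ℕ × ZMod (w.length * N)) : Set (Surf w) :=
  Quot.mk _ '' {z : Dc | x.1 < N ∧ (z : ℂ) ∈ cellD _ N x.1 x.2}

/-- Cells in the surface. -/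
def cell (h : P.Ctl γ) : (ℕ × ZMod (w.length * N)) ⊕ Sym2 (ZMod (w.length * N)) → Set (Surf w) :=
  Sum.elim (c0 w N) fun σ => {y | ∃ b, σ = s(b, (P.pat N h).p b) ∧ y ∈ c0 w N (N - 1, b) ∧
    y ∈ c0 w N (N - 1, (P.pat N h).p b)}

theorem side_mem (hN : 0 < N) (i : Fin w.length) {k : ℕ} {t : ℝ}
    (ht : t * N ∈ Icc (k : ℝ) (k + 1)) :
    side w.length i t ∈ cellD (w.length * N) N (N - 1) (i * N + k : ℕ) := by
  have hN' : (0 : ℝ) < N := by exact_mod_cast hN
  have := mem_cellD (M := w.length * N) (N := N) (a := N - 1) (k := (i * N + k : ℕ)) (r := N)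
    (θ := (i + t) * N) (by rw [Nat.cast_pred hN]; exact ⟨by linarith, by linarith⟩)
    (by push_cast; exact ⟨by linarith [ht.1], by linarith [ht.2]⟩)
  rw [Int.cast_natCast, div_self hN'.ne', Complex.ofReal_one, one_mul] at this
  convert this using 1
  have : (N : ℂ) ≠ 0 := by exact_mod_cast hN.ne'
  unfold side ex
  congr 2
  push_cast
  rw [mul_div_mul_right _ _ this]

theorem through (h : P.Ctl γ) (hN : 0 < N) {z z' : Dc} (e : Relation.EqvGen (Glue w) z z') :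
    ∀ a < N, ∀ a' < N, ∀ b b', (z : ℂ) ∈ cellD _ N a b → (z' : ℂ) ∈ cellD _ N a' b' →
      ((P.pat N h).cx N hN).Conn {x | Quot.mk _ z ∈ P.cell N h x} (.inl (a, b)) (.inl (a', b')) := by
  have hN' : (0 : ℝ) < N := by exact_mod_cast hN
  have loc : ∀ {y z : Dc}, Quot.mk (Glue w) y = Quot.mk _ z → ∀ a < N, ∀ a' < N, ∀ b b',
      (y : ℂ) ∈ cellD _ N a b → (y : ℂ) ∈ cellD _ N a' b' →
      ((P.pat N h).cx N hN).Conn {x | Quot.mk _ z ∈ P.cell N h x} (.inl (a, b)) (.inl (a', b')) :=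
    fun {y z} e a ha a' ha' b b' h1 h2 =>
      local_conn _ hN _ (fun a ha b hb =>
        show Quot.mk _ z ∈ c0 w N (a, b) from ⟨y, ⟨ha, hb⟩, e⟩) ha ha' h1 h2
  induction e with
  | refl z => exact loc rfl
  | symm x y e ih =>
    intro a ha a' ha' b b' h1 h2
    rw [← Quot.eqvGen_sound e]
    exact (ih a' ha' a ha b' b h2 h1).symm
  | trans x y z e _ ih ih' =>
    intro a ha a' ha' b b' h1 h2
    obtain ⟨c, hc, d, h3⟩ := cover (M := w.length * N) hN y
    refine (ih a ha c hc b d h1 h3).trans ?_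
    rw [Quot.eqvGen_sound e]
    exact ih' c hc a' ha' d b' h3 h2
  | rel z z' e =>
    intro a ha a' ha' b b' h1 h2
    have e' := Quot.sound e
    obtain ⟨i, t, ht, h3, h4⟩ := P.glue_iff.1 e
    have : ∃ k < N, t * N ∈ Icc (k : ℝ) (k + 1) := by
      rcases ht.2.lt_or_eq with h | h
      · exact ⟨⌊t * N⌋₊, (Nat.floor_lt (mul_nonneg ht.1 hN'.le)).2 (by nlinarith),
          Nat.floor_le (mul_nonneg ht.1 hN'.le), (Nat.lt_floor_add_one _).le⟩
      · refine ⟨N - 1, by omega, ?_⟩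
        rw [h, Nat.cast_pred hN]
        exact ⟨by linarith, by linarith⟩
    obtain ⟨k, hk, h5⟩ := this
    have h6 := h3 ▸ side_mem N hN i h5
    have h7 : (z' : ℂ) ∈ cellD _ N (N - 1) ((P.pat N h).p (i * N + k : ℕ)) := by
      rw [h4]
      simp only [pat, pt_arc _ _ _ _ _ hk]
      refine side_mem N hN _ ?_
      unfold τ
      split_ifs
      · exact h5
      · rw [Nat.cast_sub (by omega), Nat.cast_pred hN]
        exact ⟨by linarith [h5.2], by linarith [h5.1]⟩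
    have hn : N - 1 < N := by omega
    have m1 : Quot.mk _ z ∈ c0 w N (N - 1, (i * N + k : ℕ)) := ⟨z, ⟨hn, h6⟩, rfl⟩
    have m2 : Quot.mk _ z ∈ c0 w N (N - 1, (P.pat N h).p (i * N + k : ℕ)) :=
      ⟨z', ⟨hn, h7⟩, e'.symm⟩
    refine ((loc rfl a ha _ hn b _ h1 h6).trans (Cx.Conn.adj ((P.pat N h).adjC N hN _) m1
      ⟨_, rfl, m1, m2⟩)).trans (Cx.Conn.trans ?_ (loc e'.symm _ hn a' ha' _ b' h7 h2))
    have := ((P.pat N h).adjC N hN ((P.pat N h).p (i * N + k : ℕ))).symm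
    rw [(P.pat N h).pp, Sym2.eq_swap] at this
    exact Cx.Conn.adj this ⟨_, rfl, m1, m2⟩ m2

theorem conn (h : P.Ctl γ) (hN : 0 < N) {X : Set (Surf w)} (hX : IsPreconnected X)
    {a b : ((P.pat N h).cx N hN).W} (ha : a ∈ {a | (X ∩ P.cell N h a).Nonempty})
    (hb : b ∈ {a | (X ∩ P.cell N h a).Nonempty}) :
    ((P.pat N h).cx N hN).Conn {a | (X ∩ P.cell N h a).Nonempty} a b := by
  set S : Set ((P.pat N h).cx N hN).W := {a | (X ∩ P.cell N h a).Nonempty} with hS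
  have red : ∀ a ∈ S, ∃ x, (X ∩ c0 w N x).Nonempty ∧
      ((P.pat N h).cx N hN).Conn S (.inl x) a := by
    rintro (x | σ) ha
    · exact ⟨x, ha, Cx.Conn.refl _ _⟩
    · obtain ⟨y, hy, b, rfl, h1, h2⟩ := ha
      exact ⟨_, ⟨y, hy, h1⟩, Cx.Conn.adj ((P.pat N h).adjC N hN b) ⟨y, hy, h1⟩
        ⟨y, hy, b, rfl, h1, h2⟩⟩
  obtain ⟨x, hx, h1⟩ := red a ha
  obtain ⟨y, hy, h2⟩ := red b hb
  refine h1.symm.trans (Cx.Conn.trans ?_ h2)
  by_contra hn
  have cl : ∀ C : Set (ℕ × ZMod (w.length * N)), IsClosed (⋃ c ∈ C, c0 w N c) := fun C => by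
    have : ⋃ c ∈ C, c0 w N c = ⋃ c ∈ C ∩ Iio N ×ˢ univ, c0 w N c := by
      ext y
      simp only [mem_iUnion, exists_prop]
      exact exists_congr fun c => ⟨fun ⟨h1, z, h2, h3⟩ => ⟨⟨h1, h2.1, trivial⟩, z, h2, h3⟩,
        fun h => ⟨h.1.1, h.2⟩⟩
    rw [this]
    refine (((finite_Iio N).prod finite_univ).inter_of_right _).isClosed_biUnion fun c _ =>
      P.closedMap _ ?_
    exact isClosed_const.and ((compact_cellD _ N c.1 c.2).isClosed.preimage continuous_subtype_val)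
  let C := {c | ((P.pat N h).cx N hN).Conn S (.inl x) (.inl c)}
  obtain ⟨p, hp, h1, h2⟩ := isPreconnected_closed_iff.1 hX _ _ (cl C) (cl Cᶜ) (fun p _ => by
      obtain ⟨z, rfl⟩ := Quot.exists_rep p
      obtain ⟨c, hc, d, h3⟩ := cover (M := w.length * N) hN z
      have h' : Quot.mk _ z ∈ c0 w N (c, d) := ⟨z, ⟨hc, h3⟩, rfl⟩
      exact (em ((c, d) ∈ C)).imp (mem_biUnion · h') (mem_biUnion · h'))
    (hx.mono (inter_subset_inter_right _ (subset_biUnion_of_mem (u := c0 w N) (Cx.Conn.refl _ _))))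
    (hy.mono (inter_subset_inter_right _ (subset_biUnion_of_mem (u := c0 w N) hn)))
  obtain ⟨c, h3, z, h4, rfl⟩ := mem_iUnion₂.1 h1
  obtain ⟨d, h5, z', h6, e⟩ := mem_iUnion₂.1 h2
  exact h5 (h3.trans ((P.through N h hN (Quot.eq.1 e.symm) _ h4.1 _ h6.1 _ _ h4.2 h6.2).mono
    fun x hx => ⟨_, hp, hx⟩))

end Paired

theorem Paired.fine {w : List (ℕ × Bool)} (P : Paired w) {γ : ℕ} (hm : 0 < w.length)
    (h : P.Ctl γ) : Fine (Surf w) γ := by
  intro J _ K h1 h2
  have := P.t2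
  have cl : ∀ i, IsClosed (Quot.mk (Glue w) ⁻¹' K i) := fun i =>
    (h1 i).isClosed.preimage continuous_quot_mk
  have e1 : ∀ᶠ δ in nhdsWithin (0 : ℝ) (Ioi 0), ∀ i j, Disjoint (K i) (K j) →
      ∀ p q : Dc, Quot.mk _ p ∈ K i → Quot.mk _ q ∈ K j → δ < dist p q := by
    refine Filter.eventually_all.2 fun i => Filter.eventually_all.2 fun j =>
      Filter.eventually_all.2 fun h => ?_
    obtain ⟨r, hr, h'⟩ := Metric.exists_pos_forall_lt_edist (cl i).isCompact (cl j) (h.preimage _)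
    filter_upwards [Ioo_mem_nhdsGT (NNReal.coe_pos.2 hr)] with δ hδ p q hp hq
    have := h' p hp q hq
    rw [edist_nndist, ENNReal.coe_lt_coe, ← NNReal.coe_lt_coe, coe_nndist] at this
    linarith [hδ.2]
  obtain ⟨δ, hδ, h0⟩ := (e1.and self_mem_nhdsWithin).exists
  have h0 : 0 < δ := h0
  obtain ⟨N, hN⟩ := exists_nat_gt (9 / δ)
  have hN' : (0 : ℝ) < N := (div_pos (by norm_num) h0).trans hN
  have hN0 : 0 < N := by exact_mod_cast hN'
  have : NeZero (w.length * N) := ⟨(Nat.mul_pos hm hN0).ne'⟩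
  refine ⟨(P.pat N h).cx N hN0, fun i => {a | (K i ∩ P.cell N h a).Nonempty},
    fun i a ha b hb => P.conn N h hN0 (h2 i) ha hb, fun i j => ⟨fun h => ?_, fun h => ?_⟩⟩
  · refine disjoint_left.2 fun p hp hq => ?_
    obtain ⟨z, rfl⟩ := Quot.exists_rep p
    obtain ⟨c, hc, d, h3⟩ := cover (M := w.length * N) hN0 z
    exact disjoint_left.1 h (show Sum.inl (c, d) ∈ _ from ⟨_, hp, z, ⟨hc, h3⟩, rfl⟩)
      ⟨_, hq, z, ⟨hc, h3⟩, rfl⟩
  · have key : ∀ x, ∀ p ∈ K i, ∀ q ∈ K j, p ∈ Paired.c0 w N x → q ∉ Paired.c0 w N x := by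
      rintro x _ hp _ hq ⟨p, a1, rfl⟩ ⟨q, a2, rfl⟩
      have b1 := hδ i j h p q hp hq
      have b2 := dist_cellD hN0 (Nat.le_mul_of_pos_left N hm) a1.1 a1.2 a2.2
      rw [div_lt_iff₀ h0] at hN
      rw [le_div_iff₀ hN', ← Subtype.dist_eq] at b2
      nlinarith
    refine disjoint_left.2 ?_
    rintro (x | σ) ⟨p, hp, ha⟩ ⟨q, hq, hb⟩
    · exact key x p hp q hq ha hb
    · obtain ⟨b, rfl, a1, a2⟩ := ha
      obtain ⟨b', e, b1, b2⟩ := hb
      rcases Sym2.eq_iff.1 e with e | e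
      · exact key _ p hp q hq a1 (e.1 ▸ b1)
      · exact key _ p hp q hq a1 (e.1 ▸ b2)

end Pool.Agent.MP_aee211_co.H55
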