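import Pool.Agent.MP_aee211_co.H55.Face

/-! Polygons with a prescribed word of sides inside a space; cutting and pasting. -/

namespace Pool.Agent.MP_aee211_co.H55

open Set
open scoped Classical

variable {Y : Type} [TopologicalSpace Y] {L : Type}

/-- The inverse letter. -/
def iv (a : L × Bool) : L × Bool := (a.1, !a.2)

/-- The inverse word. -/
def inv (w : List (L × Bool)) : List (L × Bool) := w.reverse.map iv

@[simp] theorem iv_iv (a : L × Bool) : iv (iv a) = a := by simp [iv]
@[simp] theorem iv_fst (a : L × Bool) : (iv a).1 = a.1 := rfl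
@[simp] theorem inv_nil : inv ([] : List (L × Bool)) = [] := rfl
@[simp] theorem inv_cons (a : L × Bool) (w) : inv (a :: w) = inv w ++ [iv a] := by simp [inv]
@[simp] theorem inv_append (u v : List (L × Bool)) : inv (u ++ v) = inv v ++ inv u := by simp [inv]
@[simp] theorem inv_inv (w : List (L × Bool)) : inv (inv w) = w := by
  simp [inv, Function.comp_def]
@[simp] theorem inv_fst (w : List (L × Bool)) :
    (inv w).map Prod.fst = (w.map Prod.fst).reverse := by simp [inv, Function.comp_def]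
@[simp] theorem inv_length (w : List (L × Bool)) : (inv w).length = w.length := by simp [inv]

/-- The arc of a letter. -/
def ev (e : L → ℝ → Y) (a : L × Bool) : ℝ → Y := if a.2 then e a.1 else rev (e a.1)

/-- Redefine the arc of a letter. -/
noncomputable def upd (e : L → ℝ → Y) (a : L × Bool) (d : ℝ → Y) : L → ℝ → Y :=
  Function.update e a.1 (if a.2 then d else rev d)

/-- The arcs with names in `A` are simple, disjoint and avoid `U`. -/
structure Sep (e : L → ℝ → Y) (A : Set L) (U : Set Y) : Prop where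
  inj : ∀ x ∈ A, InjOn (e x) (Icc 0 1)
  off : ∀ x ∈ A, Disjoint (e x '' Icc 0 1) U
  dis : ∀ x ∈ A, ∀ y ∈ A, x ≠ y → Disjoint (e x '' Icc 0 1) (e y '' Icc 0 1)

section
omit [TopologicalSpace Y]
variable {e : L → ℝ → Y} {a : L × Bool} {d : ℝ → Y}

theorem ev_iv : ev e (iv a) = rev (ev e a) := by
  obtain ⟨x, _ | _⟩ := a <;> simp [ev, iv]

theorem ev_inv (w : List (L × Bool)) : (inv w).map (ev e) = (w.map (ev e)).reverse.map rev := by
  simp [inv, Function.comp_def, ev_iv]

theorem ev_image : ev e a '' Icc 0 1 = e a.1 '' Icc 0 1 := by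
  obtain ⟨x, _ | _⟩ := a <;> simp [ev, rev_image]

theorem ev_inj (h : InjOn (e a.1) (Icc 0 1)) : InjOn (ev e a) (Icc 0 1) := by
  obtain ⟨x, _ | _⟩ := a
  exacts [rev_inj h, h]

theorem ev_upd : ev (upd e a d) a = d := by
  obtain ⟨x, _ | _⟩ := a <;> simp [ev, upd]

theorem map_upd {w : List (L × Bool)} (h : a.1 ∉ w.map Prod.fst) :
    w.map (ev (upd e a d)) = w.map (ev e) :=
  List.map_congr_left fun b hb => by
    have : b.1 ≠ a.1 := fun e => h (e ▸ List.mem_map_of_mem hb)
    simp [ev, upd, this]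

theorem Sep.mono {A A' : Set L} {U U' : Set Y} (h : Sep e A U) (s : A' ⊆ A) (s' : U' ⊆ U) :
    Sep e A' U' :=
  ⟨fun x hx => h.inj x (s hx), fun x hx => (h.off x (s hx)).mono_right s',
    fun x hx y hy => h.dis x (s hx) y (s hy)⟩

theorem Sep.absorb {A : Set L} {U : Set Y} (h : Sep e A U) {x : L} (hx : x ∈ A) :
    Sep e (A \ {x}) (U ∪ e x '' Icc 0 1) :=
  ⟨fun y hy => h.inj y hy.1,
    fun y hy => disjoint_union_right.2 ⟨h.off y hy.1, h.dis y hy.1 x hx hy.2⟩,
    fun y hy z hz => h.dis y hy.1 z hz.1⟩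

theorem Sep.new {A : Set L} {U U' : Set Y} (h : Sep e A U) (hx : a.1 ∉ A) (s : U' ⊆ U)
    (h1 : InjOn d (Icc 0 1)) (h2 : d '' Icc 0 1 ⊆ U) (h3 : Disjoint (d '' Icc 0 1) U') :
    Sep (upd e a d) (insert a.1 A) U' := by
  have e1 : ∀ y ∈ A, upd e a d y = e y := fun y hy =>
    Function.update_of_ne (fun e : y = a.1 => hx (e ▸ hy)) _ _
  have e2 : upd e a d a.1 '' Icc 0 1 = d '' Icc 0 1 := by rw [← ev_image, ev_upd]
  refine ⟨?_, ?_, ?_⟩
  · rintro x (rfl | hx)
    · rw [upd, Function.update_self]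
      split_ifs
      exacts [h1, rev_inj h1]
    · exact e1 x hx ▸ h.inj x hx
  · rintro x (rfl | hx)
    · exact e2 ▸ h3
    · exact e1 x hx ▸ (h.off x hx).mono_right s
  · rintro x (rfl | hx) y (rfl | hy) hne
    · exact absurd rfl hne
    · rw [e2, e1 y hy]
      exact ((h.off y hy).mono_right h2).symm
    · rw [e2, e1 x hx]
      exact (h.off x hx).mono_right h2
    · rw [e1 x hx, e1 y hy]
      exact h.dis x hx y hy hne

end

/-- `Y` contains an open polygon whose sides are disjoint simple arcs identified as in `w`. -/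
def Has (Y : Type) [TopologicalSpace Y] (w : List (L × Bool)) : Prop :=
  ∃ (e : L → ℝ → Y) (U : Set Y), Face (w.map (ev e)) U ∧ Sep e {x | x ∈ w.map Prod.fst} U

theorem Has.rot {u v : List (L × Bool)} (h : Has Y (u ++ v)) : Has Y (v ++ u) := by
  obtain ⟨e, U, h1, h2⟩ := h
  rw [List.map_append] at h1
  exact ⟨e, U, List.map_append ▸ h1.rot, h2.mono (fun x => by simp [or_comm]) subset_rfl⟩

theorem Has.flip {w : List (L × Bool)} (h : Has Y w) : Has Y (inv w) := by
  obtain ⟨e, U, h1, h2⟩ := h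
  exact ⟨e, U, ev_inv w ▸ h1.flip, h2.mono (fun x => by simp) subset_rfl⟩

theorem Has.sub {w w' : List (L × Bool)} (h : Has Y w) (s : w'.Sublist w) : Has Y w' := by
  obtain ⟨e, U, h1, h2⟩ := h
  exact ⟨e, U, h1.sub (s.map _), h2.mono (fun x hx => (s.map _).subset hx) subset_rfl⟩

theorem Has.cancel {a : L × Bool} {Z : List (L × Bool)} (ha : a.1 ∉ Z.map Prod.fst) (h : Has Y Z) :
    Has Y (a :: iv a :: Z) := by
  obtain ⟨e, U, h1, h2⟩ := h
  rw [← List.append_nil (Z.map _)] at h1
  obtain ⟨d, d', U₁, U₂, f1, f2, s1, s2, b1, b2, b3, b4, b5, b6, b7, b8⟩ := h1.cut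
  have := Face.paste (X := Z.map (ev e) ++ [d]) (X' := [d]) (by simpa using f1) (by simpa using f2)
    b1 b3 (disjoint_union_right.1 b8).1 (disjoint_union_right.1 b8).2
  refine Has.rot (u := Z) (v := [a, iv a]) ⟨upd e a d, _, ?_, (h2.new ha
    (union_subset (union_subset s1 s2) b5) b2 b4 (disjoint_union_right.2 ⟨b7, b6⟩)).mono
      (fun x => by simp [or_comm]) subset_rfl⟩
  simpa [map_upd ha, ev_upd, ev_iv] using this

theorem recut {a : L × Bool} {V X' P Q : List (L × Bool)} (h : Has Y (a :: V ++ X'))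
    (ha : a.1 ∉ (V ++ (P ++ Q)).map Prod.fst) (s : Bool)
    (hs : ∀ x ∈ (P ++ Q).map Prod.fst, x ∈ X'.map Prod.fst)
    (hX : ∀ (e : L → ℝ → Y) d U, Face ((inv X').map (ev e) ++ [d]) U →
      Face (Q.map (ev e) ++ (if s then d else rev d) :: P.map (ev e) ++ [ev e a]) U) :
    Has Y (V ++ iv a :: inv P ++ (if s then a else iv a) :: inv Q) := by
  obtain ⟨e, U, h1, h2⟩ := h
  rw [List.map_append] at h1
  obtain ⟨d, d', U₁, U₂, f1, f2, s1, s2, b1, b2, -, b4, -, -, b7, -⟩ := h1.cut
  have m : a.1 ∈ {x | x ∈ (a :: V ++ X').map Prod.fst} := by simp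
  have o := h2.off _ m
  rw [← ev_image] at o
  have g1 : Face (V.map (ev e) ++ [d] ++ [ev e a]) U₁ :=
    Face.rot (f1.sub (by simp))
  have g2 := hX e d U₂ (by rw [ev_inv]; exact f2.sub (by simp))
  have := g1.paste g2 b1 (ev_inj (h2.inj _ m)) (o.mono_right s1) (o.mono_right s2)
  simp only [List.map_append, List.mem_append, not_or] at ha hs
  refine ⟨upd e (iv a) d, _, ?_, ((h2.absorb m).new (a := iv a) (fun h => h.2 rfl)
    (union_subset_union (union_subset s1 s2) ev_image.le) b2 (b4.trans subset_union_left)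
    (disjoint_union_right.2 ⟨b7, (o.mono_right b4).symm⟩)).mono (fun x hx => ?_) subset_rfl⟩
  · have e1 : ev (upd e (iv a) d) a = rev d := by rw [← iv_iv a, ev_iv, iv_iv, ev_upd]
    cases s <;>
      simpa [map_upd (a := iv a) ha.1, map_upd (a := iv a) ha.2.1, map_upd (a := iv a) ha.2.2,
        ev_upd, ev_inv, e1] using this
  · by_cases hxa : x = a.1
    · exact .inl hxa
    · refine .inr ⟨?_, hxa⟩
      have := hs x
      cases s <;> simp only [mem_ofPred_eq, List.map_append, List.map_cons, inv_fst, iv_fst,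
        List.mem_append, List.mem_cons, List.mem_reverse, if_true, if_false,
        Bool.false_eq_true] at hx ⊢ <;> tauto

theorem Has.sp {a : L × Bool} {V W Z : List (L × Bool)} (ha : a.1 ∉ (V ++ (W ++ Z)).map Prod.fst)
    (h : Has Y (a :: V ++ (W ++ iv a :: Z))) : Has Y (a :: W ++ (V ++ iv a :: Z)) := by
  have := recut (P := inv Z) (Q := inv W) h (by simpa [or_comm] using ha) true
    (fun x => by simp only [List.map_append, List.map_cons, inv_fst, List.mem_append,
      List.mem_cons, List.mem_reverse]; tauto) fun e d U h => by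
      simpa using Face.rot (l := (inv Z).map (ev e) ++ [ev e a]) (l' := (inv W).map (ev e) ++ [d])
        (by simpa using h)
  simpa using Has.rot (u := V ++ iv a :: Z) (v := a :: W) (by simpa using this)

theorem Has.g {a : L × Bool} {U V Z : List (L × Bool)} (ha : a.1 ∉ (U ++ (V ++ Z)).map Prod.fst)
    (h : Has Y (a :: U ++ (V ++ a :: Z))) : Has Y (a :: V ++ a :: (inv U ++ Z)) := by
  have := recut (P := V) (Q := Z) h ha false
    (fun x => by simp only [List.map_append, List.map_cons, List.mem_append,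
      List.mem_cons]; tauto) fun e d U h => by
      simpa using Face.rot (l := rev d :: V.map (ev e) ++ [ev e a]) (l' := Z.map (ev e))
        (by simpa [ev_inv, ev_iv, Function.comp_def] using h.flip)
  simpa using Has.rot (u := Z) (v := a :: V ++ a :: inv U) (by simpa using this.flip)

theorem Has.rename {L' : Type} {w : List (L × Bool)} (h : Has Y w) (f : L → L' × Bool)
    (hf : ∀ x ∈ w.map Prod.fst, ∀ y ∈ w.map Prod.fst, (f x).1 = (f y).1 → x = y) :
    Has Y (w.map fun a => if a.2 then f a.1 else iv (f a.1)) := by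
  obtain ⟨e, U, h1, h2⟩ := h
  have : ∀ y : L', ∃ d : ℝ → Y, ∀ x ∈ w.map Prod.fst, (f x).1 = y → d = ev e (x, (f x).2) := by
    intro y
    by_cases h : ∃ x ∈ w.map Prod.fst, (f x).1 = y
    · obtain ⟨x, hx, rfl⟩ := h
      exact ⟨_, fun x' hx' e => by rw [hf x' hx' x hx e]⟩
    · obtain ⟨φ, -⟩ := h1
      exact ⟨fun _ => φ 0, fun x hx e => absurd ⟨x, hx, e⟩ h⟩
  choose e' he using this
  have k : ∀ y ∈ {x | x ∈ (w.map fun a => if a.2 then f a.1 else iv (f a.1)).map Prod.fst},
      ∃ x ∈ w.map Prod.fst, (f x).1 = y := fun y hy => by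
    simp only [mem_ofPred_eq, List.map_map, List.mem_map, Function.comp] at hy
    obtain ⟨a, ha, rfl⟩ := hy
    exact ⟨a.1, List.mem_map_of_mem ha, by split_ifs <;> rfl⟩
  refine ⟨e', U, ?_, fun y hy => ?_, fun y hy => ?_, fun y hy z hz hne => ?_⟩
  · rw [List.map_map]
    convert h1 using 1
    refine List.map_congr_left fun a ha => ?_
    have := he _ a.1 (List.mem_map_of_mem ha) rfl
    obtain ⟨x, s⟩ := a
    cases s <;> cases h : (f x).2 <;> simp [ev, iv, this, h]
  · obtain ⟨x, hx, rfl⟩ := k y hy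
    rw [he _ x hx rfl]
    exact ev_inj (h2.inj x hx)
  · obtain ⟨x, hx, rfl⟩ := k y hy
    rw [he _ x hx rfl, ev_image]
    exact h2.off x hx
  · obtain ⟨x, hx, rfl⟩ := k y hy
    obtain ⟨x', hx', rfl⟩ := k z hz
    rw [he _ x hx rfl, he _ x' hx' rfl, ev_image, ev_image]
    exact h2.dis x hx x' hx' fun e => hne (e ▸ rfl)

end Pool.Agent.MP_aee211_co.H55
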