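import Pool.Agent.MP_aee211_co.H55.Has
import Pool.Agent.MP_aee211_co.H55.Defs

/-! A graph is drawn from disjoint polygons around its vertices. -/

namespace Pool.Agent.MP_aee211_co.H55

open Set
open scoped Classical

variable {Y : Type} [TopologicalSpace Y] {V : Type} {G : SimpleGraph V}

/-- `U` contains a polygon whose sides are the arcs of the edges at `v`. -/
def Pol (G : SimpleGraph V) (e : Sym2 V → ℝ → Y) (v : V) (U : Set Y) : Prop :=
  ∃ (D : List G.Dart) (sg : G.Dart → Bool), D.Nodup ∧ (∀ d, d ∈ D ↔ d.fst = v) ∧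
    Face (D.map fun d => ev e (d.edge, sg d)) U

theorem embeds_of_pol {e : Sym2 V → ℝ → Y} {U : V → Set Y} (hU : ∀ u v, u ≠ v → Disjoint (U u) (U v))
    (hs : Sep e G.edgeSet (⋃ v, U v)) (hp : ∀ v, Pol G e v (U v)) : Embeds G Y := by
  have hf : (1 / 2 : ℝ) ∈ Icc (0 : ℝ) 1 := ⟨by norm_num, by norm_num⟩
  have mid : ∀ (d : G.Dart) s, ev e (d.edge, s) (1 / 2) = e d.edge (1 / 2) := fun d s => by
    cases s
    exacts [congrArg (e d.edge) (by norm_num), rfl]
  have off : ∀ (d : G.Dart) v, e d.edge (1 / 2) ∉ U v := fun d v h =>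
    disjoint_left.1 (hs.off _ d.edge_mem) ⟨_, hf, rfl⟩ (mem_iUnion.2 ⟨v, h⟩)
  choose D sg h1 h2 h3 using hp
  choose o ho σ' hσ using fun v => (h3 v).star (h1 v) fun d _ => mid d _ ▸ off d v
  let σ : G.Dart → ℝ → Y := fun d => σ' d.fst d
  have k := fun d : G.Dart => hσ d.fst d ((h2 _ d).2 rfl)
  have s0 : ∀ d, σ d 0 = o d.fst := fun d => (k d).2.2.1
  have s1 : ∀ d, σ d 1 = e d.edge (1 / 2) := fun d => (k d).2.2.2.1.trans (mid d _)
  have sU : ∀ d, ∀ t ∈ Icc (0 : ℝ) 1, t ≠ 1 → σ d t ∈ U d.fst := fun d t ht h =>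
    (k d).2.2.2.2.1 t ⟨ht.1, lt_of_le_of_ne ht.2 h⟩
  have uq : ∀ {u v y}, y ∈ U u → y ∈ U v → u = v := fun a b =>
    not_not.1 fun h => disjoint_left.1 (hU _ _ h) a b
  have K : ∀ (d d' : G.Dart), d ≠ d' → ∀ s ∈ Icc (0 : ℝ) 1, ∀ t ∈ Icc (0 : ℝ) 1, σ d s = σ d' t →
      (s = 0 ∧ d.fst = d'.fst) ∨ (s = 1 ∧ t = 1 ∧ d.edge = d'.edge) := by
    intro d d' hne s hs' t ht h
    by_cases a : s = 1 <;> by_cases b : t = 1
    · subst a b
      rw [s1, s1] at h
      exact .inr ⟨rfl, rfl, not_not.1 fun h' => disjoint_left.1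
        (hs.dis _ d.edge_mem _ d'.edge_mem h') ⟨_, hf, rfl⟩ ⟨_, hf, h.symm⟩⟩
    · subst a
      exact absurd (s1 d ▸ h ▸ sU d' t ht b) (off d _)
    · subst b
      exact absurd (s1 d' ▸ h ▸ sU d s hs' a) (off d' _)
    · have e := uq (sU d s hs' a) (h ▸ sU d' t ht b)
      refine .inl ⟨(k d).2.2.2.2.2 d' ((h2 _ _).2 e.symm) hne s ⟨hs'.1, lt_of_le_of_ne hs'.2 a⟩ t
        ⟨ht.1, lt_of_le_of_ne ht.2 b⟩ ?_, e⟩
      simpa only [σ, e] using h
  let γ : G.Dart → ℝ → Y := fun d t => if t ≤ 1 / 2 then σ d (2 * t) else σ d.symm (2 - 2 * t)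
  have im : ∀ d, γ d '' Icc 0 1 = σ d '' Icc 0 1 ∪ σ d.symm '' Icc 0 1 := fun d => by
    apply Subset.antisymm
    · rintro _ ⟨t, ht, rfl⟩
      simp only [γ]
      split_ifs with h
      · exact .inl ⟨_, ⟨by linarith [ht.1], by linarith⟩, rfl⟩
      · exact .inr ⟨_, ⟨by linarith [ht.2], by linarith⟩, rfl⟩
    · rintro _ (⟨t, ht, rfl⟩ | ⟨t, ht, rfl⟩)
      · refine ⟨t / 2, ⟨by linarith [ht.1], by linarith [ht.2]⟩, ?_⟩
        simp only [γ]
        rw [if_pos (by linarith [ht.2]), mul_div_cancel₀ _ two_ne_zero]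
      · refine ⟨1 - t / 2, ⟨by linarith [ht.2], by linarith [ht.1]⟩, ?_⟩
        simp only [γ]
        split_ifs with h
        · obtain rfl : t = 1 := by linarith [ht.2]
          rw [show (2 : ℝ) * (1 - 1 / 2) = 1 by norm_num, s1, s1, d.edge_symm]
        · exact congrArg _ (by ring)
  have P : ∀ (d : G.Dart) w, o w ∈ σ d '' Icc 0 1 → w = d.fst := by
    rintro d w ⟨t, ht, h⟩
    by_cases a : t = 1
    · subst a
      exact absurd (s1 d ▸ h ▸ ho w) (off d w)
    · exact uq (ho w) (h ▸ sU d t ht a)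
  have Q : ∀ d d' : G.Dart, d.edge ≠ d'.edge → ∀ p ∈ σ d '' Icc 0 1, p ∈ σ d' '' Icc 0 1 →
      d.fst = d'.fst ∧ p = o d.fst := by
    rintro d d' hne _ ⟨s, hs', rfl⟩ ⟨t, ht, h⟩
    rcases K d d' (fun e => hne (e ▸ rfl)) s hs' t ht h.symm with ⟨rfl, h'⟩ | h'
    exacts [⟨h', s0 d⟩, absurd h'.2.2 hne]
  refine ⟨o, fun u v => if h : G.Adj u v then γ ⟨(u, v), h⟩ else fun _ => o u,
    fun u v h => uq (ho u) (h ▸ ho v), fun u v h => ?_, fun u v w h => ?_,
    fun u v u' v' h h' hne p => ?_⟩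
  · simp only [dif_pos h, dif_pos h.symm]
    set d : G.Dart := ⟨(u, v), h⟩ with hd
    refine ⟨?_, fun s hs' t ht e => ?_, by simpa [γ] using s0 d,
      by simpa [γ, show ¬ (1 : ℝ) ≤ 2⁻¹ by norm_num] using s0 d.symm, ?_⟩
    · refine ContinuousOn.if ?_ (((k d).1.comp (by fun_prop) ?_)) (((k d.symm).1.comp
        (by fun_prop) ?_))
      · rintro t ⟨-, ht⟩
        obtain rfl : t = 1 / 2 := by simpa using frontier_Iic_subset _ ht
        rw [show (2 : ℝ) * (1 / 2) = 1 by norm_num, show (2 : ℝ) - 1 = 1 by norm_num, s1, s1,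
          d.edge_symm]
      · rintro t ⟨ht, h⟩
        have : t ≤ 1 / 2 := isClosed_Iic.closure_subset h
        exact ⟨by linarith [ht.1], by linarith⟩
      · rintro t ⟨ht, h⟩
        have : 1 / 2 ≤ t := closure_minimal (fun _ h => (not_le.1 h).le) isClosed_Ici h
        exact ⟨by linarith [ht.2], by linarith⟩
    · simp only [γ] at e
      split_ifs at e with a b b
      · linarith [(k d).2.1 ⟨by linarith [hs'.1], by linarith⟩ ⟨by linarith [ht.1], by linarith⟩ e]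
      · rcases K d d.symm d.symm_ne.symm _ ⟨by linarith [hs'.1], by linarith⟩ _
          ⟨by linarith [ht.2], by linarith⟩ e with h' | h'
        exacts [absurd h'.2 h.ne, by linarith [h'.1, h'.2.1]]
      · rcases K d.symm d d.symm_ne _ ⟨by linarith [hs'.2], by linarith⟩ _
          ⟨by linarith [ht.1], by linarith⟩ e with h' | h'
        exacts [absurd h'.2 h.ne', by linarith [h'.1, h'.2.1]]
      · linarith [(k d.symm).2.1 ⟨by linarith [hs'.2], by linarith⟩
          ⟨by linarith [ht.2], by linarith⟩ e]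
    · rw [im, im, union_comm]
      rfl
  · simp only [dif_pos h, im]
    exact Or.imp (P _ w) (P _ w)
  · simp only [dif_pos h, dif_pos h', im]
    rintro (a | a) (b | b)
    · have := Q _ _ (by exact hne) p a b
      exact ⟨u, .inl rfl, .inl this.1, this.2⟩
    · have := Q _ _ (by rw [SimpleGraph.Dart.edge_symm]; exact hne) p a b
      exact ⟨u, .inl rfl, .inr this.1, this.2⟩
    · have := Q _ _ (by rw [SimpleGraph.Dart.edge_symm]; exact hne) p a b
      exact ⟨v, .inr rfl, .inl this.1, this.2⟩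
    · have := Q _ _ (by rw [SimpleGraph.Dart.edge_symm, SimpleGraph.Dart.edge_symm]; exact hne) p a b
      exact ⟨v, .inr rfl, .inr this.1, this.2⟩

end Pool.Agent.MP_aee211_co.H55
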