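import Pool.Agent.MP_aee211_co.H55.Defs

/-! The polygon with identified sides is a Hausdorff space. -/

namespace Pool.Agent.MP_aee211_co.H55

open Set Topology

/-- The point of the unit circle at `θ`, where the full circle has length `M`. -/
noncomputable def ex (M θ : ℝ) : ℂ := Complex.exp (2 * Real.pi * Complex.I * ((θ : ℂ) / M))

theorem side_eq (m i : ℕ) (t : ℝ) : side m i t = ex m (i + t) := by simp [side, ex]

theorem ex_eq' (M θ : ℝ) : ex M θ = Complex.exp (Complex.I * (2 * Real.pi * (θ / M) : ℝ)) := by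
  unfold ex
  congr 1
  push_cast
  ring

theorem norm_ex (M θ : ℝ) : ‖ex M θ‖ = 1 := by rw [ex_eq', Complex.norm_exp_I_mul_ofReal]

theorem ex_iff {M : ℝ} (hM : M ≠ 0) {θ θ' : ℝ} :
    ex M θ = ex M θ' ↔ ∃ n : ℤ, θ = θ' + n * M := by
  have h1 : (M : ℂ) ≠ 0 := by exact_mod_cast hM
  have h2 : (2 * Real.pi * Complex.I : ℂ) ≠ 0 := Complex.two_pi_I_ne_zero
  unfold ex
  rw [Complex.exp_eq_exp_iff_exists_int]
  refine exists_congr fun n => ⟨fun h => ?_, fun h => ?_⟩
  · have : (θ : ℂ) = θ' + n * M := by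
      apply mul_left_cancel₀ h2
      field_simp at h ⊢
      linear_combination h
    exact_mod_cast this
  · rw [h]
    push_cast
    field_simp

theorem continuous_ex (M : ℝ) : Continuous (ex M) := by unfold ex; fun_prop

theorem side_inj {m i j : ℕ} (hi : i < m) (hj : j < m) {t s : ℝ} (ht : t ∈ Ioo (0 : ℝ) 1)
    (hs : s ∈ Icc (0 : ℝ) 1) (h : side m i t = side m j s) : i = j ∧ t = s := by
  have hm : (0 : ℝ) < m := by exact_mod_cast (by omega : 0 < m)
  rw [side_eq, side_eq, ex_iff hm.ne'] at h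
  obtain ⟨n, h⟩ := h
  have a1 : (i : ℝ) + 1 ≤ m := by exact_mod_cast hi
  have a2 : (j : ℝ) + 1 ≤ m := by exact_mod_cast hj
  have a3 : (0 : ℝ) ≤ i := i.cast_nonneg
  have a4 : (0 : ℝ) ≤ j := j.cast_nonneg
  have b1 : (n : ℝ) < 1 := by
    by_contra h'
    nlinarith [ht.2, hs.1]
  have b2 : (-1 : ℝ) < n := by
    by_contra h'
    nlinarith [ht.1, hs.2]
  have b3 : n = 0 := by
    have : n < 1 := by exact_mod_cast b1
    have : -1 < n := by exact_mod_cast b2
    omega
  rw [b3, Int.cast_zero, zero_mul, add_zero] at h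
  have c1 : i < j + 1 := by exact_mod_cast (by linarith [ht.1, hs.2] : (i : ℝ) < j + 1)
  have c2 : j < i + 1 := by exact_mod_cast (by linarith [ht.2, hs.1] : (j : ℝ) < i + 1)
  obtain rfl : i = j := by omega
  exact ⟨rfl, by linarith⟩

/-- The closed unit disc. -/
abbrev Dc : Type := Metric.closedBall (0 : ℂ) 1

/-- Every name occurs exactly twice. -/
structure Paired (w : List (ℕ × Bool)) where
  π : Fin w.length → Fin w.length
  ne : ∀ i, π i ≠ i
  iff : ∀ i j : Fin w.length, i ≠ j → (w[i].1 = w[j].1 ↔ j = π i)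

namespace Paired

variable {w : List (ℕ × Bool)} (P : Paired w)

theorem eq (i : Fin w.length) : w[i].1 = w[P.π i].1 := (P.iff i _ (P.ne i).symm).2 rfl

theorem ππ (i : Fin w.length) : P.π (P.π i) = i := ((P.iff _ i (P.ne i)).1 (P.eq i).symm).symm

/-- The parameter on the partner side. -/
def τ (i : Fin w.length) (t : ℝ) : ℝ := if w[i].2 = w[P.π i].2 then t else 1 - t

theorem glue_iff {z z' : Dc} : Glue w z z' ↔ ∃ (i : Fin w.length) (t : ℝ), t ∈ Icc (0 : ℝ) 1 ∧
    (z : ℂ) = side w.length i t ∧ (z' : ℂ) = side w.length (P.π i) (P.τ i t) := by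
  constructor
  · rintro ⟨i, j, t, h1, h2, h3⟩
    obtain rfl := (P.iff i j h1).1 h2
    exact ⟨i, t, h3⟩
  · rintro ⟨i, t, h⟩
    exact ⟨i, P.π i, t, (P.ne i).symm, P.eq i, h⟩

theorem ττ (i : Fin w.length) (t : ℝ) : P.τ (P.π i) (P.τ i t) = t := by
  unfold τ
  simp only [P.ππ]
  by_cases h : w[i].2 = w[P.π i].2
  · rw [if_pos h, if_pos h.symm]
  · rw [if_neg h, if_neg (Ne.symm h)]
    ring

theorem τ_Icc (i : Fin w.length) {t : ℝ} (h : t ∈ Icc (0 : ℝ) 1) : P.τ i t ∈ Icc (0 : ℝ) 1 := by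
  unfold τ
  split_ifs
  exacts [h, ⟨by linarith [h.2], by linarith [h.1]⟩]

theorem τ_Ioo (i : Fin w.length) {t : ℝ} (h : t ∈ Ioo (0 : ℝ) 1) : P.τ i t ∈ Ioo (0 : ℝ) 1 := by
  unfold τ
  split_ifs
  exacts [h, ⟨by linarith [h.2], by linarith [h.1]⟩]

theorem τ_end (i : Fin w.length) {t : ℝ} (h : t = 0 ∨ t = 1) : P.τ i t = 0 ∨ P.τ i t = 1 := by
  unfold τ
  split_ifs <;> rcases h with rfl | rfl <;> simp

include P in
theorem glue_symm {z z' : Dc} (h : Glue w z z') : Glue w z' z := by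
  obtain ⟨i, t, h1, h2, h3⟩ := P.glue_iff.1 h
  exact P.glue_iff.2 ⟨P.π i, _, P.τ_Icc i h1, h3, by rw [P.ππ, P.ττ, h2]⟩

end Paired

/-- Corners of the polygon. -/
def Cor (m : ℕ) (z : Dc) : Prop := ∃ (i : Fin m) (t : ℝ), (t = 0 ∨ t = 1) ∧ (z : ℂ) = side m i t

theorem finite_cor (m : ℕ) : {z | Cor m z}.Finite := by
  refine Finite.of_finite_image (f := Subtype.val) ?_ Subtype.val_injective.injOn
  refine ((finite_range fun i : Fin m => side m i 0).union
    (finite_range fun i : Fin m => side m i 1)).subset ?_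
  rintro _ ⟨z, ⟨i, t, rfl | rfl, h⟩, rfl⟩
  exacts [.inl ⟨i, h.symm⟩, .inr ⟨i, h.symm⟩]

namespace Paired

variable {w : List (ℕ × Bool)} (P : Paired w)
include P

theorem glue_cor {z z' : Dc} (h : Glue w z z') (hz : Cor w.length z) : Cor w.length z' := by
  obtain ⟨i, t, h1, h2, h3⟩ := P.glue_iff.1 h
  obtain ⟨j, s, h4, h5⟩ := hz
  refine ⟨_, _, P.τ_end i ?_, h3⟩
  by_contra h6
  rw [not_or] at h6
  have := (side_inj i.2 j.2 ⟨lt_of_le_of_ne h1.1 (Ne.symm h6.1), lt_of_le_of_ne h1.2 h6.2⟩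
    (by rcases h4 with rfl | rfl <;> simp) (h2.symm.trans h5)).2
  exact (this ▸ h4).elim h6.1 h6.2

theorem glue_glue {x y z : Dc} (h : Glue w y x) (h' : Glue w y z) (hy : ¬ Cor w.length y) :
    x = z := by
  obtain ⟨i, t, h1, h2, h3⟩ := P.glue_iff.1 h
  obtain ⟨j, s, h4, h5, h6⟩ := P.glue_iff.1 h'
  have a : t ≠ 0 := fun e => hy ⟨i, t, .inl e, h2⟩
  have b : t ≠ 1 := fun e => hy ⟨i, t, .inr e, h2⟩
  obtain ⟨e, rfl⟩ := side_inj i.2 j.2 ⟨lt_of_le_of_ne h1.1 a.symm, lt_of_le_of_ne h1.2 b⟩ h4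
    (h2.symm.trans h5)
  obtain rfl : i = j := Fin.ext e
  exact Subtype.ext (h3.trans h6.symm)

theorem tri {z z' : Dc} (h : Relation.EqvGen (Glue w) z z') :
    z = z' ∨ Glue w z z' ∨ (Cor w.length z ∧ Cor w.length z') := by
  induction h with
  | rel _ _ h => exact .inr (.inl h)
  | refl => exact .inl rfl
  | symm _ _ _ ih => exact ih.imp Eq.symm (Or.imp P.glue_symm And.symm)
  | trans x y z _ _ ih ih' =>
    rcases ih with rfl | h | h
    · exact ih'
    · rcases ih' with rfl | h' | h'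
      · exact .inr (.inl h)
      · by_cases hy : Cor w.length y
        · exact .inr (.inr ⟨P.glue_cor (P.glue_symm h) hy, P.glue_cor h' hy⟩)
        · exact .inl (P.glue_glue (P.glue_symm h) h' hy)
      · exact .inr (.inr ⟨P.glue_cor (P.glue_symm h) h'.1, h'.2⟩)
    · rcases ih' with rfl | h' | h'
      · exact .inr (.inr h)
      · exact .inr (.inr ⟨h.1, P.glue_cor h' h.2⟩)
      · exact .inr (.inr ⟨h.1, h'.2⟩)

theorem closed_glue : IsClosed {p : Dc × Dc | Glue w p.1 p.2} := by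
  have e : {p : Dc × Dc | Glue w p.1 p.2} = Prod.map Subtype.val Subtype.val ⁻¹'
      ⋃ i : Fin w.length, (fun t => (side w.length i t, side w.length (P.π i) (P.τ i t))) ''
        Icc 0 1 := by
    ext p
    simp only [mem_ofPred_eq, P.glue_iff, mem_preimage, mem_iUnion, mem_image, Prod.ext_iff,
      Prod.map_fst, Prod.map_snd, eq_comm]
  rw [e]
  refine IsClosed.preimage (by fun_prop) (isClosed_iUnion_of_finite fun i =>
    (isCompact_Icc.image ?_).isClosed)
  have := continuous_ex w.length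
  simp only [side_eq, τ]
  split_ifs <;> fun_prop

theorem closed_eqv : IsClosed {p : Dc × Dc | Relation.EqvGen (Glue w) p.1 p.2} := by
  have e : {p : Dc × Dc | Relation.EqvGen (Glue w) p.1 p.2} = (diagonal Dc ∪
      {p : Dc × Dc | Glue w p.1 p.2}) ∪ ({p : Dc × Dc | Relation.EqvGen (Glue w) p.1 p.2} ∩
        {z | Cor w.length z} ×ˢ {z | Cor w.length z}) := by
    ext p
    constructor
    · intro h
      rcases P.tri h with h' | h' | h'
      exacts [.inl (.inl h'), .inl (.inr h'), .inr ⟨h, h'⟩]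
    · rintro ((h | h) | h)
      exacts [Quot.eq.1 (congrArg (Quot.mk _) (show p.1 = p.2 from h)), .rel _ _ h, h.1]
  rw [e]
  exact (isClosed_diagonal.union P.closed_glue).union
    (((finite_cor _).prod (finite_cor _)).inter_of_right _).isClosed

theorem closedMap : IsClosedMap (Quot.mk (Glue w)) := by
  intro A hA
  rw [← isQuotientMap_quot_mk.isClosed_preimage]
  have e : Quot.mk (Glue w) ⁻¹' (Quot.mk (Glue w) '' A) = Prod.snd ''
      ((Prod.fst ⁻¹' A) ∩ {p : Dc × Dc | Relation.EqvGen (Glue w) p.1 p.2}) := by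
    ext z
    simp only [mem_preimage, mem_image, Quot.eq, mem_inter_iff, mem_ofPred_eq, Prod.exists,
      exists_eq_right]
  rw [e]
  exact (((hA.preimage continuous_fst).inter P.closed_eqv).isCompact.image continuous_snd).isClosed

theorem t2 : T2Space (Surf w) := by
  refine ⟨fun y y' hne => ?_⟩
  have cl : ∀ y : Surf w, IsClosed (Quot.mk (Glue w) ⁻¹' {y}) := fun y => by
    obtain ⟨z, rfl⟩ := Quot.exists_rep y
    rw [← image_singleton]
    exact (P.closedMap _ isClosed_singleton).preimage continuous_quot_mk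
  obtain ⟨U, V, hU, hV, h1, h2, h3⟩ := NormalSpace.normal _ _ (cl y) (cl y')
    (Disjoint.preimage _ (disjoint_singleton.2 hne))
  refine ⟨(Quot.mk _ '' Uᶜ)ᶜ, (Quot.mk _ '' Vᶜ)ᶜ, (P.closedMap _ hU.isClosed_compl).isOpen_compl,
    (P.closedMap _ hV.isClosed_compl).isOpen_compl, ?_, ?_, disjoint_left.2 fun x a b => ?_⟩
  · rintro ⟨z, hz, e⟩
    exact hz (h1 e)
  · rintro ⟨z, hz, e⟩
    exact hz (h2 e)
  · obtain ⟨z, rfl⟩ := Quot.exists_rep x
    exact disjoint_left.1 h3 (not_not.1 fun h => a ⟨z, h, rfl⟩) (not_not.1 fun h => b ⟨z, h, rfl⟩)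

end Paired

end Pool.Agent.MP_aee211_co.H55
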