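import Pool.Agent.MP_aee211_co.H55.Has

/-! Reduction of polygon words to normal form. -/

namespace Pool.Agent.MP_aee211_co.H55

open List
open scoped Classical

variable {Y : Type} [TopologicalSpace Y] {L Λ : Type}

/-- Every name that occurs, occurs twice. -/
def Two (w : List (L × Bool)) : Prop :=
  ∀ x, count x (w.map Prod.fst) = 0 ∨ count x (w.map Prod.fst) = 2

theorem Two.fresh {a b : L × Bool} {X Z : List (L × Bool)} (h : Two (a :: X ++ b :: Z))
    (e : b.1 = a.1) : a.1 ∉ (X ++ Z).map Prod.fst := by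
  have := h a.1
  simp only [cons_append, map_cons, map_append, count_cons_self, count_append, e] at this
  rw [← count_eq_zero, map_append, count_append]
  omega

theorem iv_ne (a : L × Bool) : iv a ≠ a := by simp [iv, Prod.ext_iff]

theorem iv_inj : Function.Injective (iv : L × Bool → _) := fun a b h => by
  rw [← iv_iv a, h, iv_iv]

theorem count_fst (a : L × Bool) (w : List (L × Bool)) :
    count a.1 (w.map Prod.fst) = count a w + count (iv a) w := by
  induction w with
  | nil => rfl
  | cons b w ih =>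
    obtain ⟨x, s⟩ := a
    obtain ⟨y, t⟩ := b
    simp only [map_cons, count_cons, ih, iv, beq_iff_eq, Prod.mk.injEq]
    by_cases h : y = x <;> cases s <;> cases t <;> simp [h] <;> omega

/-- The elementary operations. -/
inductive Mv : List (L × Bool) → List (L × Bool) → Prop
  | rot (u v) : Mv (u ++ v) (v ++ u)
  | flip (w) : Mv w (inv w)
  | sp (a V W Z) : Mv (a :: V ++ (W ++ iv a :: Z)) (a :: W ++ (V ++ iv a :: Z))
  | g (a U V Z) : Mv (a :: U ++ (V ++ a :: Z)) (a :: V ++ a :: (inv U ++ Z))

def E : List (L × Bool) → List (L × Bool) → Prop := Relation.ReflTransGen Mv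

theorem E.refl (w : List (L × Bool)) : E w w := Relation.ReflTransGen.refl

theorem E.trans {u v w : List (L × Bool)} (h : E u v) (h' : E v w) : E u w :=
  Relation.ReflTransGen.trans h h'

theorem E.rot {w w' : List (L × Bool)} (u v) (h : w = u ++ v) (h' : E (v ++ u) w') : E w w' :=
  h ▸ Relation.ReflTransGen.head (.rot u v) h'

theorem E.flip {w w' : List (L × Bool)} (h' : E (inv w) w') : E w w' :=
  Relation.ReflTransGen.head (.flip w) h'

theorem E.sp {w w' : List (L × Bool)} (a V W Z) (h : w = a :: V ++ (W ++ iv a :: Z))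
    (h' : E (a :: W ++ (V ++ iv a :: Z)) w') : E w w' :=
  h ▸ Relation.ReflTransGen.head (.sp a V W Z) h'

theorem E.g {w w' : List (L × Bool)} (a U V Z) (h : w = a :: U ++ (V ++ a :: Z))
    (h' : E (a :: V ++ a :: (inv U ++ Z)) w') : E w w' :=
  h ▸ Relation.ReflTransGen.head (.g a U V Z) h'

theorem E.eq {w w' : List (L × Bool)} (h : w = w') : E w w' := h ▸ E.refl w

theorem E.symm {w w' : List (L × Bool)} (h : E w w') : E w' w := by
  induction h with
  | refl => exact E.refl _
  | tail _ h ih =>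
    refine E.trans ?_ ih
    cases h with
    | rot u v => exact .rot v u rfl (.refl _)
    | flip => exact .flip (.eq (inv_inv _))
    | sp a V W Z => exact .sp a W V Z rfl (.refl _)
    | g a U V Z =>
      exact .rot (a :: V) (a :: (inv U ++ Z)) rfl <| .g a (inv U) Z V (by simp) <|
        .rot (a :: Z) (a :: (U ++ V)) (by simp) <| .eq (by simp)

theorem Mv.two {w w' : List (L × Bool)} (h : Mv w w') (h' : Two w) : Two w' := fun x => by
  have := h' x
  cases h <;> simp only [map_append, map_cons, cons_append, count_append, count_cons, inv_fst,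
    count_reverse, iv_fst] at this ⊢ <;> omega

theorem Mv.has {w w' : List (L × Bool)} (h : Mv w w') (h' : Two w) (k : Has Y w) : Has Y w' := by
  cases h with
  | rot => exact k.rot
  | flip => exact k.flip
  | sp a V W Z =>
    exact k.sp (by simpa using Two.fresh (a := a) (X := V ++ W) (b := iv a) (by simpa using h') rfl)
  | g a U V Z =>
    exact k.g (by simpa using Two.fresh (X := U ++ V) (b := a) (by simpa using h') rfl)

theorem Mv.nodup {w w' : List (L × Bool)} (h : Mv w w') (k : w.Nodup) : w'.Nodup := by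
  cases h with
  | rot => exact perm_append_comm.nodup_iff.1 k
  | flip => exact (nodup_reverse.2 k).map iv_inj
  | sp a V W Z => exact ((perm_append_comm_assoc _ _ _).cons a).nodup_iff.1 k
  | g a U V Z => simp at k

theorem E.two {w w' : List (L × Bool)} (h : E w w') (h' : Two w) : Two w' := by
  induction h with
  | refl => exact h'
  | tail _ h ih => exact h.two ih

theorem E.has {w w' : List (L × Bool)} (h : E w w') (h' : Two w) (k : Has Y w) : Has Y w' := by
  induction h with
  | refl => exact k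
  | tail h0 h ih => exact h.has (E.two h0 h') ih

theorem E.nodup {w w' : List (L × Bool)} (h : E w w') (k : w.Nodup) : w'.Nodup := by
  induction h with
  | refl => exact k
  | tail _ h ih => exact h.nodup ih

/-- The word is a walk when the letter `a` leads from `σ a` to `σ a⁻¹`. -/
def Walk (σ : L × Bool → Λ) : Λ → List (L × Bool) → Λ → Prop
  | p, [], q => p = q
  | p, a :: w, q => σ a = p ∧ Walk σ (σ (iv a)) w q

theorem walk_append {σ : L × Bool → Λ} {u v : List (L × Bool)} {p q : Λ} :
    Walk σ p (u ++ v) q ↔ ∃ r, Walk σ p u r ∧ Walk σ r v q := by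
  induction u generalizing p with
  | nil => simp [Walk]
  | cons a u ih => simp [Walk, ih, and_assoc]

theorem Walk.inv {σ : L × Bool → Λ} {u : List (L × Bool)} {p q : Λ} (h : Walk σ p u q) :
    Walk σ q (inv u) p := by
  induction u generalizing p with
  | nil => exact h.symm
  | cons a u ih => exact inv_cons a u ▸ walk_append.2 ⟨_, ih h.2, rfl, by simpa [Walk] using h.1⟩

theorem Walk.congr {σ σ' : L × Bool → Λ} {u : List (L × Bool)} {p q : Λ} (h : Walk σ p u q)
    (e : ∀ a : L × Bool, a.1 ∈ u.map Prod.fst → σ' a = σ a) : Walk σ' p u q := by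
  induction u generalizing p with
  | nil => exact h
  | cons a u ih =>
    exact ⟨(e a (by simp)).trans h.1, e (iv a) (by simp) ▸
      ih h.2 fun b hb => e b (mem_cons_of_mem _ hb)⟩

theorem Walk.vis {σ : L × Bool → Λ} {u : List (L × Bool)} {p q : Λ} (h : Walk σ p u q) :
    q = p ∨ ∃ a : L × Bool, a.1 ∈ u.map Prod.fst ∧ q = σ a := by
  induction u generalizing p with
  | nil => exact .inl h.symm
  | cons a u ih =>
    rcases ih h.2 with h | ⟨b, h1, h2⟩
    exacts [.inr ⟨iv a, by simp, h⟩, .inr ⟨b, mem_cons_of_mem _ h1, h2⟩]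

/-- The corners can be labelled compatibly with the gluing by many labels. -/
def Lab (Λ : Type) (γ : ℕ) (w : List (L × Bool)) : Prop :=
  Two w ∧ ∃ (σ : L × Bool → Λ) (p : Λ) (S : Finset Λ), Walk σ p w p ∧
    (∀ l ∈ S, l = p ∨ ∃ a : L × Bool, a.1 ∈ w.map Prod.fst ∧ l = σ a) ∧
    w.length + 2 ≤ 2 * S.card + 2 * γ

theorem fst_cases {a b : L × Bool} (h : b.1 = a.1) : b = a ∨ b = iv a := by
  obtain ⟨x, s⟩ := a
  obtain ⟨y, t⟩ := b
  cases s <;> cases t <;> simp_all [iv]

theorem Mv.lab {γ : ℕ} {w w' : List (L × Bool)} (h : Mv w w') (k : Lab Λ γ w) : Lab Λ γ w' := by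
  obtain ⟨t, σ, p, S, h1, h2, h3⟩ := k
  refine ⟨h.two t, ?_⟩
  have key : ∀ (a : L × Bool) (r : Λ) {u X : List (L × Bool)}, a.1 ∉ X.map Prod.fst → u ⊆ X →
      ∀ b : L × Bool, b.1 ∈ u.map Prod.fst → Function.update σ (iv a) r b = σ b :=
    fun a r u X ha s b hb => Function.update_of_ne (fun e => ha (by
      have := map_subset Prod.fst s hb
      rwa [e] at this)) _ _
  cases h with
  | rot u v =>
    obtain ⟨r, a1, a2⟩ := walk_append.1 h1
    refine ⟨σ, r, S, walk_append.2 ⟨p, a2, a1⟩, fun l hl => ?_, by simpa [add_comm] using h3⟩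
    rcases h2 l hl with rfl | ⟨a, b1, b2⟩
    · exact a2.vis.imp_right fun ⟨a, b1, b2⟩ => ⟨a, by simp only [map_append, mem_append, b1,
        true_or], b2⟩
    · exact .inr ⟨a, by simpa only [map_append, mem_append, or_comm] using b1, b2⟩
  | flip => exact ⟨σ, p, S, h1.inv, by simpa only [inv_fst, mem_reverse] using h2, by simpa⟩
  | sp a V W Z =>
    have f := Two.fresh (a := a) (X := V ++ W) (b := iv a) (Z := Z) (by simpa using t) rfl
    simp only [cons_append, Walk, walk_append, iv_iv] at h1
    obtain ⟨rfl, r, a1, _, a2, rfl, a3⟩ := h1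
    have u := Function.update_of_ne (iv_ne a).symm r σ
    refine ⟨Function.update σ (iv a) r, σ a, S, ?_, fun l hl => ?_, by simp at h3 ⊢; omega⟩
    · simp only [cons_append, Walk, walk_append, iv_iv, Function.update_self, u]
      exact ⟨trivial, _, a2.congr (key a r f (by simp)), _, a1.congr (key a r f (by simp)), rfl,
        a3.congr (key a r f (by simp))⟩
    · rcases h2 l hl with rfl | ⟨b, b1, rfl⟩
      · exact .inl rfl
      by_cases hb : b.1 = a.1
      · rcases fst_cases hb with rfl | rfl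
        · exact .inl rfl
        · rcases a2.vis with e | ⟨c, c1, c2⟩
          · exact .inr ⟨iv a, by simp, by simpa using e⟩
          · exact .inr ⟨c, by simp only [cons_append, map_cons, map_append, mem_cons, mem_append, c1,
              true_or, or_true], c2.trans (key a r f (by simp) c c1).symm⟩
      · refine .inr ⟨b, ?_, (Function.update_of_ne (fun e => hb (by rw [e, iv_fst])) _ _).symm⟩
        simp only [cons_append, map_cons, map_append, mem_cons, mem_append] at b1 ⊢
        tauto
  | g a U V Z =>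
    have f := Two.fresh (X := U ++ V) (b := a) (Z := Z) (by simpa using t) rfl
    simp only [cons_append, Walk, walk_append] at h1
    obtain ⟨rfl, r, a1, _, a2, rfl, a3⟩ := h1
    have u := Function.update_of_ne (iv_ne a).symm r σ
    refine ⟨Function.update σ (iv a) r, σ a, S, ?_, fun l hl => ?_, by simp at h3 ⊢; omega⟩
    · simp only [cons_append, Walk, walk_append, Function.update_self, u]
      exact ⟨trivial, _, a2.congr (key a r f (by simp)), rfl, _,
        (a1.congr (key a r f (by simp))).inv, a3.congr (key a r f (by simp))⟩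
    · rcases h2 l hl with rfl | ⟨b, b1, rfl⟩
      · exact .inl rfl
      by_cases hb : b.1 = a.1
      · rcases fst_cases hb with rfl | rfl
        · exact .inl rfl
        · rcases a1.inv.vis with e | ⟨c, c1, c2⟩
          · exact .inr ⟨iv a, by simp, by simpa using e⟩
          · rw [inv_fst, mem_reverse] at c1
            exact .inr ⟨c, by simp only [cons_append, map_cons, map_append, mem_cons, mem_append,
              inv_fst, mem_reverse, c1, true_or, or_true], c2.trans (key a r f (by simp) c c1).symm⟩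
      · refine .inr ⟨b, ?_, (Function.update_of_ne (fun e => hb (by rw [e, iv_fst])) _ _).symm⟩
        simp only [cons_append, map_cons, map_append, mem_cons, mem_append, inv_fst,
          mem_reverse] at b1 ⊢
        tauto

theorem E.lab {γ : ℕ} {w w' : List (L × Bool)} (h : E w w') (k : Lab Λ γ w) : Lab Λ γ w' := by
  induction h with
  | refl => exact k
  | tail _ h ih => exact h.lab ih

theorem Lab.cancel {γ : ℕ} {a : L × Bool} {Z : List (L × Bool)} (k : Lab Λ γ (a :: iv a :: Z)) :
    Lab Λ γ Z := by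
  obtain ⟨t, σ, p, S, h1, h2, h3⟩ := k
  have f : a.1 ∉ Z.map Prod.fst := Two.fresh (X := []) t rfl
  simp only [Walk, iv_iv] at h1
  obtain ⟨rfl, -, h1⟩ := h1
  refine ⟨fun x => ?_, σ, _, S.erase (σ (iv a)), h1, fun l hl => ?_, ?_⟩
  · by_cases e : a.1 = x
    · exact .inl (count_eq_zero.2 (e ▸ f))
    · simpa only [map_cons, iv_fst, count_cons_of_ne e] using t x
  · rcases h2 l (Finset.mem_of_mem_erase hl) with rfl | ⟨b, b1, rfl⟩
    · exact .inl rfl
    by_cases hb : b.1 = a.1
    · rcases fst_cases hb with rfl | rfl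
      exacts [.inl rfl, absurd rfl (Finset.ne_of_mem_erase hl)]
    · exact .inr ⟨b, by simpa only [map_cons, iv_fst, mem_cons, hb, false_or] using b1, rfl⟩
  · have := Finset.pred_card_le_card_erase (s := S) (a := σ (iv a))
    simp only [length_cons] at h3
    omega

theorem Lab.cross {γ : ℕ} {a : L × Bool} {Z : List (L × Bool)} (k : Lab Λ γ Z)
    (f : a.1 ∉ Z.map Prod.fst) : Lab Λ (γ + 1) (a :: a :: Z) := by
  obtain ⟨t, σ, p, S, h1, h2, h3⟩ := k
  have e : ∀ b : L × Bool, b.1 ∈ Z.map Prod.fst → (if b.1 = a.1 then p else σ b) = σ b :=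
    fun b hb => if_neg fun e : b.1 = a.1 => f (e ▸ hb)
  refine ⟨fun x => ?_, fun b => if b.1 = a.1 then p else σ b, p, S, ?_, fun l hl => ?_, ?_⟩
  · by_cases e : a.1 = x
    · subst e
      simp [count_eq_zero.2 f]
    · simpa only [map_cons, count_cons_of_ne e] using t x
  · simpa [Walk] using h1.congr e
  · exact (h2 l hl).imp_right fun ⟨b, b1, b2⟩ =>
      ⟨b, mem_cons_of_mem _ (mem_cons_of_mem _ b1), b2.trans (e b b1).symm⟩
  · simp only [length_cons]
    omega

theorem E.twist (M A B C : List (L × Bool)) (x : L × Bool) :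
    E (M ++ (A ++ x :: (B ++ x :: C))) (M ++ x :: x :: (A ++ (inv B ++ C))) :=
  .flip <| .rot (inv C ++ iv x :: inv B) (iv x :: (inv A ++ inv M)) (by simp) <|
    .g (iv x) (inv A) (inv M ++ inv C) (inv B) (by simp) <| .flip <|
    .rot (B ++ inv A) (x :: (C ++ M ++ [x])) (by simp) <|
    .rot (x :: (C ++ M)) (x :: (B ++ inv A)) (by simp) <|
    .g x (B ++ inv A) [] (C ++ M) (by simp) <|
    .rot (x :: x :: (A ++ (inv B ++ C))) M (by simp) (.refl _)

theorem E.handle (M B C D : List (L × Bool)) (x y : L × Bool) :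
    E (x :: y :: (B ++ iv x :: (C ++ iv y :: (D ++ M))))
      (M ++ x :: y :: iv x :: iv y :: (C ++ (B ++ D))) :=
  .sp x [y] B (C ++ iv y :: (D ++ M)) (by simp) <|
    .rot (x :: B) (y :: iv x :: (C ++ iv y :: (D ++ M))) (by simp) <|
    .sp y [iv x] C (D ++ M ++ x :: B) (by simp) <|
    .rot (y :: (C ++ iv x :: iv y :: (D ++ M))) (x :: B) (by simp) <|
    .sp x (B ++ [y]) C (iv y :: (D ++ M)) (by simp) <|
    .rot (x :: (C ++ B ++ [y, iv x])) (iv y :: (D ++ M)) (by simp) <|
    .sp (iv y) (D ++ M ++ [x]) (C ++ B) [iv x] (by simp) <|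
    .rot (iv y :: (C ++ (B ++ D))) (M ++ [x, y, iv x]) (by simp) (.eq (by simp))

theorem E.dyck (M R : List (L × Bool)) (c y z : L × Bool) :
    E (M ++ c :: c :: y :: z :: iv y :: iv z :: R)
      (M ++ iv y :: iv y :: iv z :: iv z :: c :: c :: R) :=
  .trans (E.symm (by simpa using E.twist M [] [iv y] (z :: iv y :: iv z :: R) c)) <|
    .trans (by simpa using E.twist M [c] [c, z] (iv z :: R) (iv y)) <|
    by simpa using E.twist (M ++ [iv y, iv y]) [c] [iv c] R (iv z)

/-- Crosscaps and handles. -/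
def blk : (L × Bool) ⊕ ((L × Bool) × (L × Bool)) → List (L × Bool)
  | .inl a => [a, a]
  | .inr (a, b) => [a, b, iv a, iv b]

theorem even_blk (bs : List ((L × Bool) ⊕ ((L × Bool) × (L × Bool)))) (x : L) :
    Even (count x ((bs.flatMap blk).map Prod.fst)) := by
  induction bs with
  | nil => simp
  | cons b bs ih =>
    rw [flatMap_cons, map_append, count_append]
    refine Even.add ?_ ih
    rcases b with a | ⟨a, b⟩ <;> simp only [blk, map_cons, map_nil, count_cons, count_nil, iv_fst]
    exacts [⟨_, by rw [zero_add]⟩, ⟨_, by rw [zero_add, add_assoc]⟩]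

theorem walk_blk {σ : L × Bool → Λ} (bs : List ((L × Bool) ⊕ ((L × Bool) × (L × Bool))))
    {p q : Λ} (h : Walk σ p (bs.flatMap blk) q) :
    ∀ a : L × Bool, a.1 ∈ (bs.flatMap blk).map Prod.fst → σ a = p := by
  induction bs generalizing p with
  | nil => simp
  | cons b bs ih =>
    rw [flatMap_cons, walk_append] at h
    obtain ⟨r, h1, h2⟩ := h
    intro c hc
    rw [flatMap_cons, map_append, mem_append] at hc
    rcases b with a | ⟨a, b⟩ <;> simp only [blk, Walk, iv_iv, map_cons, map_nil, iv_fst, mem_cons,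
      not_mem_nil, or_false] at h1 hc
    · rcases hc with (e | e) | e
      · rcases fst_cases e with rfl | rfl <;> grind
      · rcases fst_cases e with rfl | rfl <;> grind
      · have := ih h2 c e
        grind
    · rcases hc with (e | e | e | e) | e
      · rcases fst_cases e with rfl | rfl <;> grind
      · rcases fst_cases e with rfl | rfl <;> grind
      · rcases fst_cases e with rfl | rfl <;> grind
      · rcases fst_cases e with rfl | rfl <;> grind
      · have := ih h2 c e
        grind

theorem Lab.blk {γ : ℕ} {bs : List ((L × Bool) ⊕ ((L × Bool) × (L × Bool)))}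
    (h : Lab Λ γ (bs.flatMap blk)) : (bs.flatMap blk).length ≤ 2 * γ := by
  obtain ⟨-, σ, p, S, h1, h2, h3⟩ := h
  have : Nonempty Λ := ⟨p⟩
  have : S.card ≤ 1 := Finset.card_le_one_iff_subset_singleton.2 ⟨p, fun l hl => by
    rcases h2 l hl with rfl | ⟨a, b1, rfl⟩
    exacts [Finset.mem_singleton_self _, Finset.mem_singleton.2 (walk_blk bs h1 a b1)]⟩
  omega

theorem exists_dup {R : List (L × Bool)} (h : ¬ R.Nodup) :
    ∃ A x B C, R = A ++ x :: (B ++ x :: C) := by
  induction R with
  | nil => simp at h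
  | cons x R ih =>
    by_cases hx : x ∈ R
    · obtain ⟨B, C, rfl⟩ := append_of_mem hx
      exact ⟨[], x, B, C, rfl⟩
    · obtain ⟨A, y, B, C, rfl⟩ := ih fun k => h (nodup_cons.2 ⟨hx, k⟩)
      exact ⟨x :: A, y, B, C, rfl⟩

theorem partner {R : List (L × Bool)} (t : Two R) (h : R.Nodup) {b : L × Bool} (hb : b ∈ R) :
    iv b ∈ R := by
  have := t b.1
  rw [count_fst, count_eq_one_of_mem h hb] at this
  exact count_pos_iff.1 (by omega)

theorem exists_pair {R : List (L × Bool)} (t : Two R) (h : R.Nodup) (n : ℕ) :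
    ∀ A a B C, B.length ≤ n → R = A ++ a :: (B ++ iv a :: C) →
      (∃ A a C, R = A ++ a :: iv a :: C) ∨
        ∃ A a b B C, R = A ++ a :: b :: (B ++ iv a :: C) ∧ iv b ∈ A ++ C := by
  induction n with
  | zero =>
    intro A a B C hB e
    obtain rfl := length_eq_zero_iff.1 (Nat.le_zero.1 hB)
    exact .inl ⟨A, a, C, e⟩
  | succ n ih =>
    rintro A a (_ | ⟨b, B⟩) C hB e
    · exact .inl ⟨A, a, C, e⟩
    have := partner t h (b := b) (by simp [e])
    by_cases h1 : iv b ∈ A ++ C
    · exact .inr ⟨A, a, b, B, C, e, h1⟩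
    by_cases h2 : iv b ∈ B
    · obtain ⟨B1, B2, rfl⟩ := append_of_mem h2
      exact ih (A ++ [a]) b B1 (B2 ++ iv a :: C) (by simp at hB; omega) (by simp [e])
    exfalso
    rw [mem_append, not_or] at h1
    simp only [e, cons_append, mem_append, mem_cons, h1.1, h1.2, h2, iv_ne, false_or, or_false]
      at this
    rcases this with rfl | this
    · simp [e, nodup_append] at h
    · simp [e, iv_inj this, nodup_append] at h

/-- Reduction of words. -/
def Red (Y : Type) [TopologicalSpace Y] (Λ : Type) (γ : ℕ) (w w' : List (L × Bool)) : Prop :=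
  Lab Λ γ w → Lab Λ γ w' ∧ (Has Y w' → Has Y w) ∧ (w.Nodup ↔ w'.Nodup)

theorem Red.trans {γ : ℕ} {u v w : List (L × Bool)} (h : Red Y Λ γ u v) (h' : Red Y Λ γ v w) :
    Red Y Λ γ u w := fun k =>
  ⟨(h' (h k).1).1, (h k).2.1 ∘ (h' (h k).1).2.1, (h k).2.2.trans (h' (h k).1).2.2⟩

theorem E.red {γ : ℕ} {w w' : List (L × Bool)} (h : E w w') : Red Y Λ γ w w' := fun k =>
  ⟨h.lab k, h.symm.has (h.two k.1), h.nodup, h.symm.nodup⟩

theorem Red.cancel {γ : ℕ} (a : L × Bool) (Z : List (L × Bool)) :
    Red Y Λ γ (a :: iv a :: Z) Z := fun k => by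
  have f : a.1 ∉ Z.map Prod.fst := Two.fresh (X := []) k.1 rfl
  refine ⟨k.cancel, Has.cancel f, fun h => h.of_cons.of_cons, fun h => ?_⟩
  have a1 : a ∉ Z := fun h => f (mem_map_of_mem h)
  have a2 : iv a ∉ Z := fun h => f (mem_map.2 ⟨_, h, rfl⟩)
  simp [h, a1, a2, (iv_ne a).symm]

theorem reduce {γ : ℕ} (n : ℕ) : ∀ (R : List (L × Bool)) (bs : List _), R.length ≤ n →
    Two (bs.flatMap blk ++ R) →
      ∃ bs' : List _, Red Y Λ γ (bs.flatMap blk ++ R) (bs'.flatMap blk) := by
  induction n with
  | zero =>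
    intro R bs h _
    obtain rfl := length_eq_zero_iff.1 (Nat.le_zero.1 h)
    exact ⟨bs, (E.eq (append_nil _)).red⟩
  | succ n ih =>
    intro R bs hR t
    have step : ∀ (bs' : List _) (R' : List (L × Bool)), R'.length + 2 = R.length →
        E (bs.flatMap blk ++ R) (bs'.flatMap blk ++ R') →
        ∃ bs' : List _, Red Y Λ γ (bs.flatMap blk ++ R) (bs'.flatMap blk) := fun bs' R' h e =>
      (ih R' bs' (by omega) (e.two t)).imp fun _ k => e.red.trans k
    by_cases hn : R.Nodup
    swap
    · obtain ⟨A, x, B, C, rfl⟩ := exists_dup hn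
      exact step (bs ++ [.inl x]) (A ++ (inv B ++ C)) (by simp; omega)
        (by simpa [blk] using E.twist (bs.flatMap blk) A B C x)
    have tR : Two R := fun x => by
      have a1 := t x
      obtain ⟨k, a2⟩ := even_blk bs x
      have a3 := count_fst (x, true) R
      have a4 := nodup_iff_count_le_one.1 hn (x, true)
      have a5 := nodup_iff_count_le_one.1 hn (iv (x, true))
      rw [map_append, count_append] at a1
      simp only at a3
      omega
    rcases R with _ | ⟨a, R⟩
    · exact ⟨bs, (E.eq (append_nil _)).red⟩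
    obtain ⟨B, C, rfl⟩ := append_of_mem
      ((mem_cons.1 (partner tR hn mem_cons_self)).resolve_left (iv_ne a))
    rcases exists_pair tR hn _ [] a B C le_rfl rfl with ⟨A, a, C, e⟩ | ⟨A, a, b, B, C, e, h⟩ <;>
      rw [e] at hR t step ⊢
    · have e1 : E (bs.flatMap blk ++ (A ++ a :: iv a :: C))
          (a :: iv a :: (C ++ (bs.flatMap blk ++ A))) :=
        .rot (bs.flatMap blk ++ A) (a :: iv a :: C) (by simp) (.eq (by simp))
      have e2 : E (C ++ (bs.flatMap blk ++ A)) (bs.flatMap blk ++ (A ++ C)) :=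
        .rot _ _ rfl (.eq (by simp))
      by_cases k : Lab Λ γ (bs.flatMap blk ++ (A ++ a :: iv a :: C))
      · exact (ih (A ++ C) bs (by simp at hR ⊢; omega) (e2.two (e1.lab k).cancel.1)).imp
          fun _ k => (e1.red.trans ((Red.cancel _ _).trans e2.red)).trans k
      · exact ⟨[], fun h => absurd h k⟩
    · obtain ⟨C', D, e'⟩ := append_of_mem h
      have := congrArg length e'
      have e1 : E (bs.flatMap blk ++ (A ++ a :: b :: (B ++ iv a :: C)))
          (a :: b :: (B ++ iv a :: ((A ++ C) ++ bs.flatMap blk))) :=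
        .rot (bs.flatMap blk ++ (A ++ a :: b :: B)) (iv a :: C) (by simp) <|
          .sp (iv a) (C ++ bs.flatMap blk) A (b :: B) (by simp) <|
          .rot (iv a :: (A ++ C ++ bs.flatMap blk)) (a :: b :: B) (by simp) (.eq (by simp))
      rw [e'] at e1
      obtain ⟨bs', k⟩ := ih (C' ++ (B ++ D)) (bs ++ [.inr (a, b)]) (by simp at hR this ⊢; omega)
        (by simpa [blk] using (E.handle _ B C' D a b).two (by simpa using e1.two t))
      exact ⟨bs', e1.red.trans (Red.trans (E.red (by
        simpa [blk] using E.handle (bs.flatMap blk) B C' D a b)) k)⟩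

theorem all_cross (bs : List ((L × Bool) ⊕ ((L × Bool) × (L × Bool)))) :
    ∀ (xs : List (L × Bool)) (c : L × Bool), ∃ xs' : List (L × Bool),
      E ((xs.flatMap fun a => [a, a]) ++ c :: c :: bs.flatMap blk) (xs'.flatMap fun a => [a, a]) := by
  induction bs with
  | nil => exact fun xs c => ⟨xs ++ [c], .eq (by simp)⟩
  | cons b bs ih =>
    intro xs c
    rcases b with a | ⟨y, z⟩
    · exact (ih (xs ++ [c]) a).imp fun _ h => by simpa [blk] using h
    · exact (ih (xs ++ [iv y, iv z]) c).imp fun _ h =>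
        E.trans (by simpa [blk] using E.dyck _ (bs.flatMap blk) c y z) h

theorem Mv.length {w w' : List (L × Bool)} (h : Mv w w') : w.length = w'.length := by
  cases h <;> simp <;> omega

theorem E.length {w w' : List (L × Bool)} (h : E w w') : w.length = w'.length := by
  induction h with
  | refl => rfl
  | tail _ h ih => exact ih.trans h.length

theorem blk_cases (bs : List ((L × Bool) ⊕ ((L × Bool) × (L × Bool)))) :
    (∃ ys : List ((L × Bool) × (L × Bool)), bs = ys.map .inr) ∨ ∃ b1 c b2, bs = b1 ++ .inl c :: b2 := by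
  induction bs with
  | nil => exact .inl ⟨[], rfl⟩
  | cons b bs ih =>
    rcases b with a | y
    · exact .inr ⟨[], a, bs, rfl⟩
    · rcases ih with ⟨ys, rfl⟩ | ⟨b1, c, b2, rfl⟩
      exacts [.inl ⟨y :: ys, rfl⟩, .inr ⟨.inr y :: b1, c, b2, rfl⟩]

theorem classS {γ : ℕ} {w : List (L × Bool)} (k : Lab Λ γ w) (h : w.Nodup) :
    ∃ ys : List ((L × Bool) × (L × Bool)), 2 * ys.length ≤ γ ∧
      Two (ys.flatMap fun y => [y.1, y.2, iv y.1, iv y.2]) ∧
      (Has Y (ys.flatMap fun y => [y.1, y.2, iv y.1, iv y.2]) → Has Y w) := by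
  obtain ⟨bs, r⟩ := reduce (Y := Y) (Λ := Λ) (γ := γ) _ w [] le_rfl k.1
  obtain ⟨r1, r2, r3⟩ := r k
  rcases blk_cases bs with ⟨ys, rfl⟩ | ⟨b1, c, b2, rfl⟩
  · have := r1.blk
    rw [flatMap_map] at r1 r2 this
    refine ⟨ys, ?_, r1.1, r2⟩
    simp [blk] at this
    omega
  · exact absurd (r3.1 h) (by simp [blk, nodup_append])

theorem classN {γ : ℕ} {w : List (L × Bool)} (k : Lab Λ γ w) (h : ¬ w.Nodup) :
    ∃ xs : List (L × Bool), xs.length ≤ γ ∧ Two (xs.flatMap fun a => [a, a]) ∧
      (Has Y (xs.flatMap fun a => [a, a]) → Has Y w) := by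
  obtain ⟨bs, r⟩ := reduce (Y := Y) (Λ := Λ) (γ := γ) _ w [] le_rfl k.1
  obtain ⟨r1, r2, r3⟩ := r k
  rcases blk_cases bs with ⟨ys, rfl⟩ | ⟨b1, c, b2, rfl⟩
  · refine absurd (r3.2 (nodup_iff_count_le_one.2 fun a => ?_)) h
    have a1 := r1.1 a.1
    have a2 : count a ((ys.map .inr).flatMap blk) = count (iv a) ((ys.map .inr).flatMap blk) := by
      clear r r1 r2 r3 a1
      have : ∀ b c : L × Bool, iv b = c ↔ b = iv c := fun b c =>
        ⟨fun h => h ▸ (iv_iv b).symm, fun h => h ▸ iv_iv c⟩
      induction ys with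
      | nil => rfl
      | cons y ys ih =>
        simp only [map_cons, flatMap_cons, blk, count_append, count_cons, count_nil, ih,
          beq_iff_eq, this, iv_iv]
        omega
    rw [count_fst] at a1
    omega
  · obtain ⟨xs, e⟩ := all_cross (b1 ++ b2) [] c
    have e : E ((b1 ++ .inl c :: b2).flatMap blk) (xs.flatMap fun a => [a, a]) :=
      E.trans (by simpa [blk] using E.twist [] (b1.flatMap blk) [] (b2.flatMap blk) c) e
    have := e.length ▸ r1.blk
    refine ⟨xs, ?_, e.two r1.1, r2 ∘ e.symm.has (e.two r1.1)⟩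
    simp at this
    omega

end Pool.Agent.MP_aee211_co.H55
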