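import Pool.Agent.MP_aee211_co.H55.Pol
import Pool.Agent.MP_aee211_co.H55.Word
import Pool.Agent.MP_aee211_co.H75.Defs

/-! From an embedding scheme to a polygon word, by merging vertex polygons along a tree. -/

namespace Pool.Agent.MP_aee211_co.H55

open Set H75 Function
open scoped Classical

theorem upd_ne {L Y : Type} {e : L → ℝ → Y} {a : L × Bool} {d : ℝ → Y} {y : L} (h : y ≠ a.1) :
    upd e a d y = e y := update_of_ne h _ _

theorem count_map_nodup {ι L : Type} {D : List ι} (hD : D.Nodup) (f : ι → L) (x : L) (s : Finset ι)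
    (h : ∀ i, i ∈ s ↔ i ∈ D ∧ f i = x) : List.count x (D.map f) = s.card := by
  rw [List.count_eq_countP, List.countP_map, List.countP_eq_length_filter,
    ← List.toFinset_card_of_nodup (hD.filter _)]
  congr 1
  ext x
  simp [h]

variable {V : Type} [Fintype V] {G : SimpleGraph V} (M : Scheme G)

theorem exists_letters : ∃ (o : G.Dart → Bool) (σ : Sym2 V × Bool → Option (Quot M.FaceRel)),
    (∀ d, o d.symm = xor (o d) (!M.sign d)) ∧
      ∀ d s, σ (d.edge, xor (o d) (!s)) = some (Quot.mk _ (d, s)) := by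
  let n := Fintype.equivFin V
  have hn : ∀ d : G.Dart, n d.fst < n d.snd ↔ ¬ n d.snd < n d.fst := fun d =>
    ⟨fun h => h.not_gt, fun h => (n.injective.ne d.adj.ne).lt_or_gt.resolve_right h⟩
  have : ∀ x : Sym2 V, ∃ f : Bool → Option (Quot M.FaceRel), ∀ d : G.Dart, d.edge = x →
      n d.fst < n d.snd → ∀ s, f s = some (Quot.mk _ (d, s)) := fun x => by
    by_cases h : ∃ d : G.Dart, d.edge = x ∧ n d.fst < n d.snd
    · obtain ⟨d, rfl, h⟩ := h
      refine ⟨fun s => some (Quot.mk _ (d, s)), fun d' h1 h2 s => ?_⟩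
      rcases (SimpleGraph.dart_edge_eq_iff _ _).1 h1 with rfl | rfl
      exacts [rfl, absurd h2 h.not_gt]
    · exact ⟨fun _ => none, fun d h1 h2 => absurd ⟨d, h1, h2⟩ h⟩
  choose f hf using this
  refine ⟨fun d => if n d.fst < n d.snd then true else M.sign d, fun a => f a.1 a.2,
    fun d => ?_, fun d s => ?_⟩
  · by_cases h : n d.fst < n d.snd
    · simp [h, (hn d).1 h, M.sign_symm]
    · simp [h, not_not.1 (mt (hn d).2 h)]
  · by_cases h : n d.fst < n d.snd
    · simpa [h] using hf _ d rfl h s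
    · beta_reduce
      rw [if_neg h, hf _ d.symm d.edge_symm (not_not.1 (mt (hn d).2 h))]
      refine congrArg some (Quot.sound (.inl ?_)).symm
      cases M.sign d <;> cases s <;> rfl

variable {M} {o : G.Dart → Bool} {σ : Sym2 V × Bool → Option (Quot M.FaceRel)}

theorem exists_cyc (hσ : ∀ d s, σ (d.edge, xor (o d) (!s)) = some (Quot.mk _ (d, s)))
    (d0 : G.Dart) (c : Bool) : ∃ C : List G.Dart, (d0 :: C).Nodup ∧
      (∀ d, d ∈ d0 :: C ↔ d.fst = d0.fst) ∧ Walk σ (σ (iv (d0.edge, xor (o d0) c)))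
        (C.map fun d => (d.edge, xor (o d) c)) (σ (d0.edge, xor (o d0) c)) := by
  have a1 : ∀ d, σ (d.edge, xor (o d) false) = some (Quot.mk _ (d, true)) := fun d => hσ d true
  have a2 : ∀ d, σ (iv (d.edge, xor (o d) false)) = σ ((M.rot d).edge, xor (o (M.rot d)) false) :=
    fun d => by
      rw [a1, ← Quot.sound (r := M.FaceRel) (a := (d, false)) (.inr ⟨rfl, rfl⟩), ← hσ]
      simp [iv]
  have w : ∀ n, Walk σ (σ (d0.edge, xor (o d0) false)) (((List.range n).map fun i =>
      M.rot^[i] d0).map fun d => (d.edge, xor (o d) false))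
      (σ ((M.rot^[n] d0).edge, xor (o (M.rot^[n] d0)) false)) := fun n => by
    induction n with
    | zero => rfl
    | succ n ih =>
      rw [List.range_succ, List.map_append, List.map_append, iterate_succ_apply']
      exact walk_append.2 ⟨_, ih, rfl, a2 _⟩
  have p : 0 < minimalPeriod M.rot d0 :=
    minimalPeriod_pos_of_mem_periodicPts (M.rot.injective.mem_periodicPts d0)
  have h1 : ((List.range (minimalPeriod M.rot d0)).map fun i => M.rot^[i] d0).Nodup :=
    List.nodup_range.map_on fun i hi j hj h =>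
      iterate_injOn_Iio_minimalPeriod (List.mem_range.1 hi) (List.mem_range.1 hj) h
  have h2 : ∀ d, d ∈ ((List.range (minimalPeriod M.rot d0)).map fun i => M.rot^[i] d0) ↔
      d.fst = d0.fst := fun d => by
    constructor
    · intro h
      obtain ⟨i, -, rfl⟩ := List.mem_map.1 h
      clear h
      induction i with
      | zero => rfl
      | succ i ih => rw [iterate_succ_apply', M.rot_fst, ih]
    · intro h
      obtain ⟨i, rfl⟩ := (M.rot_cyc _ _ h.symm).exists_nat_pow_eq
      exact List.mem_map.2 ⟨_, List.mem_range.2 (Nat.mod_lt i p), by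
        rw [iterate_mod_minimalPeriod_eq, Equiv.Perm.iterate_eq_pow]⟩
  have h3 := w (minimalPeriod M.rot d0)
  rw [iterate_minimalPeriod] at h3
  obtain ⟨k, hk⟩ := Nat.exists_eq_succ_of_ne_zero p.ne'
  rw [hk, List.range_succ_eq_map, List.map_cons] at h1 h2 h3
  cases c
  · exact ⟨_, h1, h2, h3.2⟩
  · refine ⟨List.reverse _, (List.Perm.cons _ (List.reverse_perm _)).nodup_iff.2 h1,
      fun d => (List.Perm.cons _ (List.reverse_perm _)).mem_iff.trans (h2 d), ?_⟩
    simpa [inv, iv, Function.comp_def] using h3.2.inv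

variable (Y : Type) [TopologicalSpace Y] (o σ)

/-- The polygons of the vertices in `S` have been merged along the edges in `T`. -/
structure Inv (S : Finset V) (T : Finset (Sym2 V)) (s : V → Bool) (D : List G.Dart) : Prop where
  nd : D.Nodup
  mem : ∀ d, d ∈ D ↔ d.fst ∈ S ∧ d.edge ∉ T
  card : T.card + 1 = S.card
  edge : ∀ x ∈ T, x ∈ G.edgeSet
  used : ∀ d : G.Dart, d.edge ∈ T → d.fst ∈ S ∧ M.sign d = xor (s d.fst) (s d.snd)
  ori : ∀ s₀ : V → Bool, (∀ d : G.Dart, M.sign d = xor (s₀ d.fst) (s₀ d.snd)) →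
    ∃ c, ∀ v ∈ S, s v = xor (s₀ v) c
  walk : ∃ p, Walk σ p (D.map fun d => (d.edge, xor (o d) (s d.fst))) p ∧
    ∀ (d : G.Dart) t, d.fst ∈ S → σ (d.edge, t) = p ∨ ∃ a : Sym2 V × Bool,
      a.1 ∈ D.map SimpleGraph.Dart.edge ∧ σ (d.edge, t) = σ a
  fine : ∀ (e : Sym2 V → ℝ → Y) (U : Set Y) (A : Set (Sym2 V)),
    Face (D.map fun d => ev e (d.edge, xor (o d) (s d.fst))) U → Sep e A U →
    (∀ d ∈ D, d.edge ∈ A) → (∀ x ∈ T, x ∉ A) →
    ∃ (e' : Sym2 V → ℝ → Y) (Uv : V → Set Y), EqOn e' e A ∧ (∀ x ∈ T, e' x '' Icc 0 1 ⊆ U) ∧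
      Sep e' (A ∪ T) (⋃ v ∈ S, Uv v) ∧ (∀ v ∈ S, Uv v ⊆ U) ∧
      (∀ u ∈ S, ∀ v ∈ S, u ≠ v → Disjoint (Uv u) (Uv v)) ∧ ∀ v ∈ S, Pol G e' v (Uv v)

variable {o σ}

theorem Inv.base (hσ : ∀ d s, σ (d.edge, xor (o d) (!s)) = some (Quot.mk _ (d, s)))
    (d0 : G.Dart) : ∃ D, Inv o σ Y {d0.fst} ∅ (fun _ => false) D := by
  obtain ⟨C, h1, h2, h3⟩ := exists_cyc hσ d0 false
  refine ⟨d0 :: C, h1, by simpa using h2, by simp, by simp, by simp,
    fun s₀ _ => ⟨s₀ d0.fst, by simp⟩, ⟨_, ⟨rfl, h3⟩, fun d t hd => .inr ⟨(d.edge, t),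
      List.mem_map_of_mem ((h2 d).2 (by simpa using hd)), rfl⟩⟩, fun e U A a1 a2 _ _ =>
    ⟨e, fun _ => U, fun _ _ => rfl, by simp, by simpa using a2, by simp, by simp,
      fun v hv => ⟨_, _, h1, by simpa [Finset.mem_singleton.1 hv] using h2, a1⟩⟩⟩

theorem Inv.step (ho : ∀ d, o d.symm = xor (o d) (!M.sign d))
    (hσ : ∀ d s, σ (d.edge, xor (o d) (!s)) = some (Quot.mk _ (d, s)))
    {S : Finset V} {T s D} (I : Inv o σ Y S T s D) (d : G.Dart) (h1 : d.fst ∈ S) (h2 : d.snd ∉ S) :
    ∃ T' s' D', Inv o σ Y (insert d.snd S) T' s' D' := by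
  have hT : d.edge ∉ T := fun h => h2 (I.used d.symm (d.edge_symm ▸ h)).1
  obtain ⟨A, B, rfl⟩ := List.append_of_mem ((I.mem d).2 ⟨h1, hT⟩)
  set c := xor (s d.fst) (M.sign d) with hc
  obtain ⟨C, c1, c2, c3⟩ := exists_cyc hσ d.symm c
  set s' := update s d.snd c with hs'
  have mS : ∀ x ∈ A ++ d :: B, x.fst ∈ S := fun x hx => ((I.mem x).1 hx).1
  have e1 : ∀ v ∈ S, s' v = s v := fun v hv => update_of_ne (fun e : v = d.snd => h2 (e ▸ hv)) _ _
  have e2 : s' d.snd = c := update_self _ _ _
  have mC : ∀ x ∈ C, x.fst = d.snd := fun x hx => (c2 x).1 (List.mem_cons_of_mem _ hx)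
  set a : Sym2 V × Bool := (d.edge, xor (o d) (s d.fst)) with ha
  have e3 : (d.symm.edge, xor (o d.symm) c) = iv a := by
    rw [d.edge_symm, ho, hc, ha, iv]
    cases o d <;> cases s d.fst <;> cases M.sign d <;> rfl
  have nd := I.nd
  have ee : ∀ x : G.Dart, x.edge = d.edge ↔ x = d ∨ x = d.symm := fun x =>
    SimpleGraph.dart_edge_eq_iff _ _
  have f1 : ∀ {α : Type} (f : Sym2 V × Bool → α) (X : List G.Dart), X ⊆ A ++ d :: B →
      (X.map fun x => f (x.edge, xor (o x) (s' x.fst))) =
        X.map fun x => f (x.edge, xor (o x) (s x.fst)) := fun f X h =>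
    List.map_congr_left fun x hx => by rw [e1 _ (mS x (h hx))]
  have f2 : ∀ {α : Type} (f : Sym2 V × Bool → α),
      (C.map fun x => f (x.edge, xor (o x) (s' x.fst))) =
        C.map fun x => f (x.edge, xor (o x) c) := fun f =>
    List.map_congr_left fun x hx => by rw [mC x hx, e2]
  have mem : ∀ x, x ∈ A ++ C ++ B ↔ x.fst ∈ insert d.snd S ∧ x.edge ∉ insert d.edge T := by
    intro x
    have a1 := I.mem x
    have a2 := c2 x
    have a3 := I.used x
    have a4 := ee x
    have a5 : d.symm.fst = d.snd := rfl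
    simp only [List.mem_append, List.mem_cons, Finset.mem_insert, List.nodup_append,
      List.nodup_cons] at a1 a2 nd c1 ⊢
    grind
  refine ⟨insert d.edge T, s', A ++ C ++ B, ?_, mem, ?_, ?_, fun x hx => ?_, fun s₀ h => ?_, ?_,
    fun e U X a1 a2 a3 a4 => ?_⟩
  · rw [List.append_assoc, (List.perm_append_comm_assoc A C B).nodup_iff, List.nodup_append]
    refine ⟨c1.of_cons, nd.sublist (by simp), ?_⟩
    rintro x hx _ hy rfl
    exact h2 (mC x hx ▸ mS x ((show (A ++ B).Sublist _ by simp).subset hy))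
  · rw [Finset.card_insert_of_notMem hT, Finset.card_insert_of_notMem h2, I.card]
  · simpa [d.edge_mem] using I.edge
  · rcases Finset.mem_insert.1 hx with hx | hx
    · rcases (ee x).1 hx with rfl | rfl
      · rw [e1 _ h1, e2, hc]
        simp [h1]
      · rw [M.sign_symm, show d.symm.snd = d.fst from rfl, show d.symm.fst = d.snd from rfl,
          e1 _ h1, e2, hc]
        cases s d.fst <;> simp
    · have a1 := I.used x hx
      have a2 : x.snd ∈ S := (I.used x.symm (x.edge_symm ▸ hx)).1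
      rw [e1 _ a1.1, e1 _ a2]
      exact ⟨Finset.mem_insert_of_mem a1.1, a1.2⟩
  · obtain ⟨k, hk⟩ := I.ori s₀ h
    refine ⟨k, fun v hv => ?_⟩
    rcases Finset.mem_insert.1 hv with rfl | hv
    · rw [e2, hc, h, hk _ h1]
      cases s₀ d.fst <;> cases s₀ d.snd <;> cases k <;> rfl
    · rw [e1 v hv, hk v hv]
  · obtain ⟨p, w1, w2⟩ := I.walk
    rw [List.map_append, List.map_cons, walk_append] at w1
    obtain ⟨_, w1, rfl, w3⟩ := w1
    rw [e3, iv_iv] at c3
    have k : ∀ t, σ (d.edge, t) = p ∨ ∃ b : Sym2 V × Bool,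
        b.1 ∈ (A ++ C ++ B).map SimpleGraph.Dart.edge ∧ σ (d.edge, t) = σ b := fun t => by
      rcases fst_cases (a := a) (b := (d.edge, t)) rfl with e | e <;> rw [e]
      · refine w1.vis.imp_right fun ⟨b, b1, b2⟩ => ⟨b, ?_, b2⟩
        rw [List.map_map] at b1
        exact List.map_subset _ (by simp) b1
      · refine w3.inv.vis.imp_right fun ⟨b, b1, b2⟩ => ⟨b, ?_, b2⟩
        rw [inv_fst, List.mem_reverse, List.map_map] at b1
        exact List.map_subset _ (by simp) b1
    refine ⟨p, ?_, fun x t hx => ?_⟩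
    · rw [List.map_append, List.map_append, f1 (fun y => y) A (by simp),
        f1 (fun y => y) B (by simp), f2 (fun y => y)]
      exact walk_append.2 ⟨_, walk_append.2 ⟨_, w1, c3⟩, w3⟩
    · by_cases b1 : x.edge = d.edge
      · exact b1 ▸ k t
      by_cases b2 : x.edge ∈ T
      · rcases w2 x t (I.used x b2).1 with h | ⟨⟨y, u⟩, b3, b4⟩
        · exact .inl h
        by_cases b5 : y = d.edge
        · exact b4 ▸ b5 ▸ k u
        · refine .inr ⟨(y, u), ?_, b4⟩
          simp only [List.map_append, List.map_cons, List.mem_append, List.mem_cons] at b3 ⊢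
          tauto
      · exact .inr ⟨(x.edge, t), List.mem_map_of_mem ((mem x).2 ⟨hx, by simp [b1, b2]⟩), rfl⟩
  · rw [List.map_append, List.map_append, f1 (ev e) A (by simp), f1 (ev e) B (by simp),
      f2 (ev e)] at a1
    have a0 := a1.rot
    rw [← List.append_assoc] at a0
    obtain ⟨δ, δ', U₁, U₂, g1, g2, s1, s2, b1, b2, -, b4, -, -, b7, -⟩ := a0.cut
    have hX : a.1 ∉ X := a4 _ (Finset.mem_insert_self _ _)
    have sp := a2.new hX (union_subset s1 s2) b2 b4 b7
    have u1 : EqOn (upd e a δ) e X := fun y hy => upd_ne fun h : y = a.1 => hX (h ▸ hy)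
    have u2 : ∀ {e₁ e₂ : Sym2 V → ℝ → Y} (g : G.Dart → Bool) (Z : List G.Dart), EqOn e₁ e₂ X →
        Z ⊆ A ++ C ++ B → (Z.map fun x => ev e₁ (x.edge, g x)) =
          Z.map fun x => ev e₂ (x.edge, g x) := fun g Z h h' =>
      List.map_congr_left fun x hx => by simp only [ev, h (a3 x (h' hx))]
    obtain ⟨e', Uv, k1, k2, k3, k4, k5, k6⟩ := I.fine (upd e a δ) U₁ (insert a.1 X) (by
        rw [List.map_append, List.map_cons, u2 _ A u1 (by simp), u2 _ B u1 (by simp), ev_upd]
        simpa using Face.rot (l := B.map fun x => ev e (x.edge, xor (o x) (s x.fst)))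
          (l' := (A.map fun x => ev e (x.edge, xor (o x) (s x.fst))) ++ [δ]) (g1.sub (by simp)))
      (sp.mono subset_rfl subset_union_left) (fun x hx => by
        rcases List.mem_append.1 hx with hx | hx
        · exact .inr (a3 x (by simp [hx]))
        · rcases List.mem_cons.1 hx with rfl | hx
          exacts [.inl rfl, .inr (a3 x (by simp [hx]))]) (by
        rintro x hx (rfl | h)
        exacts [hT hx, a4 x (Finset.mem_insert_of_mem hx) h])
    have k0 : EqOn e' e X := (k1.mono (subset_insert _ _)).trans u1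
    have v1 : ∀ v ∈ S, update Uv d.snd U₂ v = Uv v := fun v hv =>
      update_of_ne (fun e : v = d.snd => h2 (e ▸ hv)) _ _
    have eX : X ∪ ↑(insert d.edge T) = insert a.1 X ∪ ↑T := by
      rw [Finset.coe_insert, union_insert, insert_union]
    refine ⟨e', update Uv d.snd U₂, k0, fun x hx => ?_, eX ▸ ⟨k3.inj, fun x hx => ?_, k3.dis⟩,
      fun v hv => ?_, fun u hu v hv huv => ?_, fun v hv => ?_⟩
    · rcases Finset.mem_insert.1 hx with rfl | hx
      · rw [k1 (mem_insert _ _), ← ev_image (a := a), ev_upd]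
        exact b4
      · exact (k2 x hx).trans s1
    · rw [Finset.set_biUnion_insert, update_self, iUnion₂_congr v1, disjoint_union_right]
      refine ⟨?_, k3.off x hx⟩
      rcases hx with hx | hx
      · rw [k1 hx]
        exact (sp.off x hx).mono_right subset_union_right
      · exact b1.mono_left (k2 x hx)
    · rcases Finset.mem_insert.1 hv with rfl | hv
      · rwa [update_self]
      · exact v1 v hv ▸ (k4 v hv).trans s1
    · rcases Finset.mem_insert.1 hu with rfl | hu <;> rcases Finset.mem_insert.1 hv with rfl | hv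
      · exact absurd rfl huv
      · rw [update_self, v1 v hv]
        exact (b1.mono_left (k4 v hv)).symm
      · rw [update_self, v1 u hu]
        exact b1.mono_left (k4 u hu)
      · rw [v1 u hu, v1 v hv]
        exact k5 u hu v hv huv
    · rcases Finset.mem_insert.1 hv with rfl | hv
      · rw [update_self]
        refine ⟨d.symm :: C, fun x => xor (o x) c, c1, c2, ?_⟩
        have : ev e' a = δ := by
          rw [← ev_upd (e := e) (a := a) (d := δ)]
          simp only [ev, k1 (mem_insert _ _)]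
        rw [List.map_cons, e3, ev_iv, this, u2 _ C k0 (by simp)]
        simpa [Function.comp_def] using 
          (g2.sub (List.Sublist.append_left (show [δ].Sublist [δ, δ'] by simp) _)).flip
      · exact v1 v hv ▸ k6 v hv

theorem Inv.all (hG : G.Connected) (ho : ∀ d, o d.symm = xor (o d) (!M.sign d))
    (hσ : ∀ d s, σ (d.edge, xor (o d) (!s)) = some (Quot.mk _ (d, s))) (d0 : G.Dart) :
    ∃ T s D, Inv o σ Y Finset.univ T s D := by
  have : ∀ n, n < Fintype.card V → ∃ S T s D, S.card = n + 1 ∧ Inv o σ Y S T s D := by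
    intro n
    induction n with
    | zero => exact fun _ => (Inv.base Y hσ d0).elim fun D h => ⟨_, _, _, D, by simp, h⟩
    | succ n ih =>
      intro hn
      obtain ⟨S, T, s, D, h1, I⟩ := ih (by omega)
      obtain ⟨u, hu⟩ := Finset.card_pos.1 (show 0 < S.card by omega)
      obtain ⟨v, -, hv⟩ := Finset.exists_mem_notMem_of_card_lt_card
        (show S.card < (Finset.univ : Finset V).card by rwa [h1])
      obtain ⟨p⟩ := hG u v
      obtain ⟨d, -, a1, a2⟩ := p.exists_boundary_dart (S : Set V) hu hv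
      obtain ⟨T', s', D', I'⟩ := I.step Y ho hσ d a1 a2
      exact ⟨_, T', s', D', by rw [Finset.card_insert_of_notMem a2, h1], I'⟩
  have h0 : 0 < Fintype.card V := Fintype.card_pos_iff.2 ⟨d0.fst⟩
  obtain ⟨S, T, s, D, h1, I⟩ := this (Fintype.card V - 1) (by omega)
  obtain rfl := Finset.eq_univ_of_card S (by omega)
  exact ⟨T, s, D, I⟩

theorem exists_word (M : Scheme G) (hG : G.Connected) (d0 : G.Dart) :
    ∃ w : List (Sym2 V × Bool), (∀ γ : ℕ, 2 - (γ : ℤ) ≤ M.euler → Lab (Option (Quot M.FaceRel)) γ w) ∧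
      (w.Nodup ↔ M.Orientable) ∧ (∀ x ∈ w.map Prod.fst, x ∈ G.edgeSet) ∧
      (Has Y w → Embeds G Y) := by
  obtain ⟨o, σ, ho, hσ⟩ := exists_letters M
  obtain ⟨T, s, D, I⟩ := Inv.all Y hG ho hσ d0
  have mem : ∀ d, d ∈ D ↔ d.edge ∉ T := fun d => by simpa using I.mem d
  have nm : (D.map fun d => (d.edge, xor (o d) (s d.fst))).map Prod.fst =
      D.map SimpleGraph.Dart.edge := List.map_map
  refine ⟨D.map fun d => (d.edge, xor (o d) (s d.fst)), fun γ hγ => ⟨fun x => ?_, ?_⟩,
    ⟨fun h => ⟨s, fun d => ?_⟩, fun ⟨s₀, h⟩ => I.nd.map_on fun x _ y _ e => ?_⟩, ?_, ?_⟩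
  · rw [nm]
    by_cases hx : x ∈ D.map SimpleGraph.Dart.edge
    · obtain ⟨d, hd, rfl⟩ := List.mem_map.1 hx
      refine .inr ((count_map_nodup I.nd _ _ _ fun x => ?_).trans
        (G.dart_edge_fiber_card _ d.edge_mem))
      simpa [mem] using fun h => h ▸ (mem d).1 hd
    · exact .inl (count_map_nodup I.nd _ _ ∅ (by simpa using hx))
  · obtain ⟨p, w1, w2⟩ := I.walk
    have := Fintype.ofFinite (Quot M.FaceRel)
    refine ⟨σ, p, Finset.univ.image some, w1, fun l hl => ?_, ?_⟩
    · obtain ⟨f, -, rfl⟩ := Finset.mem_image.1 hl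
      obtain ⟨⟨d, t⟩, rfl⟩ := Quot.exists_rep f
      rw [← hσ, nm]
      exact w2 d _ (Finset.mem_univ _)
    · have a1 : D.toFinset = Finset.univ.filter fun d : G.Dart => ¬ d.edge ∈ T := by
        ext d
        simp [mem]
      have a2 := Finset.card_filter_add_card_filter_not (s := Finset.univ)
        fun d : G.Dart => d.edge ∈ T
      have a3 : (Finset.univ.filter fun d : G.Dart => d.edge ∈ T).card = 2 * T.card := by
        rw [Finset.card_eq_sum_card_fiberwise (f := SimpleGraph.Dart.edge) (t := T)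
          (fun d hd => by simpa using hd), mul_comm, ← smul_eq_mul, ← Finset.sum_const]
        refine Finset.sum_congr rfl fun x hx => ?_
        rw [← G.dart_edge_fiber_card _ (I.edge x hx)]
        congr 1
        ext d
        simpa using fun h => h ▸ hx
      have a4 := I.card
      rw [← a1, List.toFinset_card_of_nodup I.nd, a3, Finset.card_univ,
        G.dart_card_eq_twice_card_edges] at a2
      rw [Finset.card_image_of_injective _ (Option.some_injective _), List.length_map]
      simp only [Scheme.euler, Scheme.faces, Nat.card_eq_fintype_card, Finset.card_univ,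
        ← SimpleGraph.edgeFinset_card] at hγ a4 ⊢
      omega
  · by_cases hd : d.edge ∈ T
    · exact (I.used d hd).2
    · have := mt (List.inj_on_of_nodup_map h ((mem _).2 (d.edge_symm ▸ hd)) ((mem d).2 hd))
        d.symm_ne
      rw [d.edge_symm, ho, show d.symm.fst = d.snd from rfl] at this
      revert this
      cases o d <;> cases s d.fst <;> cases s d.snd <;> cases M.sign d <;> simp
  · obtain ⟨c, hc⟩ := I.ori s₀ h
    rcases (SimpleGraph.dart_edge_eq_iff _ _).1 (congrArg Prod.fst e) with rfl | rfl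
    · rfl
    · have := congrArg Prod.snd e
      simp only [ho, h, hc _ (Finset.mem_univ _), show y.symm.fst = y.snd from rfl] at this
      revert this
      cases o y <;> cases s₀ y.fst <;> cases s₀ y.snd <;> cases c <;> simp
  · rw [nm]
    intro x hx
    obtain ⟨d, -, rfl⟩ := List.mem_map.1 hx
    exact d.edge_mem
  · rintro ⟨e, U, h1, h2⟩
    rw [nm] at h2
    obtain ⟨e', Uv, -, -, k3, -, k5, k6⟩ := I.fine e U _ (by rwa [List.map_map] at h1) h2
      (fun d hd => List.mem_map_of_mem hd) fun x hx h => by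
        obtain ⟨d, hd, rfl⟩ := List.mem_map.1 h
        exact (mem d).1 hd hx
    refine embeds_of_pol (fun u v => k5 u (Finset.mem_univ _) v (Finset.mem_univ _))
      (k3.mono (fun x hx => ?_) (by simp)) fun v => k6 v (Finset.mem_univ _)
    induction x using Sym2.ind with
    | h u v =>
      by_cases h : s(u, v) ∈ T
      exacts [.inr h, .inl (List.mem_map.2 ⟨⟨(u, v), hx⟩, (mem _).2 h, rfl⟩)]

end Pool.Agent.MP_aee211_co.H55
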